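import Pool.Agent.W113.Avg

set_option autoImplicit false

/-!
Translation between homomorphisms of a connected bipartite graph to the integers and points of the cube.
-/

namespace Pool.Agent.W113.Range

open Finset

/-- root paths of a parent function -/
def Arec (p : ℕ → ℕ) (hp : ∀ x, 1 ≤ x → p x < x) (x : ℕ) : Finset ℕ :=
  if h : x = 0 then ∅ else insert x (Arec p hp (p x))
termination_by x
decreasing_by exact hp x (Nat.one_le_iff_ne_zero.mpr h)

/-- the tree of a parent function -/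
def mkTree (p : ℕ → ℕ) (hp : ∀ x, 1 ≤ x → p x < x) : RTree where
  p := p
  A := Arec p hp
  p_lt := hp
  A_zero := by
    rw [Arec]
    simp
  A_pos x hx := by
    rw [Arec, dif_neg (by omega)]

namespace RTree

variable (T : RTree)

/-- the points encoding a function with unit steps along the tree -/
theorem exists_point {n : ℕ} {g : ℕ → ℤ} (h0 : g 0 = 0)
    (h1 : ∀ x, 1 ≤ x → x ≤ n → |g x - g (T.p x)| = 1) :
    ∃ q ⊆ Icc 1 n, ∀ x ≤ n, T.h q x = g x := by
  refine ⟨(Icc 1 n).filter fun x => g x = g (T.p x) + 1, filter_subset _ _, ?_⟩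
  intro x
  induction x using Nat.strong_induction_on with
  | _ x ih =>
    intro hx
    rcases Nat.eq_zero_or_pos x with rfl | hx1
    · rw [T.h_zero, h0]
    · have h2 := T.p_lt x hx1
      rw [T.h_pos _ hx1, ih _ h2 (by omega)]
      have h3 := h1 x hx1 hx
      rw [abs_eq (by norm_num)] at h3
      rcases h3 with h3 | h3
      · rw [if_pos]
        · omega
        · rw [mem_filter, mem_Icc]
          exact ⟨⟨hx1, hx⟩, by omega⟩
      · rw [if_neg]
        · omega
        · rw [mem_filter]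
          rintro ⟨_, h4⟩
          omega

theorem point_unique {n : ℕ} {q q' : Finset ℕ} (hq : q ⊆ Icc 1 n) (hq' : q' ⊆ Icc 1 n)
    (h : ∀ x ≤ n, T.h q x = T.h q' x) : q = q' := by
  have key : ∀ x, 1 ≤ x → x ≤ n → (x ∈ q ↔ x ∈ q') := by
    intro x hx1 hx
    have h1 := h x hx
    have h2 := T.p_lt x hx1
    rw [T.h_pos _ hx1, T.h_pos _ hx1, h _ (by omega)] at h1
    by_cases a : x ∈ q <;> by_cases b : x ∈ q' <;> simp [a, b] at h1 ⊢
  ext x
  constructor
  · intro hx
    have h1 := hq hx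
    rw [mem_Icc] at h1
    exact (key x h1.1 h1.2).1 hx
  · intro hx
    have h1 := hq' hx
    rw [mem_Icc] at h1
    exact (key x h1.1 h1.2).2 hx

end RTree

/-- adjacency transported to labels -/
def RG {n : ℕ} (G : SimpleGraph (Fin (n + 1))) (e : Fin (n + 1) ≃ Fin (n + 1)) (y z : ℕ) : Prop :=
  ∃ (hy : y < n + 1) (hz : z < n + 1), G.Adj (e ⟨y, hy⟩) (e ⟨z, hz⟩)

/-- the function on vertices attached to a point -/
def PhiG {n : ℕ} (T : RTree) (e : Fin (n + 1) ≃ Fin (n + 1)) (q : Finset ℕ) : Fin (n + 1) → ℤ :=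
  fun v => T.h q (e.symm v).val

theorem image_PhiG {n : ℕ} (T : RTree) (e : Fin (n + 1) ≃ Fin (n + 1)) (q : Finset ℕ) :
    (univ.image (PhiG T e q)).card = T.cv n q := by
  unfold RTree.cv
  congr 1
  ext v
  simp only [mem_image, mem_univ, true_and, mem_range]
  constructor
  · rintro ⟨u, rfl⟩
    exact ⟨(e.symm u).val, (e.symm u).isLt, rfl⟩
  · rintro ⟨y, hy, rfl⟩
    refine ⟨e ⟨y, hy⟩, ?_⟩
    simp [PhiG]

theorem homs_eq {n : ℕ} (T : RTree) (G : SimpleGraph (Fin (n + 1))) (e : Fin (n + 1) ≃ Fin (n + 1))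
    (he : e 0 = 0)
    (hadj : ∀ x, 1 ≤ x → ∀ (hx : x < n + 1) (hp : T.p x < n + 1),
      G.Adj (e ⟨x, hx⟩) (e ⟨T.p x, hp⟩)) :
    {f : Fin (n + 1) → ℤ | f 0 = 0 ∧ ∀ u v, G.Adj u v → |f u - f v| = 1} =
      ((T.HH n (RG G e)).image (PhiG T e) : Finset (Fin (n + 1) → ℤ)) := by
  classical
  have hes : e.symm 0 = 0 := by rw [Equiv.symm_apply_eq]; exact he.symm
  ext f
  rw [Set.mem_ofPred_eq, mem_coe, mem_image]
  constructor
  · rintro ⟨hf0, hf⟩
    obtain ⟨q, hq, hqf⟩ := T.exists_point (n := n)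
      (g := fun x => if hx : x < n + 1 then f (e ⟨x, hx⟩) else 0)
      (by
        rw [dif_pos (by omega)]
        have : (⟨0, by omega⟩ : Fin (n + 1)) = 0 := rfl
        rw [this, he, hf0])
      (by
        intro x hx1 hx
        have h2 := T.p_lt x hx1
        have h3 : x < n + 1 := by omega
        have h4 : T.p x < n + 1 := by omega
        simp only [dif_pos h3, dif_pos h4]
        exact hf _ _ (hadj x hx1 h3 h4))
    have hfun : ∀ v, T.h q (e.symm v).val = f v := by
      intro v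
      have h1 := (e.symm v).isLt
      rw [hqf _ (by omega), dif_pos h1]
      simp
    refine ⟨q, T.mem_HH.2 ⟨hq, ?_⟩, funext hfun⟩
    rintro y hy z hz ⟨hy', hz', hyz⟩
    have h1 := hf _ _ hyz
    rw [← hfun, ← hfun] at h1
    simpa using h1
  · rintro ⟨q, hq, rfl⟩
    rw [T.mem_HH] at hq
    refine ⟨?_, ?_⟩
    · change T.h q (e.symm 0).val = 0
      rw [hes]
      exact T.h_zero q
    · intro u v huv
      have h1 := (e.symm u).isLt
      have h2 := (e.symm v).isLt
      apply hq.2 _ (by omega) _ (by omega)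
      refine ⟨h1, h2, ?_⟩
      simpa using huv

theorem PhiG_injOn {n : ℕ} (T : RTree) (e : Fin (n + 1) ≃ Fin (n + 1)) (R : ℕ → ℕ → Prop) :
    Set.InjOn (PhiG T e) (T.HH n R : Set (Finset ℕ)) := by
  intro q hq q' hq' h
  rw [mem_coe, T.mem_HH] at hq hq'
  apply T.point_unique hq.1 hq'.1
  intro x hx
  have h1 := congrFun h (e ⟨x, by omega⟩)
  simpa [PhiG] using h1

theorem sum_homs {n : ℕ} (T : RTree) (G : SimpleGraph (Fin (n + 1)))
    (e : Fin (n + 1) ≃ Fin (n + 1)) (he : e 0 = 0)
    (hadj : ∀ x, 1 ≤ x → ∀ (hx : x < n + 1) (hp : T.p x < n + 1),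
      G.Adj (e ⟨x, hx⟩) (e ⟨T.p x, hp⟩)) :
    (∑ᶠ (f : Fin (n + 1) → ℤ)
      (_ : f ∈ {f : Fin (n + 1) → ℤ | f 0 = 0 ∧ ∀ u v, G.Adj u v → |f u - f v| = 1}),
        ((Finset.univ.image f).card : ℝ)) = ∑ q ∈ T.HH n (RG G e), (T.cv n q : ℝ) := by
  classical
  rw [homs_eq T G e he hadj, finsum_mem_coe_finset, sum_image]
  · apply sum_congr rfl
    intro q _
    rw [image_PhiG]
  · exact PhiG_injOn T e _

theorem card_homs {n : ℕ} (T : RTree) (G : SimpleGraph (Fin (n + 1)))
    (e : Fin (n + 1) ≃ Fin (n + 1)) (he : e 0 = 0)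
    (hadj : ∀ x, 1 ≤ x → ∀ (hx : x < n + 1) (hp : T.p x < n + 1),
      G.Adj (e ⟨x, hx⟩) (e ⟨T.p x, hp⟩)) :
    Set.ncard {f : Fin (n + 1) → ℤ | f 0 = 0 ∧ ∀ u v, G.Adj u v → |f u - f v| = 1} =
      (T.HH n (RG G e)).card := by
  classical
  rw [homs_eq T G e he hadj, Set.ncard_coe_finset, card_image_of_injOn (PhiG_injOn T e _)]

/-- a neighbour closer to a given vertex -/
theorem exists_closer {V : Type*} (G : SimpleGraph V) (hG : G.Connected) {r v : V} (hv : v ≠ r) :
    ∃ u, G.Adj v u ∧ G.dist r u < G.dist r v := by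
  obtain ⟨w, hw⟩ := hG.exists_walk_length_eq_dist v r
  cases w with
  | nil => exact absurd rfl hv
  | cons hadj w' =>
    rename_i u
    refine ⟨u, hadj, ?_⟩
    rw [SimpleGraph.Walk.length_cons] at hw
    have h1 := SimpleGraph.dist_le w'
    rw [SimpleGraph.dist_comm (u := r) (v := u), SimpleGraph.dist_comm (u := r) (v := v)]
    omega

/-- A connected graph has a labelling in which every label other than zero is adjacent to a smaller
one. -/
theorem exists_labelling {n : ℕ} (G : SimpleGraph (Fin (n + 1))) (hG : G.Connected) :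
    ∃ (e : Fin (n + 1) ≃ Fin (n + 1)), e 0 = 0 ∧
      ∀ i : Fin (n + 1), i ≠ 0 → ∃ j, j < i ∧ G.Adj (e i) (e j) := by
  classical
  set e : Equiv.Perm (Fin (n + 1)) := Tuple.sort (fun v => G.dist 0 v) with he
  have hmono : Monotone ((fun v => G.dist 0 v) ∘ e) := Tuple.monotone_sort _
  have h0 : e 0 = 0 := by
    have h1 := hmono (Fin.zero_le (e.symm 0))
    simp only [Function.comp, Equiv.apply_symm_apply, SimpleGraph.dist_self] at h1
    have h2 : G.dist 0 (e 0) = 0 := by omega
    exact ((hG.dist_eq_zero_iff).1 h2).symm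
  refine ⟨e, h0, fun i hi => ?_⟩
  have hne : e i ≠ 0 := by
    intro h
    apply hi
    apply e.injective
    rw [h, h0]
  -- a neighbour closer to the root
  obtain ⟨u, hu1, hu2⟩ := exists_closer G hG hne
  refine ⟨e.symm u, ?_, by simpa using hu1⟩
  by_contra hlt
  push Not at hlt
  have h1 := hmono hlt
  simp only [Function.comp, Equiv.apply_symm_apply] at h1
  omega

/-- Main theorem. -/
theorem main (n : ℕ) (G : SimpleGraph (Fin (n + 1))) (hG : G.Connected) (hC : G.Colorable 2) :
      (∑ᶠ (f : Fin (n + 1) → ℤ)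
          (_ : f ∈ {f : Fin (n + 1) → ℤ | f 0 = 0 ∧ ∀ u v, G.Adj u v → |f u - f v| = 1}),
          ((Finset.univ.image f).card : ℝ)) /
        ((Set.ncard {f : Fin (n + 1) → ℤ | f 0 = 0 ∧ ∀ u v, G.Adj u v → |f u - f v| = 1} : ℕ) : ℝ)
      ≤
      (∑ᶠ (f : Fin (n + 1) → ℤ)
          (_ : f ∈ {f : Fin (n + 1) → ℤ | f 0 = 0 ∧
                ∀ u v, (SimpleGraph.pathGraph (n + 1)).Adj u v → |f u - f v| = 1}),
          ((Finset.univ.image f).card : ℝ)) /
        ((Set.ncard {f : Fin (n + 1) → ℤ | f 0 = 0 ∧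
                ∀ u v, (SimpleGraph.pathGraph (n + 1)).Adj u v → |f u - f v| = 1} : ℕ) : ℝ) := by
  classical
  obtain ⟨e, he, hlab⟩ := exists_labelling G hG
  choose! par hpar using hlab
  -- the parent function on the naturals
  let p : ℕ → ℕ := fun x => if hx : x < n + 1 then (par ⟨x, hx⟩).val else x - 1
  have hp : ∀ x, 1 ≤ x → p x < x := by
    intro x hx1
    change (if hx : x < n + 1 then (par ⟨x, hx⟩).val else x - 1) < x
    split_ifs with hx
    · have h1 : (⟨x, hx⟩ : Fin (n + 1)) ≠ 0 := by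
        intro h
        have := congrArg Fin.val h
        simp at this
        omega
      exact (hpar _ h1).1
    · omega
  let T := mkTree p hp
  have hadj : ∀ x, 1 ≤ x → ∀ (hx : x < n + 1) (hpx : T.p x < n + 1),
      G.Adj (e ⟨x, hx⟩) (e ⟨T.p x, hpx⟩) := by
    intro x hx1 hx hpx
    have h1 : (⟨x, hx⟩ : Fin (n + 1)) ≠ 0 := by
      intro h
      have := congrArg Fin.val h
      simp at this
      omega
    have h2 : (⟨T.p x, hpx⟩ : Fin (n + 1)) = par ⟨x, hx⟩ := by
      apply Fin.ext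
      change (if hx : x < n + 1 then (par ⟨x, hx⟩).val else x - 1) = _
      rw [dif_pos hx]
    rw [h2]
    exact (hpar _ h1).2
  -- parity from the colouring
  obtain ⟨C⟩ := hC
  have hcol : ∀ u v, G.Adj u v → (C u).val + (C v).val = 1 := by
    intro u v huv
    have h1 := C.valid huv
    have h2 : (C u).val ≠ (C v).val := fun h => h1 (Fin.ext h)
    have h3 := (C u).isLt
    have h4 := (C v).isLt
    omega
  have hpar2 : ∀ x, ∀ hx : x < n + 1,
      (2 : ℤ) ∣ ((T.A x).card : ℤ) - (C (e ⟨x, hx⟩)).val + (C (e 0)).val := by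
    intro x
    induction x using Nat.strong_induction_on with
    | _ x ih =>
      intro hx
      rcases Nat.eq_zero_or_pos x with rfl | hx1
      · rw [T.A_zero]
        have : (⟨0, hx⟩ : Fin (n + 1)) = 0 := rfl
        rw [this]
        simp
      · have h1 := T.p_lt x hx1
        have h2 := ih _ h1 (by omega)
        have h3 := hcol _ _ (hadj x hx1 hx (by omega))
        have h4 : (T.A x).card = (T.A (T.p x)).card + 1 := by
          rw [T.A_pos x hx1, card_insert_of_notMem (T.notMem_A_p hx1)]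
        rw [h4]
        push_cast
        omega
  have hAdm : T.Adm (RG G e) := by
    constructor
    · rintro y z ⟨hy, hz, h⟩
      exact ⟨hz, hy, h.symm⟩
    · rintro y z ⟨hy, hz, h⟩
      have h1 := hpar2 y hy
      have h2 := hpar2 z hz
      have h3 := hcol _ _ h
      omega
  have hmain := T.avg_le n hAdm
  -- the path
  have hpathadj : ∀ x, 1 ≤ x → ∀ (hx : x < n + 1) (hpx : pathT.p x < n + 1),
      (SimpleGraph.pathGraph (n + 1)).Adj ((Equiv.refl (Fin (n + 1))) ⟨x, hx⟩)
        ((Equiv.refl (Fin (n + 1))) ⟨pathT.p x, hpx⟩) := by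
    intro x hx1 hx hpx
    rw [SimpleGraph.pathGraph_adj]
    right
    change x - 1 + 1 = x
    omega
  have hpathHH : pathT.HH n (RG (SimpleGraph.pathGraph (n + 1)) (Equiv.refl _)) =
      (Icc 1 n).powerset := by
    ext q
    rw [RTree.mem_HH, mem_powerset]
    constructor
    · exact fun h => h.1
    · intro h
      refine ⟨h, ?_⟩
      have hstep : ∀ y, |pathT.h q (y + 1) - pathT.h q y| = 1 := by
        intro y
        have h1 := pathT.h_pos q (x := y + 1) (by omega)
        have h2 : pathT.p (y + 1) = y := rfl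
        rw [h1, h2]
        split_ifs <;> simp
      rintro y hy z hz ⟨hy', hz', hyz⟩
      rw [SimpleGraph.pathGraph_adj] at hyz
      have h5 : y + 1 = z ∨ z + 1 = y := hyz
      rcases h5 with h5 | h5
      · rw [← h5, abs_sub_comm]
        exact hstep y
      · rw [← h5]
        exact hstep z
  rw [sum_homs T G e he hadj, card_homs T G e he hadj,
    sum_homs pathT (SimpleGraph.pathGraph (n + 1)) (Equiv.refl _) rfl hpathadj,
    card_homs pathT (SimpleGraph.pathGraph (n + 1)) (Equiv.refl _) rfl hpathadj, hpathHH,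
    card_powerset, Nat.card_Icc, Nat.add_sub_cancel]
  rcases Nat.eq_zero_or_pos (T.HH n (RG G e)).card with h0 | h0
  · rw [h0]
    simp only [Nat.cast_zero, div_zero]
    positivity
  · rw [div_le_div_iff₀ (by exact_mod_cast h0) (by positivity)]
    have h1 : (2 : ℝ) ^ n * ∑ q ∈ T.HH n (RG G e), (T.cv n q : ℝ) ≤
        (T.HH n (RG G e)).card * ∑ q ∈ (Icc 1 n).powerset, (pathT.cv n q : ℝ) := by
      exact_mod_cast hmain
    push_cast
    linarith

end Pool.Agent.W113.Range
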