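import Pool.Agent.W113.LAvg
import Pool.Agent.W113.Transfer

set_option autoImplicit false

/-!
Translation between Lipschitz maps of a connected graph to the integers and points.
-/

namespace Pool.Agent.W113.Lazy

open Finset Pool.Agent.W113.Range

variable (T : RTree)

/-- the points encoding a function with steps of size at most one along the tree -/
theorem exists_point {n : ℕ} {g : ℕ → ℤ} (h0 : g 0 = 0)
    (h1 : ∀ x, 1 ≤ x → x ≤ n → |g x - g (T.p x)| ≤ 1) :
    ∃ q ∈ Pts (Icc 1 n), ∀ x ≤ n, hL T q x = g x := by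
  let q : ℕ →₀ ℕ := Finsupp.onFinset (Icc 1 n)
    (fun x => if x ∈ Icc 1 n then (g x - g (T.p x) + 1).toNat else 0) (by
      intro e he
      by_contra h
      rw [if_neg h] at he
      exact he rfl)
  have hqa : ∀ x, q x = if x ∈ Icc 1 n then (g x - g (T.p x) + 1).toNat else 0 := fun _ => rfl
  refine ⟨q, ?_, ?_⟩
  · rw [mem_Pts]
    refine ⟨fun i hi => ?_, fun i => ?_⟩
    · rw [hqa, if_neg hi]
    · rw [hqa]
      split_ifs with hi
      · rw [mem_Icc] at hi
        have := h1 i hi.1 hi.2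
        rw [abs_le] at this
        omega
      · norm_num
  intro x
  induction x using Nat.strong_induction_on with
  | _ x ih =>
    intro hx
    rcases Nat.eq_zero_or_pos x with rfl | hx1
    · rw [hL_zero, h0]
    · have h2 := T.p_lt x hx1
      rw [hL_pos T _ hx1, ih _ h2 (by omega), hqa, if_pos (mem_Icc.2 ⟨hx1, hx⟩)]
      have h3 := h1 x hx1 hx
      rw [abs_le] at h3
      omega

theorem point_unique {n : ℕ} {q q' : ℕ →₀ ℕ} (hq : q ∈ Pts (Icc 1 n)) (hq' : q' ∈ Pts (Icc 1 n))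
    (h : ∀ x ≤ n, hL T q x = hL T q' x) : q = q' := by
  rw [mem_Pts] at hq hq'
  ext x
  by_cases hx : x ∈ Icc 1 n
  · rw [mem_Icc] at hx
    have h1 := h x hx.2
    have h2 := T.p_lt x hx.1
    rw [hL_pos T _ hx.1, hL_pos T _ hx.1, h _ (by omega)] at h1
    omega
  · rw [hq.1 x hx, hq'.1 x hx]

/-- the function on vertices attached to a point -/
def PhiG {n : ℕ} (e : Fin (n + 1) ≃ Fin (n + 1)) (q : ℕ →₀ ℕ) : Fin (n + 1) → ℤ :=
  fun v => hL T q (e.symm v).val

theorem image_PhiG {n : ℕ} (e : Fin (n + 1) ≃ Fin (n + 1)) (q : ℕ →₀ ℕ) :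
    (Set.range (PhiG T e q)).ncard = cv T n q := by
  have h0 : Set.range (PhiG T e q) = ((range (n + 1)).image (hL T q) : Finset ℤ) := by
    ext v
    rw [mem_coe, mem_image]
    constructor
    · rintro ⟨u, rfl⟩
      exact ⟨(e.symm u).val, mem_range.2 (e.symm u).isLt, rfl⟩
    · rintro ⟨y, hy, rfl⟩
      rw [mem_range] at hy
      refine ⟨e ⟨y, hy⟩, ?_⟩
      simp [PhiG]
  rw [h0, Set.ncard_coe_finset]
  rfl

theorem homs_eq {n : ℕ} (G : SimpleGraph (Fin (n + 1))) (e : Fin (n + 1) ≃ Fin (n + 1))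
    (he : e 0 = 0)
    (hadj : ∀ x, 1 ≤ x → ∀ (hx : x < n + 1) (hp : T.p x < n + 1),
      G.Adj (e ⟨x, hx⟩) (e ⟨T.p x, hp⟩)) :
    {f : Fin (n + 1) → ℤ | f 0 = 0 ∧ ∀ u v, G.Adj u v → |f u - f v| ≤ 1} =
      ((HH T n (RG G e)).image (PhiG T e) : Finset (Fin (n + 1) → ℤ)) := by
  classical
  have hes : e.symm 0 = 0 := by rw [Equiv.symm_apply_eq]; exact he.symm
  ext f
  rw [Set.mem_ofPred_eq, mem_coe, mem_image]
  constructor
  · rintro ⟨hf0, hf⟩
    obtain ⟨q, hq, hqf⟩ := exists_point T (n := n)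
      (g := fun x => if hx : x < n + 1 then f (e ⟨x, hx⟩) else 0)
      (by
        rw [dif_pos (by omega)]
        have : (⟨0, by omega⟩ : Fin (n + 1)) = 0 := rfl
        rw [this, he, hf0])
      (by
        intro x hx1 hx
        have h2 := T.p_lt x hx1
        have h3 : x < n + 1 := by omega
        have h4 : T.p x < n + 1 := by omega
        simp only [dif_pos h3, dif_pos h4]
        exact hf _ _ (hadj x hx1 h3 h4))
    have hfun : ∀ v, hL T q (e.symm v).val = f v := by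
      intro v
      have h1 := (e.symm v).isLt
      rw [hqf _ (by omega), dif_pos h1]
      simp
    refine ⟨q, (mem_HH T).2 ⟨hq, ?_⟩, funext hfun⟩
    rintro y hy z hz ⟨hy', hz', hyz⟩
    have h1 := hf _ _ hyz
    rw [← hfun, ← hfun] at h1
    simpa using h1
  · rintro ⟨q, hq, rfl⟩
    rw [mem_HH] at hq
    refine ⟨?_, ?_⟩
    · change hL T q (e.symm 0).val = 0
      rw [hes]
      exact hL_zero T q
    · intro u v huv
      have h1 := (e.symm u).isLt
      have h2 := (e.symm v).isLt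
      apply hq.2 _ (by omega) _ (by omega)
      refine ⟨h1, h2, ?_⟩
      simpa using huv

theorem PhiG_injOn {n : ℕ} (e : Fin (n + 1) ≃ Fin (n + 1)) (A : ℕ → ℕ → Prop) :
    Set.InjOn (PhiG T e) (HH T n A : Set (ℕ →₀ ℕ)) := by
  intro q hq q' hq' h
  rw [mem_coe, mem_HH] at hq hq'
  apply point_unique T hq.1 hq'.1
  intro x hx
  have h1 := congrFun h (e ⟨x, by omega⟩)
  simpa [PhiG] using h1

theorem sum_homs {n : ℕ} (G : SimpleGraph (Fin (n + 1)))
    (e : Fin (n + 1) ≃ Fin (n + 1)) (he : e 0 = 0)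
    (hadj : ∀ x, 1 ≤ x → ∀ (hx : x < n + 1) (hp : T.p x < n + 1),
      G.Adj (e ⟨x, hx⟩) (e ⟨T.p x, hp⟩)) :
    (∑ᶠ (f : Fin (n + 1) → ℤ) (_ : f 0 = 0 ∧ ∀ u v, G.Adj u v → |f u - f v| ≤ 1),
        ((Set.range f).ncard : ℝ)) = ∑ q ∈ HH T n (RG G e), (cv T n q : ℝ) := by
  classical
  have h0 : (∑ᶠ (f : Fin (n + 1) → ℤ) (_ : f 0 = 0 ∧ ∀ u v, G.Adj u v → |f u - f v| ≤ 1),
        ((Set.range f).ncard : ℝ)) =
      ∑ᶠ (f : Fin (n + 1) → ℤ)
        (_ : f ∈ {f : Fin (n + 1) → ℤ | f 0 = 0 ∧ ∀ u v, G.Adj u v → |f u - f v| ≤ 1}),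
        ((Set.range f).ncard : ℝ) := rfl
  rw [h0, homs_eq T G e he hadj, finsum_mem_coe_finset, sum_image]
  · apply sum_congr rfl
    intro q _
    rw [image_PhiG]
  · exact PhiG_injOn T e _

theorem card_homs {n : ℕ} (G : SimpleGraph (Fin (n + 1)))
    (e : Fin (n + 1) ≃ Fin (n + 1)) (he : e 0 = 0)
    (hadj : ∀ x, 1 ≤ x → ∀ (hx : x < n + 1) (hp : T.p x < n + 1),
      G.Adj (e ⟨x, hx⟩) (e ⟨T.p x, hp⟩)) :
    Set.ncard {f : Fin (n + 1) → ℤ | f 0 = 0 ∧ ∀ u v, G.Adj u v → |f u - f v| ≤ 1} =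
      (HH T n (RG G e)).card := by
  classical
  rw [homs_eq T G e he hadj, Set.ncard_coe_finset, card_image_of_injOn (PhiG_injOn T e _)]

/-- Main theorem. -/
theorem main (n : ℕ) (G : SimpleGraph (Fin (n + 1))) (hG : G.Connected) :
      (∑ᶠ (f : Fin (n + 1) → ℤ) (_ : f 0 = 0 ∧ ∀ u v, G.Adj u v → |f u - f v| ≤ 1),
          ((Set.range f).ncard : ℝ)) /
        (({f : Fin (n + 1) → ℤ | f 0 = 0 ∧ ∀ u v, G.Adj u v → |f u - f v| ≤ 1}.ncard : ℕ) : ℝ)
      ≤
      (∑ᶠ (f : Fin (n + 1) → ℤ)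
          (_ : f 0 = 0 ∧ ∀ u v, (SimpleGraph.pathGraph (n + 1)).Adj u v → |f u - f v| ≤ 1),
          ((Set.range f).ncard : ℝ)) /
        (({f : Fin (n + 1) → ℤ |
            f 0 = 0 ∧ ∀ u v, (SimpleGraph.pathGraph (n + 1)).Adj u v → |f u - f v| ≤ 1}.ncard : ℕ)
              : ℝ) := by
  classical
  obtain ⟨e, he, hlab⟩ := exists_labelling G hG
  choose! par hpar using hlab
  -- the parent function on the naturals
  let p : ℕ → ℕ := fun x => if hx : x < n + 1 then (par ⟨x, hx⟩).val else x - 1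
  have hp : ∀ x, 1 ≤ x → p x < x := by
    intro x hx1
    change (if hx : x < n + 1 then (par ⟨x, hx⟩).val else x - 1) < x
    split_ifs with hx
    · have h1 : (⟨x, hx⟩ : Fin (n + 1)) ≠ 0 := by
        intro h
        have := congrArg Fin.val h
        simp at this
        omega
      exact (hpar _ h1).1
    · omega
  let T := mkTree p hp
  have hadj : ∀ x, 1 ≤ x → ∀ (hx : x < n + 1) (hpx : T.p x < n + 1),
      G.Adj (e ⟨x, hx⟩) (e ⟨T.p x, hpx⟩) := by
    intro x hx1 hx hpx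
    have h1 : (⟨x, hx⟩ : Fin (n + 1)) ≠ 0 := by
      intro h
      have := congrArg Fin.val h
      simp at this
      omega
    have h2 : (⟨T.p x, hpx⟩ : Fin (n + 1)) = par ⟨x, hx⟩ := by
      apply Fin.ext
      change (if hx : x < n + 1 then (par ⟨x, hx⟩).val else x - 1) = _
      rw [dif_pos hx]
    rw [h2]
    exact (hpar _ h1).2
  have hsymm : ∀ y z, RG G e y z → RG G e z y := by
    rintro y z ⟨hy, hz, h⟩
    exact ⟨hz, hy, h.symm⟩
  have hmain := avg_le T n hsymm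
  -- the path
  have hpathadj : ∀ x, 1 ≤ x → ∀ (hx : x < n + 1) (hpx : pathT.p x < n + 1),
      (SimpleGraph.pathGraph (n + 1)).Adj ((Equiv.refl (Fin (n + 1))) ⟨x, hx⟩)
        ((Equiv.refl (Fin (n + 1))) ⟨pathT.p x, hpx⟩) := by
    intro x hx1 hx hpx
    rw [SimpleGraph.pathGraph_adj]
    right
    change x - 1 + 1 = x
    omega
  have hpathHH : HH pathT n (RG (SimpleGraph.pathGraph (n + 1)) (Equiv.refl _)) =
      Pts (Icc 1 n) := by
    ext q
    rw [mem_HH]
    constructor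
    · exact fun h => h.1
    · intro h
      refine ⟨h, ?_⟩
      have hq3 := (mem_Pts.1 h).2
      have hstep : ∀ y, |hL pathT q (y + 1) - hL pathT q y| ≤ 1 := by
        intro y
        have h1 := hL_pos pathT q (x := y + 1) (by omega)
        have h2 : pathT.p (y + 1) = y := rfl
        have h3 := hq3 (y + 1)
        rw [h1, h2, abs_le]
        omega
      rintro y hy z hz ⟨hy', hz', hyz⟩
      rw [SimpleGraph.pathGraph_adj] at hyz
      have h5 : y + 1 = z ∨ z + 1 = y := hyz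
      rcases h5 with h5 | h5
      · rw [← h5, abs_sub_comm]
        exact hstep y
      · rw [← h5]
        exact hstep z
  rw [sum_homs T G e he hadj, card_homs T G e he hadj,
    sum_homs pathT (SimpleGraph.pathGraph (n + 1)) (Equiv.refl _) rfl hpathadj,
    card_homs pathT (SimpleGraph.pathGraph (n + 1)) (Equiv.refl _) rfl hpathadj, hpathHH,
    card_Pts, Nat.card_Icc, Nat.add_sub_cancel]
  rcases Nat.eq_zero_or_pos (HH T n (RG G e)).card with h0 | h0
  · rw [h0]
    simp only [Nat.cast_zero, div_zero]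
    positivity
  · rw [div_le_div_iff₀ (by exact_mod_cast h0) (by positivity)]
    have h1 : (3 : ℝ) ^ n * ∑ q ∈ HH T n (RG G e), (cv T n q : ℝ) ≤
        (HH T n (RG G e)).card * ∑ q ∈ Pts (Icc 1 n), (cv pathT n q : ℝ) := by
      exact_mod_cast hmain
    push_cast
    linarith

end Pool.Agent.W113.Lazy
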