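import Mathlib

set_option autoImplicit false

/-!
Maxima of simple random walks: sums over words with letters `1` and `-1`.
-/

namespace Pool.Agent.W113.Range

/-- sum of `φ` over all words of length `k` with letters `1` and `-1` -/
def Ex : ℕ → (List ℤ → ℤ) → ℤ
  | 0, φ => φ []
  | k + 1, φ => Ex k (fun w => φ (1 :: w)) + Ex k (fun w => φ (-1 :: w))

/-- the maximum of the walk with steps `w`, started at zero -/
def Mw : List ℤ → ℤ
  | [] => 0
  | e :: w => max 0 (e + Mw w)

/-- reversed and negated word -/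
def rn (w : List ℤ) : List ℤ := (w.map fun e => -e).reverse

theorem Mw_nonneg (w : List ℤ) : 0 ≤ Mw w := by
  cases w with
  | nil => exact le_rfl
  | cons e w => exact le_max_left _ _

theorem Ex_mono (k : ℕ) : ∀ {φ ψ : List ℤ → ℤ}, (∀ w, φ w ≤ ψ w) → Ex k φ ≤ Ex k ψ := by
  induction k with
  | zero => intro φ ψ h; exact h []
  | succ k ih => intro φ ψ h; exact add_le_add (ih fun w => h _) (ih fun w => h _)

theorem Ex_congr (k : ℕ) {φ ψ : List ℤ → ℤ} (h : ∀ w, φ w = ψ w) : Ex k φ = Ex k ψ := by
  have : φ = ψ := funext h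
  rw [this]

theorem Ex_add_fun (k : ℕ) : ∀ φ ψ : List ℤ → ℤ, Ex k (fun w => φ w + ψ w) = Ex k φ + Ex k ψ := by
  induction k with
  | zero => intro φ ψ; rfl
  | succ k ih =>
    intro φ ψ
    simp only [Ex, ih]
    ring

theorem Ex_neg (k : ℕ) : ∀ φ : List ℤ → ℤ, Ex k (fun w => -φ w) = -Ex k φ := by
  induction k with
  | zero => intro φ; rfl
  | succ k ih =>
    intro φ
    simp only [Ex, ih]
    ring

theorem Ex_zero_fun (k : ℕ) : Ex k (fun _ => 0) = 0 := by
  induction k with
  | zero => rfl
  | succ k ih => simp [Ex, ih]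

theorem Ex_sum {ι : Type*} (k : ℕ) (s : Finset ι) (φ : ι → List ℤ → ℤ) :
    Ex k (fun w => ∑ i ∈ s, φ i w) = ∑ i ∈ s, Ex k (φ i) := by
  classical
  induction s using Finset.induction_on with
  | empty => simp [Ex_zero_fun]
  | insert a s ha ih =>
    rw [Finset.sum_insert ha, ← ih, ← Ex_add_fun]
    apply Ex_congr
    intro w
    rw [Finset.sum_insert ha]

theorem Ex_append (a : ℕ) : ∀ (c : ℕ) (φ : List ℤ → ℤ),
    Ex (a + c) φ = Ex a (fun w => Ex c (fun w' => φ (w ++ w'))) := by
  induction a with
  | zero => intro c φ; simp [Ex]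
  | succ a ih =>
    intro c φ
    have : a + 1 + c = (a + c) + 1 := by omega
    rw [this]
    simp only [Ex, ih, List.cons_append]

theorem Ex_comm (a : ℕ) : ∀ (c : ℕ) (ψ : List ℤ → List ℤ → ℤ),
    Ex a (fun w => Ex c (fun w' => ψ w w')) = Ex c (fun w' => Ex a (fun w => ψ w w')) := by
  induction a with
  | zero => intro c ψ; rfl
  | succ a ih =>
    intro c ψ
    simp only [Ex]
    rw [ih, ih, ← Ex_add_fun]

theorem Ex_snoc (k : ℕ) (φ : List ℤ → ℤ) :
    Ex (k + 1) φ = Ex k (fun w => φ (w ++ [1])) + Ex k (fun w => φ (w ++ [-1])) := by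
  rw [Ex_append, ← Ex_add_fun]
  rfl

theorem rn_cons (e : ℤ) (w : List ℤ) : rn (e :: w) = rn w ++ [-e] := by
  simp [rn]

theorem Ex_rn (k : ℕ) : ∀ φ : List ℤ → ℤ, Ex k (fun w => φ (rn w)) = Ex k φ := by
  induction k with
  | zero => intro φ; rfl
  | succ k ih =>
    intro φ
    rw [Ex_snoc k φ]
    simp only [Ex, rn_cons, neg_neg]
    rw [ih (fun w => φ (w ++ [-1])), ih (fun w => φ (w ++ [1])), add_comm]

theorem sum_rn (w : List ℤ) : (rn w).sum = -w.sum := by
  induction w with
  | nil => simp [rn]
  | cons e w ih =>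
    rw [rn_cons, List.sum_append, ih]
    simp

theorem Mw_append (w w' : List ℤ) : Mw (w ++ w') = max (Mw w) (w.sum + Mw w') := by
  induction w with
  | nil =>
    have := Mw_nonneg w'
    simp [Mw, this]
  | cons e w ih =>
    rw [List.cons_append, Mw, ih, Mw, List.sum_cons]
    omega

theorem Mw_rn (w : List ℤ) : Mw (rn w) = Mw w - w.sum := by
  induction w with
  | nil => simp [rn, Mw]
  | cons e w ih =>
    have := Mw_nonneg w
    rw [rn_cons, Mw_append, ih, sum_rn, List.sum_cons]
    simp only [Mw]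
    omega

theorem Ex_sum_zero (k : ℕ) : Ex k (fun w => w.sum) = 0 := by
  have h := Ex_rn k (fun w => w.sum)
  simp only [sum_rn] at h
  rw [Ex_neg k (fun w => w.sum)] at h
  generalize Ex k (fun w => w.sum) = a at h ⊢
  omega

/-- moving an independent nonnegative amount from the start to the end of a walk -/
theorem move_le (a : ℕ) (t d : ℤ) : Ex a (fun w => max t (max (Mw w) d)) ≤
    Ex a (fun w => max t (max (Mw w) (w.sum + d))) := by
  rcases le_or_gt d t with h | h
  · apply Ex_mono
    intro w
    omega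
  · have h1 : Ex a (fun w => max t (max (Mw w) d)) = Ex a (fun w => max (Mw w) d) := by
      apply Ex_congr
      intro w
      omega
    have h2 : Ex a (fun w => max (Mw w) (w.sum + d)) = Ex a (fun w => max (Mw w) d) := by
      have h3 : Ex a (fun w => max (Mw w) (w.sum + d)) =
          Ex a (fun w => w.sum + max (Mw (rn w)) d) := by
        apply Ex_congr
        intro w
        rw [Mw_rn]
        omega
      rw [h3, Ex_add_fun, Ex_sum_zero, Ex_rn a (fun w => max (Mw w) d), zero_add]
    rw [h1, ← h2]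
    apply Ex_mono
    intro w
    omega

/-- Two independent walks started together have a smaller maximum than their concatenation. -/
theorem merge_le (a c : ℕ) (t : ℤ) :
    Ex a (fun w => Ex c (fun w' => max t (max (Mw w) (Mw w')))) ≤
      Ex (a + c) (fun w => max t (Mw w)) := by
  rw [Ex_append]
  simp only [Mw_append]
  rw [Ex_comm, Ex_comm a]
  apply Ex_mono
  intro w'
  exact move_le a t (Mw w')

end Pool.Agent.W113.Range
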