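import Pool.Agent.W113.Tree
import Pool.Agent.W113.Walk

set_option autoImplicit false

/-!
Among rooted trees with a given number of edges the path started at its end has the largest expected
maximum height.
-/

namespace Pool.Agent.W113.Range

open Finset

theorem sum_powerset_union {α : Type*} [DecidableEq α] (J0 J1 : Finset α) (h : Disjoint J0 J1) :
    ∀ f : Finset α → ℤ, ∑ q ∈ (J0 ∪ J1).powerset, f q =
      ∑ q0 ∈ J0.powerset, ∑ q1 ∈ J1.powerset, f (q0 ∪ q1) := by
  induction J1 using Finset.induction_on with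
  | empty => intro f; simp
  | insert a J1 ha ih =>
    intro f
    have h1 : Disjoint J0 J1 := h.mono_right (subset_insert _ _)
    have h2 : a ∉ J0 ∪ J1 := by
      rw [mem_union]
      rintro (h3 | h3)
      · exact disjoint_left.1 h h3 (mem_insert_self _ _)
      · exact ha h3
    rw [union_insert, sum_powerset_insert h2, ih h1, ih h1, ← sum_add_distrib]
    apply sum_congr rfl
    intro q0 _
    rw [sum_powerset_insert ha]
    congr 1
    apply sum_congr rfl
    intro q1 _
    rw [union_insert]

namespace RTree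

variable (T : RTree)

/-- largest height above `r` over `J` together with `r` -/
def Mx (J : Finset ℕ) (r : ℕ) (q : Finset ℕ) : ℤ :=
  (insert r J).sup' (insert_nonempty r J) fun y => T.h q y - T.h q r

/-- `J` is the vertex set, without the root, of a subtree with root `r` -/
def Closed (J : Finset ℕ) (r : ℕ) : Prop := ∀ y ∈ J, r < y ∧ (T.p y ∈ J ∨ T.p y = r)

theorem Mx_nonneg (J : Finset ℕ) (r : ℕ) (q : Finset ℕ) : 0 ≤ T.Mx J r q := by
  have := le_sup' (fun y => T.h q y - T.h q r) (mem_insert_self r J)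
  simpa [Mx] using this

theorem le_Mx {J : Finset ℕ} {r : ℕ} {q : Finset ℕ} {y : ℕ} (hy : y ∈ insert r J) :
    T.h q y - T.h q r ≤ T.Mx J r q := le_sup' (fun y => T.h q y - T.h q r) hy

theorem Mx_le {J : Finset ℕ} {r : ℕ} {q : Finset ℕ} {a : ℤ}
    (h : ∀ y ∈ insert r J, T.h q y - T.h q r ≤ a) : T.Mx J r q ≤ a := sup'_le _ _ h

theorem exists_Mx (J : Finset ℕ) (r : ℕ) (q : Finset ℕ) :
    ∃ y ∈ insert r J, T.Mx J r q = T.h q y - T.h q r := exists_mem_eq_sup' _ _

theorem rel_congr {J : Finset ℕ} {r : ℕ} (hJ : T.Closed J r) {q q' : Finset ℕ}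
    (hq : ∀ e ∈ J, (e ∈ q ↔ e ∈ q')) : ∀ y, y ∈ J → T.h q y - T.h q r = T.h q' y - T.h q' r := by
  intro y
  induction y using Nat.strong_induction_on with
  | _ y ih =>
    intro hy
    have h1 := hJ y hy
    have h2 : 1 ≤ y := by omega
    have h3 : (if y ∈ q then (1 : ℤ) else -1) = if y ∈ q' then 1 else -1 := by
      simp [hq y hy]
    rw [T.h_pos q h2, T.h_pos q' h2, h3]
    rcases h1.2 with h4 | h4
    · have := ih _ (T.p_lt y h2) h4
      linarith
    · rw [h4]
      ring

theorem Mx_congr {J : Finset ℕ} {r : ℕ} (hJ : T.Closed J r) {q q' : Finset ℕ}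
    (hq : ∀ e ∈ J, (e ∈ q ↔ e ∈ q')) : T.Mx J r q = T.Mx J r q' := by
  unfold Mx
  apply sup'_congr _ rfl
  intro y hy
  rw [mem_insert] at hy
  rcases hy with rfl | hy
  · ring
  · exact T.rel_congr hJ hq y hy

/-- Decomposition of a subtree at the smallest child of the root. -/
theorem decomp {J : Finset ℕ} {r : ℕ} (hJ : T.Closed J r) (hne : J.Nonempty) :
    ∃ (x : ℕ) (J0 J1 : Finset ℕ), x ∉ J0 ∪ J1 ∧ Disjoint J0 J1 ∧ J = insert x (J0 ∪ J1) ∧
      T.Closed J0 r ∧ T.Closed J1 x ∧ T.p x = r ∧ 1 ≤ x ∧ (∀ y ∈ J, x ≤ y) ∧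
      (∀ y ∈ J1, x ∈ T.A y) ∧ ∀ y ∈ J0, x ∉ T.A y := by
  classical
  set x := J.min' hne with hx
  have hxJ : x ∈ J := min'_mem _ _
  have hmin : ∀ y ∈ J, x ≤ y := fun y hy => min'_le _ _ hy
  have hx1 : 1 ≤ x := by have := (hJ x hxJ).1; omega
  have hpx : T.p x = r := by
    rcases (hJ x hxJ).2 with h | h
    · have h1 := hmin _ h
      have h2 := T.p_lt x hx1
      omega
    · exact h
  have hrx : r < x := (hJ x hxJ).1
  have hxAx : x ∈ T.A x := by
    rw [T.A_pos x hx1]; exact mem_insert_self _ _
  refine ⟨x, J.filter fun y => x ∉ T.A y, J.filter fun y => y ≠ x ∧ x ∈ T.A y, ?_, ?_, ?_, ?_, ?_,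
    hpx, hx1, hmin, ?_, ?_⟩
  · rw [mem_union, mem_filter, mem_filter]
    rintro (⟨_, h⟩ | ⟨_, h, _⟩)
    · exact h hxAx
    · exact h rfl
  · rw [disjoint_left]
    intro y hy hy'
    rw [mem_filter] at hy hy'
    exact hy.2 hy'.2.2
  · ext y
    simp only [mem_insert, mem_union, mem_filter]
    constructor
    · intro hy
      by_cases h1 : y = x
      · exact Or.inl h1
      · by_cases h2 : x ∈ T.A y
        · exact Or.inr (Or.inr ⟨hy, h1, h2⟩)
        · exact Or.inr (Or.inl ⟨hy, h2⟩)
    · rintro (h | h | h)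
      · rw [h]; exact hxJ
      · exact h.1
      · exact h.1
  · intro y hy
    rw [mem_filter] at hy
    have h1 := hJ y hy.1
    refine ⟨h1.1, ?_⟩
    rcases h1.2 with h2 | h2
    · left
      rw [mem_filter]
      refine ⟨h2, fun h3 => hy.2 ?_⟩
      rw [T.A_pos y (by omega)]
      exact mem_insert_of_mem h3
    · exact Or.inr h2
  · intro y hy
    rw [mem_filter] at hy
    have h1 := hJ y hy.1
    have h2 := hmin y hy.1
    have h3 : x ∈ T.A (T.p y) := by
      have h4 := hy.2.2
      rw [T.A_pos y (by omega), mem_insert] at h4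
      rcases h4 with h4 | h4
      · exact absurd h4.symm hy.2.1
      · exact h4
    refine ⟨lt_of_le_of_ne h2 (Ne.symm hy.2.1), ?_⟩
    rcases h1.2 with h4 | h4
    · by_cases h5 : T.p y = x
      · exact Or.inr h5
      · left
        rw [mem_filter]
        exact ⟨h4, h5, h3⟩
    · rw [h4] at h3
      exact absurd h3 (T.notMem_A_of_lt hrx)
  · intro y hy
    exact (mem_filter.1 hy).2.2
  · intro y hy
    exact (mem_filter.1 hy).2

theorem Mx_decomp {J0 J1 : Finset ℕ} {x r : ℕ} (hx1 : 1 ≤ x) (hpx : T.p x = r) (q : Finset ℕ) :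
    T.Mx (insert x (J0 ∪ J1)) r q =
      max (T.Mx J0 r q) ((if x ∈ q then 1 else -1) + T.Mx J1 x q) := by
  have hh : T.h q x = (if x ∈ q then 1 else -1) + T.h q r := by
    rw [T.h_pos q hx1, hpx]
  apply le_antisymm
  · apply T.Mx_le
    intro y hy
    rw [mem_insert, mem_insert, mem_union] at hy
    rcases hy with hy | hy | hy | hy
    · exact (T.le_Mx (mem_insert.2 (Or.inl hy))).trans (le_max_left _ _)
    · refine le_trans ?_ (le_max_right _ _)
      have := T.le_Mx (J := J1) (r := x) (q := q) (y := y) (mem_insert.2 (Or.inl hy))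
      linarith
    · exact (T.le_Mx (mem_insert.2 (Or.inr hy))).trans (le_max_left _ _)
    · refine le_trans ?_ (le_max_right _ _)
      have := T.le_Mx (J := J1) (r := x) (q := q) (y := y) (mem_insert.2 (Or.inr hy))
      linarith
  · apply max_le
    · apply T.Mx_le
      intro y hy
      apply T.le_Mx
      rw [mem_insert] at hy
      rw [mem_insert, mem_insert, mem_union]
      tauto
    · obtain ⟨y, hy, hy'⟩ := T.exists_Mx J1 x q
      rw [hy']
      have h1 : y ∈ insert r (insert x (J0 ∪ J1)) := by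
        rw [mem_insert] at hy
        rw [mem_insert, mem_insert, mem_union]
        tauto
      have := T.le_Mx (q := q) h1
      linarith

/-- sum over sign patterns, split at the smallest child of the root -/
theorem sum_decomp {J0 J1 : Finset ℕ} {x r : ℕ} (hx : x ∉ J0 ∪ J1) (hd : Disjoint J0 J1)
    (hJ0 : T.Closed J0 r) (hJ1 : T.Closed J1 x) (hx1 : 1 ≤ x) (hpx : T.p x = r) (φ : ℤ → ℤ) :
    ∑ q ∈ (insert x (J0 ∪ J1)).powerset, φ (T.Mx (insert x (J0 ∪ J1)) r q) =
      ∑ q0 ∈ J0.powerset, ∑ q1 ∈ J1.powerset,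
        (φ (max (T.Mx J0 r q0) (-1 + T.Mx J1 x q1)) + φ (max (T.Mx J0 r q0) (1 + T.Mx J1 x q1))) := by
  rw [sum_powerset_insert hx, sum_powerset_union J0 J1 hd, sum_powerset_union J0 J1 hd,
    ← sum_add_distrib]
  apply sum_congr rfl
  intro q0 hq0
  rw [← sum_add_distrib]
  apply sum_congr rfl
  intro q1 hq1
  rw [mem_powerset] at hq0 hq1
  rw [mem_union, not_or] at hx
  have hxq : x ∉ q0 ∪ q1 := by
    rw [mem_union]
    rintro (h | h)
    · exact hx.1 (hq0 h)
    · exact hx.2 (hq1 h)
  have hne0 : ∀ e ∈ J0, e ≠ x := fun e he h => hx.1 (h ▸ he)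
  have hne1 : ∀ e ∈ J1, e ≠ x := fun e he h => hx.2 (h ▸ he)
  have e0 : ∀ e ∈ J0, (e ∈ q0 ∪ q1 ↔ e ∈ q0) := by
    intro e he
    rw [mem_union]
    constructor
    · rintro (h | h)
      · exact h
      · exact absurd (hq1 h) (disjoint_left.1 hd he)
    · exact Or.inl
  have e1 : ∀ e ∈ J1, (e ∈ q0 ∪ q1 ↔ e ∈ q1) := by
    intro e he
    rw [mem_union]
    constructor
    · rintro (h | h)
      · exact absurd he (disjoint_left.1 hd (hq0 h))
      · exact h
    · exact Or.inr
  have e0' : ∀ e ∈ J0, (e ∈ insert x (q0 ∪ q1) ↔ e ∈ q0) := by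
    intro e he
    rw [mem_insert, e0 e he]
    simp [hne0 e he]
  have e1' : ∀ e ∈ J1, (e ∈ insert x (q0 ∪ q1) ↔ e ∈ q1) := by
    intro e he
    rw [mem_insert, e1 e he]
    simp [hne1 e he]
  rw [T.Mx_decomp hx1 hpx, T.Mx_decomp hx1 hpx, if_neg hxq, if_pos (mem_insert_self _ _),
    T.Mx_congr hJ0 e0, T.Mx_congr hJ1 e1, T.Mx_congr hJ0 e0', T.Mx_congr hJ1 e1']

/-- The expected maximum over a tree is at most that over the path. -/
theorem sum_max_le (s : ℕ) : ∀ (J : Finset ℕ) (r : ℕ), J.card = s → T.Closed J r → ∀ t : ℤ,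
    ∑ q ∈ J.powerset, max t (T.Mx J r q) ≤ Ex J.card (fun w => max t (Mw w)) := by
  induction s using Nat.strong_induction_on with
  | _ s ih =>
    intro J r hs hJ t
    rcases J.eq_empty_or_nonempty with rfl | hne
    · simp [Ex, Mw, Mx]
    · obtain ⟨x, J0, J1, hx, hd, rfl, hJ0, hJ1, hpx, hx1, -, -, -⟩ := T.decomp hJ hne
      have hcard : (insert x (J0 ∪ J1)).card = J0.card + (J1.card + 1) := by
        rw [card_insert_of_notMem hx, card_union_of_disjoint hd]
        ring
      have ih0 := ih J0.card (by omega) J0 r rfl hJ0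
      have ih1 := ih J1.card (by omega) J1 x rfl hJ1
      rw [T.sum_decomp hx hd hJ0 hJ1 hx1 hpx (fun a => max t a), hcard]
      -- replace the part at the root
      have s1 : ∀ (q1 : Finset ℕ) (ε : ℤ),
          ∑ q0 ∈ J0.powerset, max t (max (T.Mx J0 r q0) (ε + T.Mx J1 x q1)) ≤
            Ex J0.card (fun w => max t (max (Mw w) (ε + T.Mx J1 x q1))) := by
        intro q1 ε
        have h1 := ih0 (max t (ε + T.Mx J1 x q1))
        have h2 : ∑ q0 ∈ J0.powerset, max t (max (T.Mx J0 r q0) (ε + T.Mx J1 x q1)) =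
            ∑ q0 ∈ J0.powerset, max (max t (ε + T.Mx J1 x q1)) (T.Mx J0 r q0) := by
          apply sum_congr rfl
          intro q0 _
          omega
        have h3 : Ex J0.card (fun w => max t (max (Mw w) (ε + T.Mx J1 x q1))) =
            Ex J0.card (fun w => max (max t (ε + T.Mx J1 x q1)) (Mw w)) := by
          apply Ex_congr
          intro w
          omega
        rw [h2, h3]
        exact h1
      -- replace the part at the child
      have s2 : ∀ (s ε : ℤ), ∑ q1 ∈ J1.powerset, max s (ε + T.Mx J1 x q1) ≤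
          Ex J1.card (fun w => max s (ε + Mw w)) := by
        intro s ε
        have h1 := ih1 (s - ε)
        have h2 : ∑ q1 ∈ J1.powerset, max s (ε + T.Mx J1 x q1) =
            ∑ q1 ∈ J1.powerset, ε + ∑ q1 ∈ J1.powerset, max (s - ε) (T.Mx J1 x q1) := by
          rw [← sum_add_distrib]
          apply sum_congr rfl
          intro q1 _
          omega
        have h3 : Ex J1.card (fun w => max s (ε + Mw w)) =
            Ex J1.card (fun _ => ε) + Ex J1.card (fun w => max (s - ε) (Mw w)) := by
          rw [← Ex_add_fun]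
          apply Ex_congr
          intro w
          omega
        have h4 : ∀ k : ℕ, Ex k (fun _ => ε) = 2 ^ k * ε := by
          intro k
          induction k with
          | zero => simp [Ex]
          | succ k ih => simp only [Ex, ih]; ring
        rw [h2, h3, h4, sum_const, card_powerset]
        simp only [nsmul_eq_mul, Nat.cast_pow, Nat.cast_ofNat]
        linarith
      calc ∑ q0 ∈ J0.powerset, ∑ q1 ∈ J1.powerset,
            (max t (max (T.Mx J0 r q0) (-1 + T.Mx J1 x q1)) +
              max t (max (T.Mx J0 r q0) (1 + T.Mx J1 x q1)))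
          = ∑ q1 ∈ J1.powerset, (∑ q0 ∈ J0.powerset,
              max t (max (T.Mx J0 r q0) (-1 + T.Mx J1 x q1)) +
              ∑ q0 ∈ J0.powerset, max t (max (T.Mx J0 r q0) (1 + T.Mx J1 x q1))) := by
            rw [sum_comm]
            apply sum_congr rfl
            intro q1 _
            rw [sum_add_distrib]
        _ ≤ ∑ q1 ∈ J1.powerset, (Ex J0.card (fun w => max t (max (Mw w) (-1 + T.Mx J1 x q1))) +
              Ex J0.card (fun w => max t (max (Mw w) (1 + T.Mx J1 x q1)))) := by
            apply sum_le_sum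
            intro q1 _
            exact add_le_add (s1 q1 (-1)) (s1 q1 1)
        _ = Ex J0.card (fun w => ∑ q1 ∈ J1.powerset, max (max t (Mw w)) (-1 + T.Mx J1 x q1) +
              ∑ q1 ∈ J1.powerset, max (max t (Mw w)) (1 + T.Mx J1 x q1)) := by
            rw [sum_add_distrib, ← Ex_sum, ← Ex_sum, ← Ex_add_fun]
            apply Ex_congr
            intro w
            congr 1 <;>
            · apply sum_congr rfl
              intro q1 _
              omega
        _ ≤ Ex J0.card (fun w => Ex J1.card (fun w' => max (max t (Mw w)) (-1 + Mw w')) +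
              Ex J1.card (fun w' => max (max t (Mw w)) (1 + Mw w'))) := by
            apply Ex_mono
            intro w
            exact add_le_add (s2 _ _) (s2 _ _)
        _ = Ex J0.card (fun w => Ex (J1.card + 1) (fun w' => max t (max (Mw w) (Mw w')))) := by
            apply Ex_congr
            intro w
            have hw := Mw_nonneg w
            simp only [Ex, Mw]
            rw [add_comm]
            congr 1 <;>
            · apply Ex_congr
              intro w'
              omega
        _ ≤ Ex (J0.card + (J1.card + 1)) (fun w => max t (Mw w)) := merge_le _ _ _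

end RTree

end Pool.Agent.W113.Range
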