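import Pool.Agent.W113.GCI
import Pool.Agent.W113.TreeMax

set_option autoImplicit false

/-!
Number of values of tree-indexed walks: comparison of a constrained walk with the free walk on the
tree, and of the free walk on the tree with the walk on the path.
-/

namespace Pool.Agent.W113.Range

open Finset

/-- the path on the naturals -/
def pathT : RTree where
  p x := x - 1
  A x := Icc 1 x
  p_lt x hx := by omega
  A_zero := by simp
  A_pos x hx := by
    ext e
    simp only [mem_Icc, mem_insert]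
    omega

theorem path_closed (r k : ℕ) : pathT.Closed (Icc (r + 1) (r + k)) r := by
  intro y hy
  rw [mem_Icc] at hy
  refine ⟨by omega, ?_⟩
  change y - 1 ∈ Icc (r + 1) (r + k) ∨ y - 1 = r
  rw [mem_Icc]
  omega

theorem path_sum (k : ℕ) : ∀ (φ : ℤ → ℤ) (r : ℕ),
    ∑ q ∈ (Icc (r + 1) (r + k)).powerset, φ (pathT.Mx (Icc (r + 1) (r + k)) r q) =
      Ex k (fun w => φ (Mw w)) := by
  induction k with
  | zero =>
    intro φ r
    have : Icc (r + 1) (r + 0) = ∅ := by
      ext e; simp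
    rw [this]
    simp [Ex, Mw, RTree.Mx]
  | succ k ih =>
    intro φ r
    have hI : Icc (r + 1) (r + (k + 1)) = insert (r + 1) (∅ ∪ Icc (r + 1 + 1) (r + 1 + k)) := by
      ext e
      simp only [mem_Icc, mem_insert, empty_union]
      omega
    have hx : r + 1 ∉ (∅ : Finset ℕ) ∪ Icc (r + 1 + 1) (r + 1 + k) := by
      rw [empty_union, mem_Icc]
      omega
    have h0 : pathT.Closed ∅ r := by
      intro y hy
      exact absurd hy (notMem_empty y)
    rw [hI, pathT.sum_decomp hx (disjoint_empty_left _) h0 (path_closed (r + 1) k) (by omega) rfl φ]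
    have hM : ∀ q, pathT.Mx ∅ r q = 0 := by
      intro q
      simp [RTree.Mx]
    rw [powerset_empty, sum_singleton]
    simp only [hM, sum_add_distrib]
    rw [ih (fun a => φ (max 0 (-1 + a))), ih (fun a => φ (max 0 (1 + a)))]
    simp only [Ex, Mw]
    ring

namespace RTree

variable (T : RTree)

/-- number of values -/
def cv (n : ℕ) (q : Finset ℕ) : ℕ := ((range (n + 1)).image (T.h q)).card

theorem ivt (q : Finset ℕ) (y : ℕ) : ∀ v : ℤ, (0 ≤ v ∧ v ≤ T.h q y ∨ T.h q y ≤ v ∧ v ≤ 0) →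
    ∃ z ≤ y, T.h q z = v := by
  induction y using Nat.strong_induction_on with
  | _ y ih =>
    intro v hv
    rcases Nat.eq_zero_or_pos y with rfl | hy
    · rw [T.h_zero] at hv
      exact ⟨0, le_rfl, by rw [T.h_zero]; omega⟩
    · by_cases h1 : v = T.h q y
      · exact ⟨y, le_rfl, h1.symm⟩
      · have h2 := T.h_pos q hy
        have h3 := T.p_lt y hy
        have h4 : (0 ≤ v ∧ v ≤ T.h q (T.p y) ∨ T.h q (T.p y) ≤ v ∧ v ≤ 0) := by
          split_ifs at h2 <;> omega
        obtain ⟨z, hz, hzv⟩ := ih _ h3 v h4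
        exact ⟨z, by omega, hzv⟩

theorem closed_Icc (n : ℕ) : T.Closed (Icc 1 n) 0 := by
  intro y hy
  rw [mem_Icc] at hy
  refine ⟨by omega, ?_⟩
  have := T.p_lt y hy.1
  rw [mem_Icc]
  omega

theorem h_compl {n : ℕ} (q : Finset ℕ) {y : ℕ} (hy : y ≤ n) :
    T.h (Icc 1 n \ q) y = - T.h q y := by
  unfold h
  rw [← sum_neg_distrib]
  apply sum_congr rfl
  intro e he
  have := T.A_subset y he
  rw [mem_Icc] at this
  have h1 : e ∈ Icc 1 n := mem_Icc.2 ⟨this.1, by omega⟩
  by_cases h2 : e ∈ q <;> simp [h2, mem_sdiff, h1]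

theorem h_le_Mx {n : ℕ} (q : Finset ℕ) {y : ℕ} (hy : y ≤ n) :
    T.h q y ≤ T.Mx (Icc 1 n) 0 q := by
  have := T.le_Mx (J := Icc 1 n) (r := 0) (q := q) (y := y) (by
    rw [mem_insert, mem_Icc]; omega)
  rw [T.h_zero] at this
  omega

theorem exists_Mx' (n : ℕ) (q : Finset ℕ) : ∃ y ≤ n, T.Mx (Icc 1 n) 0 q = T.h q y := by
  obtain ⟨y, hy, hy'⟩ := T.exists_Mx (Icc 1 n) 0 q
  rw [T.h_zero, sub_zero] at hy'
  refine ⟨y, ?_, hy'⟩
  rw [mem_insert, mem_Icc] at hy
  omega

theorem cv_eq (n : ℕ) (q : Finset ℕ) :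
    (T.cv n q : ℤ) = T.Mx (Icc 1 n) 0 q + T.Mx (Icc 1 n) 0 (Icc 1 n \ q) + 1 := by
  have himg : (range (n + 1)).image (T.h q) =
      Icc (-T.Mx (Icc 1 n) 0 (Icc 1 n \ q)) (T.Mx (Icc 1 n) 0 q) := by
    ext v
    rw [mem_image, mem_Icc]
    constructor
    · rintro ⟨y, hy, rfl⟩
      rw [mem_range] at hy
      have h1 := T.h_le_Mx (n := n) q (y := y) (by omega)
      have h2 := T.h_le_Mx (n := n) (Icc 1 n \ q) (y := y) (by omega)
      rw [T.h_compl q (by omega)] at h2
      omega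
    · rintro ⟨h1, h2⟩
      rcases le_or_gt 0 v with hv | hv
      · obtain ⟨y, hy, hy'⟩ := T.exists_Mx' n q
        obtain ⟨z, hz, hzv⟩ := T.ivt q y v (Or.inl ⟨hv, by omega⟩)
        exact ⟨z, mem_range.2 (by omega), hzv⟩
      · obtain ⟨y, hy, hy'⟩ := T.exists_Mx' n (Icc 1 n \ q)
        rw [T.h_compl q hy] at hy'
        obtain ⟨z, hz, hzv⟩ := T.ivt q y v (Or.inr ⟨by omega, by omega⟩)
        exact ⟨z, mem_range.2 (by omega), hzv⟩
  have h1 := T.Mx_nonneg (Icc 1 n) 0 q
  have h2 := T.Mx_nonneg (Icc 1 n) 0 (Icc 1 n \ q)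
  unfold cv
  rw [himg, Int.card_Icc]
  omega

theorem sum_cv (n : ℕ) : ∑ q ∈ (Icc 1 n).powerset, (T.cv n q : ℤ) =
    2 * ∑ q ∈ (Icc 1 n).powerset, T.Mx (Icc 1 n) 0 q + 2 ^ n := by
  have h1 : ∑ q ∈ (Icc 1 n).powerset, T.Mx (Icc 1 n) 0 (Icc 1 n \ q) =
      ∑ q ∈ (Icc 1 n).powerset, T.Mx (Icc 1 n) 0 q := by
    apply sum_nbij' (fun q => Icc 1 n \ q) (fun q => Icc 1 n \ q)
    · intro q _
      rw [mem_powerset]
      exact sdiff_subset
    · intro q _
      rw [mem_powerset]
      exact sdiff_subset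
    · intro q hq
      rw [mem_powerset] at hq
      exact Finset.sdiff_sdiff_eq_self hq
    · intro q hq
      rw [mem_powerset] at hq
      exact Finset.sdiff_sdiff_eq_self hq
    · intro q _
      rfl
  simp only [T.cv_eq, sum_add_distrib, h1, sum_const, card_powerset, Nat.card_Icc,
    Nat.add_sub_cancel]
  simp
  ring

/-- The free walk on the tree has on average at most as many values as the walk on the path. -/
theorem sum_cv_le (n : ℕ) : ∑ q ∈ (Icc 1 n).powerset, (T.cv n q : ℤ) ≤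
    ∑ q ∈ (Icc 1 n).powerset, (pathT.cv n q : ℤ) := by
  rw [T.sum_cv, pathT.sum_cv]
  have h1 := T.sum_max_le n (Icc 1 n) 0 (by simp) (T.closed_Icc n) 0
  have h2 := path_sum n (fun a => max 0 a) 0
  have h3 : Icc (0 + 1) (0 + n) = Icc 1 n := by simp
  rw [h3] at h2
  rw [Nat.card_Icc, Nat.add_sub_cancel, ← h2] at h1
  have h4 : ∑ q ∈ (Icc 1 n).powerset, max 0 (T.Mx (Icc 1 n) 0 q) =
      ∑ q ∈ (Icc 1 n).powerset, T.Mx (Icc 1 n) 0 q :=
    sum_congr rfl fun q _ => max_eq_right (T.Mx_nonneg _ _ _)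
  have h5 : ∑ q ∈ (Icc 1 n).powerset, max 0 (pathT.Mx (Icc 1 n) 0 q) =
      ∑ q ∈ (Icc 1 n).powerset, pathT.Mx (Icc 1 n) 0 q :=
    sum_congr rfl fun q _ => max_eq_right (pathT.Mx_nonneg _ _ _)
  rw [h4, h5] at h1
  linarith

/-- admissible extra relations between vertices -/
def Adm (R : ℕ → ℕ → Prop) : Prop :=
  (∀ y z, R y z → R z y) ∧ ∀ y z, R y z → ¬ (2 : ℤ) ∣ (T.A y).card + (T.A z).card

/-- walks making unit steps along the relation -/
noncomputable def HH (n : ℕ) (R : ℕ → ℕ → Prop) : Finset (Finset ℕ) := by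
  classical exact (Icc 1 n).powerset.filter fun q =>
    ∀ y ≤ n, ∀ z ≤ n, R y z → |T.h q y - T.h q z| = 1

theorem mem_HH {n : ℕ} {R : ℕ → ℕ → Prop} {q : Finset ℕ} :
    q ∈ T.HH n R ↔ q ⊆ Icc 1 n ∧ ∀ y ≤ n, ∀ z ≤ n, R y z → |T.h q y - T.h q z| = 1 := by
  classical
  simp [HH]

/-- bounds encoding the relation -/
noncomputable def mR (R : ℕ → ℕ → Prop) (y z : ℕ) : ℤ := by
  classical exact if R y z then 1 else (T.A y).card + (T.A z).card

/-- bounds encoding that all height differences are at most `k` -/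
def mKb (k : ℕ) (y z : ℕ) : ℤ :=
  if (2 : ℤ) ∣ (k : ℤ) - (T.A y).card - (T.A z).card then k else k - 1

theorem mR_good {R : ℕ → ℕ → Prop} (hR : T.Adm R) : T.Good (T.mR R) := by
  classical
  constructor
  · intro y z
    unfold mR
    by_cases h : R y z
    · rw [if_pos h, if_pos (hR.1 _ _ h)]
    · rw [if_neg h, if_neg fun h' => h (hR.1 _ _ h'), add_comm]
  · intro y z
    unfold mR
    by_cases h : R y z
    · have := hR.2 y z h
      rw [if_pos h]
      omega
    · rw [if_neg h]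
      omega

theorem mKb_good (k : ℕ) : T.Good (T.mKb k) := by
  constructor
  · intro y z
    unfold mKb
    have : (k : ℤ) - (T.A y).card - (T.A z).card = (k : ℤ) - (T.A z).card - (T.A y).card := by ring
    rw [this]
  · intro y z
    unfold mKb
    split_ifs with h
    · exact h
    · omega

theorem mem_S_mR {n : ℕ} {R : ℕ → ℕ → Prop} (hR : T.Adm R) {q : Finset ℕ} :
    q ∈ T.S n (T.mR R) ↔ q ∈ T.HH n R := by
  classical
  rw [mem_S, mem_HH]
  refine and_congr_right fun _ => forall₂_congr fun y _ => forall₂_congr fun z _ => ?_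
  unfold mR
  by_cases h : R y z
  · rw [if_pos h]
    have h1 := T.h_parity q y
    have h2 := T.h_parity q z
    have h3 := hR.2 y z h
    constructor
    · intro h4 _
      rw [abs_le] at h4
      have h5 : T.h q y - T.h q z = 1 ∨ T.h q y - T.h q z = -1 := by omega
      rcases h5 with h5 | h5 <;> rw [h5] <;> rfl
    · intro h4
      rw [h4 h]
  · rw [if_neg h]
    constructor
    · intro _ h'
      exact absurd h' h
    · intro _
      have h1 := T.abs_h_le q y
      have h2 := T.abs_h_le q z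
      rw [abs_le] at h1 h2 ⊢
      constructor <;> omega

theorem mem_S_mKb {n k : ℕ} {q : Finset ℕ} :
    q ∈ T.S n (T.mKb k) ↔ q ⊆ Icc 1 n ∧ T.cv n q ≤ k + 1 := by
  rw [mem_S]
  refine and_congr_right fun _ => ?_
  constructor
  · intro h
    obtain ⟨y, hy, hy'⟩ := T.exists_Mx' n q
    obtain ⟨z, hz, hz'⟩ := T.exists_Mx' n (Icc 1 n \ q)
    rw [T.h_compl q hz] at hz'
    have h1 := T.cv_eq n q
    have h2 := h y hy z hz
    have h3 : T.mKb k y z ≤ k := by
      unfold mKb
      split_ifs <;> omega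
    rw [abs_le] at h2
    omega
  · intro h y hy z hz
    have h1 := T.cv_eq n q
    have h2 := T.h_le_Mx (n := n) q hy
    have h3 := T.h_le_Mx (n := n) q hz
    have h4 := T.h_le_Mx (n := n) (Icc 1 n \ q) hy
    have h5 := T.h_le_Mx (n := n) (Icc 1 n \ q) hz
    rw [T.h_compl q hy] at h4
    rw [T.h_compl q hz] at h5
    have h6 := T.h_parity q y
    have h7 := T.h_parity q z
    rw [abs_le]
    unfold mKb
    split_ifs with h8 <;> constructor <;> omega

theorem cv_count {n : ℕ} (q : Finset ℕ) :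
    (T.cv n q : ℤ) = (n + 1) - ∑ k ∈ range n, if T.cv n q ≤ k + 1 then (1 : ℤ) else 0 := by
  have h1 : T.cv n q ≤ n + 1 := by
    have := card_image_le (s := range (n + 1)) (f := T.h q)
    rwa [card_range] at this
  have h2 : 1 ≤ T.cv n q := by
    have h3 := T.cv_eq n q
    have h4 := T.Mx_nonneg (Icc 1 n) 0 q
    have h5 := T.Mx_nonneg (Icc 1 n) 0 (Icc 1 n \ q)
    omega
  generalize T.cv n q = c at h1 h2
  have h3 : (range n).filter (fun k => c ≤ k + 1) = Ico (c - 1) n := by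
    ext k
    simp only [mem_filter, mem_range, mem_Ico]
    omega
  rw [← sum_filter, h3, sum_const, Nat.card_Ico]
  simp only [nsmul_eq_mul, mul_one]
  omega

/-- The constrained walk has on average at most as many values as the free walk on the tree. -/
theorem constrained_le (n : ℕ) {R : ℕ → ℕ → Prop} (hR : T.Adm R) :
    2 ^ n * ∑ q ∈ T.HH n R, (T.cv n q : ℤ) ≤
      (T.HH n R).card * ∑ q ∈ (Icc 1 n).powerset, (T.cv n q : ℤ) := by
  classical
  have hg : ∀ k : ℕ, (((Icc 1 n).powerset.filter fun q => T.cv n q ≤ k + 1).card : ℤ) *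
      (T.HH n R).card ≤ 2 ^ n * ((T.HH n R).filter fun q => T.cv n q ≤ k + 1).card := by
    intro k
    have h1 := T.gci n (T.mKb_good k) (T.mR_good hR)
    have e1 : T.S n (T.mKb k) = (Icc 1 n).powerset.filter fun q => T.cv n q ≤ k + 1 := by
      ext q
      rw [T.mem_S_mKb, mem_filter, mem_powerset]
    have e2 : T.S n (T.mR R) = T.HH n R := by
      ext q
      exact T.mem_S_mR hR
    have e3 : T.S n (fun y z => min (T.mKb k y z) (T.mR R y z)) =
        (T.HH n R).filter fun q => T.cv n q ≤ k + 1 := by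
      ext q
      rw [mem_filter, ← T.mem_S_mR hR]
      have h3 := T.mem_S_mKb (n := n) (k := k) (q := q)
      constructor
      · intro h
        rw [mem_S] at h
        have h4 : q ∈ T.S n (T.mR R) := by
          rw [mem_S]
          exact ⟨h.1, fun y hy z hz => (h.2 y hy z hz).trans (min_le_right _ _)⟩
        have h5 : q ∈ T.S n (T.mKb k) := by
          rw [mem_S]
          exact ⟨h.1, fun y hy z hz => (h.2 y hy z hz).trans (min_le_left _ _)⟩
        exact ⟨h4, (h3.1 h5).2⟩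
      · rintro ⟨h4, h5⟩
        have h6 : q ∈ T.S n (T.mKb k) := h3.2 ⟨(T.mem_S.1 h4).1, h5⟩
        rw [mem_S] at h4 h6 ⊢
        exact ⟨h4.1, fun y hy z hz => le_min (h6.2 y hy z hz) (h4.2 y hy z hz)⟩
    rw [e1, e2, e3] at h1
    exact_mod_cast h1
  have hsum : ∀ s : Finset (Finset ℕ), ∑ q ∈ s, (T.cv n q : ℤ) =
      s.card * (n + 1) - ∑ k ∈ range n, ((s.filter fun q => T.cv n q ≤ k + 1).card : ℤ) := by
    intro s
    have e1 : ∑ q ∈ s, ∑ k ∈ range n, (if T.cv n q ≤ k + 1 then (1 : ℤ) else 0) =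
        ∑ k ∈ range n, ((s.filter fun q => T.cv n q ≤ k + 1).card : ℤ) := by
      rw [sum_comm]
      apply sum_congr rfl
      intro k _
      rw [card_filter]
      push_cast
      rfl
    rw [sum_congr rfl fun q _ => T.cv_count q, sum_sub_distrib, sum_const, e1]
    simp
  rw [hsum, hsum, card_powerset, Nat.card_Icc, Nat.add_sub_cancel, mul_sub, mul_sub, mul_sum,
    mul_sum]
  have h1 : ∑ k ∈ range n, ((T.HH n R).card : ℤ) *
      ((Icc 1 n).powerset.filter fun q => T.cv n q ≤ k + 1).card ≤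
      ∑ k ∈ range n, 2 ^ n * (((T.HH n R).filter fun q => T.cv n q ≤ k + 1).card : ℤ) := by
    apply sum_le_sum
    intro k _
    rw [mul_comm]
    exact hg k
  push_cast
  linarith

/-- Final comparison with the path. -/
theorem avg_le (n : ℕ) {R : ℕ → ℕ → Prop} (hR : T.Adm R) :
    2 ^ n * ∑ q ∈ T.HH n R, (T.cv n q : ℤ) ≤
      (T.HH n R).card * ∑ q ∈ (Icc 1 n).powerset, (pathT.cv n q : ℤ) :=
  (T.constrained_le n hR).trans (mul_le_mul_of_nonneg_left (T.sum_cv_le n) (by positivity))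

end RTree

end Pool.Agent.W113.Range
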