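import Pool.Agent.W113.Tree

set_option autoImplicit false

/-!
The number of points of `S n m` is at most the dimension of `KK n m`.
-/

namespace Pool.Agent.W113.Range

open Finset

/-- the indicator of containing `W` -/
def chi (W : Finset ℕ) : Fn := fun q => if W ⊆ q then 1 else 0

theorem chi_empty : chi ∅ = fun _ => 1 := by
  funext q
  simp [chi]

/-- lower order terms -/
def LO (E : Finset ℕ) (k : ℕ) : Submodule (ZMod 2) Fn :=
  Submodule.span (ZMod 2) {g | ∃ W, W ⊆ E ∧ W.card < k ∧ g = chi W}

theorem LO_mono {E E' : Finset ℕ} (h : E ⊆ E') (k : ℕ) : LO E k ≤ LO E' k := by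
  apply Submodule.span_mono
  rintro _ ⟨W, hW, hk, rfl⟩
  exact ⟨W, hW.trans h, hk, rfl⟩

theorem LO_mul {E : Finset ℕ} {e : ℕ} {k : ℕ} {g : Fn} (hg : g ∈ LO E k) :
    (fun q => chi {e} q * g q) ∈ LO (insert e E) (k + 1) := by
  induction hg using Submodule.span_induction with
  | mem g h =>
    obtain ⟨W, hW, hk, rfl⟩ := h
    apply Submodule.subset_span
    refine ⟨insert e W, insert_subset_insert _ hW, ?_, ?_⟩
    · exact lt_of_le_of_lt (card_insert_le _ _) (by omega)
    · funext q
      simp only [chi, singleton_subset_iff, insert_subset_iff]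
      by_cases h1 : e ∈ q <;> by_cases h2 : W ⊆ q <;> simp [h1, h2]
  | zero =>
    have : (fun q => chi {e} q * (0 : Fn) q) = 0 := by
      funext q; simp
    rw [this]
    exact Submodule.zero_mem _
  | add x y _ _ hx hy =>
    have : (fun q => chi {e} q * (x + y) q) =
        (fun q => chi {e} q * x q) + fun q => chi {e} q * y q := by
      funext q; simp [mul_add]
    rw [this]
    exact Submodule.add_mem _ hx hy
  | smul c x _ hx =>
    have : (fun q => chi {e} q * (c • x) q) = c • fun q => chi {e} q * x q := by
      funext q
      simp only [Pi.smul_apply, smul_eq_mul]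
      ring
    rw [this]
    exact Submodule.smul_mem _ _ hx

/-- `c` plus the signed sum over `E` of the coordinates -/
def aff (c : ℤ) (σ : ℕ → ℤ) (E q : Finset ℕ) : ℤ := c + ∑ e ∈ E, if e ∈ q then σ e else 0

theorem choose_pred (y : ℤ) (k : ℕ) :
    Ring.choose (y - 1) (k + 1) = Ring.choose y (k + 1) - Ring.choose (y - 1) k := by
  have := Ring.choose_succ_succ (y - 1) k
  rw [sub_add_cancel] at this
  rw [this]
  ring

/-- Binomial coefficients of signed sums modulo two, up to lower order terms. -/
theorem choose_aff (σ : ℕ → ℤ) (hσ : ∀ e, σ e = 1 ∨ σ e = -1) (E : Finset ℕ) :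
    ∀ (k : ℕ) (c : ℤ), (fun q => ((Ring.choose (aff c σ E q) k : ℤ) : ZMod 2)) -
      ∑ W ∈ E.powersetCard k, chi W ∈ LO E k := by
  induction E using Finset.induction_on with
  | empty =>
    intro k c
    cases k with
    | zero =>
      have : (fun q => ((Ring.choose (aff c σ ∅ q) 0 : ℤ) : ZMod 2)) -
          ∑ W ∈ (∅ : Finset ℕ).powersetCard 0, chi W = 0 := by
        funext q
        simp [chi]
      rw [this]
      exact Submodule.zero_mem _
    | succ k =>
      have h0 : powersetCard (k + 1) (∅ : Finset ℕ) = ∅ := by
        rw [powersetCard_eq_empty]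
        simp
      rw [h0, sum_empty, sub_zero]
      have h1 : (fun q => ((Ring.choose (aff c σ ∅ q) (k + 1) : ℤ) : ZMod 2)) =
          ((Ring.choose c (k + 1) : ℤ) : ZMod 2) • chi ∅ := by
        funext q
        simp [chi, aff]
      rw [h1]
      apply Submodule.smul_mem
      apply Submodule.subset_span
      exact ⟨∅, subset_rfl, by simp, rfl⟩
  | insert e E he ih =>
    intro k c
    cases k with
    | zero =>
      have : (fun q => ((Ring.choose (aff c σ (insert e E) q) 0 : ℤ) : ZMod 2)) -
          ∑ W ∈ (insert e E).powersetCard 0, chi W = 0 := by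
        funext q
        simp [chi]
      rw [this]
      exact Submodule.zero_mem _
    | succ k =>
      have haff : ∀ q, aff c σ (insert e E) q = aff c σ E q + if e ∈ q then σ e else 0 := by
        intro q
        unfold aff
        rw [sum_insert he]
        ring
      have hchi : ∑ W ∈ (insert e E).powersetCard (k + 1), chi W =
          ∑ W ∈ E.powersetCard (k + 1), chi W + fun q => chi {e} q *
            (∑ W ∈ E.powersetCard k, chi W) q := by
        have hinj : ∀ W ∈ powersetCard k E, e ∉ W := by
          intro W hW hmem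
          exact he ((mem_powersetCard.1 hW).1 hmem)
        rw [powersetCard_succ_insert he, sum_union]
        · congr 1
          rw [sum_image]
          · funext q
            rw [Finset.sum_apply, Finset.sum_apply, mul_sum]
            apply sum_congr rfl
            intro W _
            simp only [chi, singleton_subset_iff, insert_subset_iff]
            by_cases h1 : e ∈ q <;> by_cases h2 : W ⊆ q <;> simp [h1, h2]
          · intro W hW W' hW' hEq
            have := congrArg (fun s => s.erase e) hEq
            simpa [erase_insert (hinj W hW), erase_insert (hinj W' hW')] using this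
        · rw [disjoint_left]
          intro W hW hW'
          rw [mem_image] at hW'
          obtain ⟨W', _, rfl⟩ := hW'
          exact he ((mem_powersetCard.1 hW).1 (mem_insert_self _ _))
      -- the shift used on points containing `e`
      obtain ⟨c', hc'⟩ : ∃ c' : ℤ, ∀ q, ((Ring.choose (aff c σ (insert e E) q) (k + 1) : ℤ) : ZMod 2)
          = ((Ring.choose (aff c σ E q) (k + 1) : ℤ) : ZMod 2) +
            chi {e} q * ((Ring.choose (aff c' σ E q) k : ℤ) : ZMod 2) := by
        rcases hσ e with h | h
        · refine ⟨c, fun q => ?_⟩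
          rw [haff, h]
          simp only [chi, singleton_subset_iff]
          by_cases hq : e ∈ q
          · rw [if_pos hq, if_pos hq, Ring.choose_succ_succ]
            push_cast
            ring
          · rw [if_neg hq, if_neg hq]
            simp
        · refine ⟨c - 1, fun q => ?_⟩
          rw [haff, h]
          simp only [chi, singleton_subset_iff]
          by_cases hq : e ∈ q
          · have h3 : aff (c - 1) σ E q = aff c σ E q - 1 := by
              unfold aff; ring
            rw [if_pos hq, if_pos hq, ← sub_eq_add_neg, choose_pred, h3]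
            push_cast
            rw [one_mul, CharTwo.sub_eq_add]
          · rw [if_neg hq, if_neg hq]
            simp
      have h1 := LO_mono (subset_insert e E) (k + 1) (ih (k + 1) c)
      have h2 := LO_mul (e := e) (ih k c')
      have h3 := Submodule.add_mem _ h1 h2
      rw [hchi]
      convert h3 using 1
      funext q
      simp only [Pi.sub_apply, Pi.add_apply, hc' q]
      ring

namespace RTree

variable (T : RTree)

/-- the sign of an edge in the difference of heights -/
def sgn (y e : ℕ) : ℤ := if e ∈ T.A y then 1 else -1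

theorem sgn_or (y e : ℕ) : T.sgn y e = 1 ∨ T.sgn y e = -1 := by
  unfold sgn
  split_ifs <;> simp

theorem h_sub (q : Finset ℕ) (y z : ℕ) : T.h q y - T.h q z =
    ∑ e ∈ symmDiff (T.A y) (T.A z), T.sgn y e * (if e ∈ q then 1 else -1) := by
  have h1 := sum_inter_add_sum_sdiff (T.A y) (T.A z) (fun e => if e ∈ q then (1 : ℤ) else -1)
  have h2 := sum_inter_add_sum_sdiff (T.A z) (T.A y) (fun e => if e ∈ q then (1 : ℤ) else -1)
  have h3 : symmDiff (T.A y) (T.A z) = (T.A y \ T.A z) ∪ (T.A z \ T.A y) := rfl
  have h4 : Disjoint (T.A y \ T.A z) (T.A z \ T.A y) := by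
    rw [disjoint_left]
    intro e he he'
    rw [mem_sdiff] at he he'
    exact he.2 he'.1
  rw [h3, sum_union h4]
  have h5 : ∑ e ∈ T.A y \ T.A z, T.sgn y e * (if e ∈ q then 1 else -1) =
      ∑ e ∈ T.A y \ T.A z, (if e ∈ q then (1 : ℤ) else -1) := by
    apply sum_congr rfl
    intro e he
    rw [sgn, if_pos (mem_sdiff.1 he).1, one_mul]
  have h6 : ∑ e ∈ T.A z \ T.A y, T.sgn y e * (if e ∈ q then 1 else -1) =
      - ∑ e ∈ T.A z \ T.A y, (if e ∈ q then (1 : ℤ) else -1) := by
    rw [← sum_neg_distrib]
    apply sum_congr rfl
    intro e he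
    rw [sgn, if_neg (mem_sdiff.1 he).2, neg_one_mul]
  rw [h5, h6]
  unfold h
  rw [← h1, ← h2, inter_comm]
  ring

theorem sgn_parity (y z : ℕ) : (2 : ℤ) ∣ (∑ e ∈ symmDiff (T.A y) (T.A z), T.sgn y e) -
    (T.A y).card - (T.A z).card := by
  have h1 := T.h_sub (Icc 1 (max y z)) y z
  have h2 := T.h_parity (Icc 1 (max y z)) y
  have h3 := T.h_parity (Icc 1 (max y z)) z
  have h4 : ∑ e ∈ symmDiff (T.A y) (T.A z), T.sgn y e * (if e ∈ Icc 1 (max y z) then 1 else -1) =
      ∑ e ∈ symmDiff (T.A y) (T.A z), T.sgn y e := by
    apply sum_congr rfl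
    intro e he
    rw [if_pos, mul_one]
    rw [mem_symmDiff] at he
    rcases he with ⟨he, _⟩ | ⟨he, _⟩
    · have := T.A_subset _ he
      rw [mem_Icc] at this ⊢
      have := le_max_left y z
      omega
    · have := T.A_subset _ he
      rw [mem_Icc] at this ⊢
      have := le_max_right y z
      omega
  rw [h4] at h1
  omega

/-- On points containing `X`, half the shifted height difference is an affine function of the
coordinates outside of `X`. -/
theorem h_aff {m : ℕ → ℕ → ℤ} (hm : T.Good m) (y z : ℕ) (X : Finset ℕ) :
    ∃ c : ℤ, ∀ q, X ⊆ q → 2 * aff c (T.sgn y) (symmDiff (T.A y) (T.A z) \ X) q =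
      T.h q y - T.h q z + m y z := by
  set E := symmDiff (T.A y) (T.A z) with hE
  have h1 := T.sgn_parity y z
  have h2 := hm.2 y z
  rw [← hE] at h1
  obtain ⟨c0, hc0⟩ : (2 : ℤ) ∣ m y z - ∑ e ∈ E, T.sgn y e := by omega
  refine ⟨c0 + ∑ e ∈ E ∩ X, T.sgn y e, fun q hq => ?_⟩
  have h3 : ∑ e ∈ E ∩ X, T.sgn y e = ∑ e ∈ E ∩ X, if e ∈ q then T.sgn y e else 0 := by
    apply sum_congr rfl
    intro e he
    rw [if_pos (hq (mem_inter.1 he).2)]
  have h4 := sum_inter_add_sum_sdiff E X (fun e => if e ∈ q then T.sgn y e else 0)
  have h5 : T.h q y - T.h q z = 2 * (∑ e ∈ E, if e ∈ q then T.sgn y e else 0) -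
      ∑ e ∈ E, T.sgn y e := by
    rw [T.h_sub, ← hE, mul_sum, ← sum_sub_distrib]
    apply sum_congr rfl
    intro e _
    by_cases he : e ∈ q
    · simp only [if_pos he]; ring
    · simp only [if_neg he]; ring
  unfold aff
  rw [h3, add_assoc, h4, h5]
  linarith

end RTree

/-- combination of the indicators of subsets of points in `S` -/
def Dmap (S : Finset (Finset ℕ)) : (S → ZMod 2) →ₗ[ZMod 2] Fn where
  toFun c := fun U => ∑ q : S, c q * chi U q.1
  map_add' c c' := by
    funext U
    simp [add_mul, sum_add_distrib]
  map_smul' a c := by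
    funext U
    simp [mul_sum, mul_assoc]

theorem Dmap_apply (S : Finset (Finset ℕ)) (c : S → ZMod 2) (U : Finset ℕ) :
    Dmap S c U = ∑ q : S, c q * chi U q.1 := rfl

theorem Dmap_injective (S : Finset (Finset ℕ)) : Function.Injective (Dmap S) := by
  classical
  rw [← LinearMap.ker_eq_bot, LinearMap.ker_eq_bot']
  intro c hc
  by_contra hne
  have hne' : ∃ q, c q ≠ 0 := by
    by_contra h
    push Not at h
    exact hne (funext h)
  obtain ⟨q0, hq0, hmax⟩ := exists_max_image (univ.filter fun q : S => c q ≠ 0)
    (fun q => q.1.card) (by obtain ⟨q, hq⟩ := hne'; exact ⟨q, by simp [hq]⟩)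
  rw [mem_filter] at hq0
  apply hq0.2
  have h1 := congrFun hc q0.1
  rw [Dmap_apply, sum_eq_single q0] at h1
  · simpa [chi] using h1
  · intro q _ hqq
    by_cases hcq : c q = 0
    · rw [hcq, zero_mul]
    · have h2 := hmax q (by simp [hcq])
      rw [chi, if_neg, mul_zero]
      intro hsub
      apply hqq
      apply Subtype.ext
      exact (eq_of_subset_of_card_le hsub h2).symm
  · intro h
    exact absurd (mem_univ _) h

/-- functions vanishing on sets of size less than `d` -/
def Fil (d : ℕ) : Submodule (ZMod 2) Fn where
  carrier := {F | ∀ U : Finset ℕ, U.card < d → F U = 0}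
  zero_mem' := fun U _ => rfl
  add_mem' := by
    intro F G hF hG U hU
    simp [hF U hU, hG U hU]
  smul_mem' := by
    intro c F hF U hU
    simp [hF U hU]

/-- the part of degree `d` -/
def piD (d : ℕ) : Fn →ₗ[ZMod 2] Fn where
  toFun F := fun U => if U.card = d then F U else 0
  map_add' F G := by
    funext U
    by_cases h : U.card = d <;> simp [h]
  map_smul' c F := by
    funext U
    by_cases h : U.card = d <;> simp [h]

theorem piD_apply (d : ℕ) (F : Fn) (U : Finset ℕ) : piD d F U = if U.card = d then F U else 0 := rfl

/-- Comparison of dimensions through lowest degree parts. -/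
theorem finrank_le_of_lowest {N : Finset ℕ} {A B : Submodule (ZMod 2) Fn} (hA : A ≤ Supp N)
    (hB : B ≤ Supp N) (h : ∀ d, ∀ F ∈ A, F ∈ Fil d → piD d F ∈ B) :
    Module.finrank (ZMod 2) A ≤ Module.finrank (ZMod 2) B := by
  have key : ∀ j d : ℕ, d + j = N.card + 1 →
      Module.finrank (ZMod 2) (A ⊓ Fil d : Submodule (ZMod 2) Fn) ≤
        Module.finrank (ZMod 2) (B ⊓ Fil d : Submodule (ZMod 2) Fn) := by
    intro j
    induction j with
    | zero =>
      intro d hd
      have : A ⊓ Fil d = ⊥ := by
        rw [eq_bot_iff]
        rintro F ⟨hF1, hF2⟩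
        rw [Submodule.mem_bot]
        funext U
        by_cases hU : U ⊆ N
        · apply hF2
          have := card_le_card hU
          omega
        · exact hA hF1 U hU
      rw [this, finrank_bot]
      exact Nat.zero_le _
    | succ j ih =>
      intro d hd
      have hih := ih (d + 1) (by omega)
      have fin : ∀ C : Submodule (ZMod 2) Fn, C ≤ Supp N → FiniteDimensional (ZMod 2) C :=
        fun C hC => Submodule.finiteDimensional_of_le hC
      have f1 := fin (A ⊓ Fil d) (inf_le_left.trans hA)
      have f2 := fin (B ⊓ Fil d) (inf_le_left.trans hB)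
      have f3 := fin (B ⊓ Fil (d + 1)) (inf_le_left.trans hB)
      have f5 := fin (A ⊓ Fil (d + 1)) (inf_le_left.trans hA)
      set f : (A ⊓ Fil d : Submodule (ZMod 2) Fn) →ₗ[ZMod 2] Fn :=
        (piD d).comp (A ⊓ Fil d : Submodule (ZMod 2) Fn).subtype with hf
      have hrange : LinearMap.range f ≤ B := by
        rintro _ ⟨F, rfl⟩
        exact h d F.1 F.2.1 F.2.2
      have hrange2 : LinearMap.range f ≤ Fil d := by
        rintro _ ⟨F, rfl⟩ U hU
        change (if U.card = d then F.1 U else 0) = 0
        rw [if_neg (by omega)]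
      have f4 := fin (LinearMap.range f) (hrange.trans hB)
      have hinf : LinearMap.range f ⊓ (B ⊓ Fil (d + 1)) = ⊥ := by
        rw [eq_bot_iff]
        rintro _ ⟨⟨F, rfl⟩, _, h2⟩
        rw [Submodule.mem_bot]
        funext U
        by_cases hU : U.card = d
        · exact h2 U (by omega)
        · change (if U.card = d then F.1 U else 0) = 0
          rw [if_neg hU]
      have hker : Module.finrank (ZMod 2) (LinearMap.ker f) ≤
          Module.finrank (ZMod 2) (A ⊓ Fil (d + 1) : Submodule (ZMod 2) Fn) := by
        let g : LinearMap.ker f →ₗ[ZMod 2] (A ⊓ Fil (d + 1) : Submodule (ZMod 2) Fn) :=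
          LinearMap.codRestrict _ ((A ⊓ Fil d : Submodule (ZMod 2) Fn).subtype.comp
            (LinearMap.ker f).subtype) (by
            intro F
            refine ⟨F.1.2.1, fun U hU => ?_⟩
            have h1 : f F.1 = 0 := LinearMap.mem_ker.1 F.2
            rcases Nat.lt_or_ge U.card d with h2 | h2
            · exact F.1.2.2 U h2
            · have h3 : U.card = d := by omega
              have h4 := congrFun h1 U
              change (if U.card = d then F.1.1 U else 0) = 0 at h4
              rw [if_pos h3] at h4
              exact h4)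
        apply LinearMap.finrank_le_finrank_of_injective (f := g)
        intro v w hvw
        apply Subtype.ext
        apply Subtype.ext
        have h5 : (g v).1 = (g w).1 := by rw [hvw]
        exact h5
      have hsup := Submodule.finrank_sup_add_finrank_inf_eq (LinearMap.range f) (B ⊓ Fil (d + 1))
      rw [hinf, finrank_bot, add_zero] at hsup
      have hle : LinearMap.range f ⊔ (B ⊓ Fil (d + 1)) ≤ B ⊓ Fil d := by
        apply sup_le (le_inf hrange hrange2)
        apply inf_le_inf_left
        intro F hF U hU
        exact hF U (by omega)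
      have hmono := Submodule.finrank_mono hle
      rw [← LinearMap.finrank_range_add_finrank_ker f]
      omega
  have h0 := key (N.card + 1) 0 (by omega)
  have hFil : Fil 0 = ⊤ := by
    rw [eq_top_iff]
    intro F _ U hU
    omega
  rwa [hFil, inf_top_eq, inf_top_eq] at h0

namespace RTree

variable (T : RTree)

theorem lowest_mem {n : ℕ} {m : ℕ → ℕ → ℤ} (hm : T.Good m) (c : T.S n m → ZMod 2) {d : ℕ}
    (hd : Dmap (T.S n m) c ∈ Fil d) : piD d (Dmap (T.S n m) c) ∈ T.KK n m := by
  set F := Dmap (T.S n m) c with hF
  refine ⟨fun U hU => ?_, fun y hy z hz k hk => ?_⟩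
  · rw [piD_apply]
    split_ifs
    · rw [hF, Dmap_apply]
      apply sum_eq_zero
      intro q _
      rw [chi, if_neg, mul_zero]
      intro h
      exact hU (h.trans (T.mem_S.1 q.2).1)
    · rfl
  · funext X
    rw [D_apply]
    set E := symmDiff (T.A y) (T.A z) with hE
    change ∑ W ∈ powersetCard k E, dW W (piD d F) X = 0
    by_cases hX : X.card + k = d
    · -- main case
      obtain ⟨a, ha⟩ := T.h_aff hm y z X
      rw [← hE] at ha
      have hbin := choose_aff (T.sgn y) (T.sgn_or y) (E \ X) k a
      -- pairing with functions of the point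
      have hpair : ∀ g ∈ LO (E \ X) k, ∑ q : T.S n m, c q * chi X q.1 * g q.1 = 0 := by
        intro g hg
        induction hg using Submodule.span_induction with
        | mem g h =>
          obtain ⟨W, hW, hWk, rfl⟩ := h
          have h1 := hd (X ∪ W) (lt_of_le_of_lt (card_union_le _ _) (by omega))
          rw [hF, Dmap_apply] at h1
          rw [← h1]
          apply sum_congr rfl
          intro q _
          rw [mul_assoc]
          congr 1
          simp only [chi, union_subset_iff]
          by_cases h1 : X ⊆ q.1 <;> by_cases h2 : W ⊆ q.1 <;> simp [h1, h2]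
        | zero => simp
        | add x y _ _ hx hy =>
          have : ∑ q : T.S n m, c q * chi X q.1 * (x + y) q.1 =
              ∑ q : T.S n m, c q * chi X q.1 * x q.1 + ∑ q : T.S n m, c q * chi X q.1 * y q.1 := by
            rw [← sum_add_distrib]
            apply sum_congr rfl
            intro q _
            rw [Pi.add_apply, mul_add]
          rw [this, hx, hy, add_zero]
        | smul b x _ hx =>
          have : ∑ q : T.S n m, c q * chi X q.1 * (b • x) q.1 =
              b * ∑ q : T.S n m, c q * chi X q.1 * x q.1 := by
            rw [mul_sum]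
            apply sum_congr rfl
            intro q _
            simp only [Pi.smul_apply, smul_eq_mul]
            ring
          rw [this, hx, mul_zero]
      have h1 := hpair _ hbin
      have h2 : ∀ q : T.S n m, c q * chi X q.1 *
          ((fun q => ((Ring.choose (aff a (T.sgn y) (E \ X) q) k : ℤ) : ZMod 2)) -
            ∑ W ∈ (E \ X).powersetCard k, chi W) q.1 =
          - ∑ W ∈ (E \ X).powersetCard k, c q * chi (X ∪ W) q.1 := by
        intro q
        have h3 : chi X q.1 * ((Ring.choose (aff a (T.sgn y) (E \ X) q.1) k : ℤ) : ZMod 2) = 0 := by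
          by_cases hXq : X ⊆ q.1
          · have h4 := ha q.1 hXq
            have h5 := (T.mem_S.1 q.2).2 y hy z hz
            rw [abs_le] at h5
            obtain ⟨r, hr⟩ : ∃ r : ℕ, aff a (T.sgn y) (E \ X) q.1 = (r : ℤ) :=
              ⟨(aff a (T.sgn y) (E \ X) q.1).toNat, by omega⟩
            have hrk : r < k := by omega
            rw [hr, Ring.choose_natCast, Nat.choose_eq_zero_of_lt hrk]
            simp
          · rw [chi, if_neg hXq, zero_mul]
        rw [Pi.sub_apply, mul_sub, mul_assoc, h3, mul_zero, zero_sub, Finset.sum_apply, mul_sum]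
        congr 1
        apply sum_congr rfl
        intro W _
        rw [mul_assoc]
        congr 1
        simp only [chi, union_subset_iff]
        by_cases h1 : X ⊆ q.1 <;> by_cases h2 : W ⊆ q.1 <;> simp [h1, h2]
      rw [sum_congr rfl (fun q _ => h2 q), sum_neg_distrib, neg_eq_zero, sum_comm] at h1
      have h3 : ∑ W ∈ powersetCard k E, dW W (piD d F) X =
          ∑ W ∈ (E \ X).powersetCard k, F (X ∪ W) := by
        have hsub : (E \ X).powersetCard k ⊆ E.powersetCard k := by
          intro W hW
          rw [mem_powersetCard] at hW ⊢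
          exact ⟨hW.1.trans sdiff_subset, hW.2⟩
        rw [← sum_subset hsub]
        · apply sum_congr rfl
          intro W hW
          rw [mem_powersetCard] at hW
          have hdis : Disjoint W X := by
            rw [disjoint_left]
            intro e he
            exact (mem_sdiff.1 (hW.1 he)).2
          rw [dW_apply, if_pos hdis, piD_apply, if_pos]
          rw [card_union_of_disjoint hdis.symm, hW.2, hX]
        · intro W hW hW'
          rw [dW_apply, if_neg]
          intro hdis
          apply hW'
          rw [mem_powersetCard] at hW ⊢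
          refine ⟨?_, hW.2⟩
          intro e he
          rw [mem_sdiff]
          exact ⟨hW.1 he, disjoint_left.1 hdis he⟩
      rw [h3]
      exact h1
    · apply sum_eq_zero
      intro W hW
      rw [dW_apply]
      split_ifs with hdis
      · rw [piD_apply, if_neg]
        rw [card_union_of_disjoint hdis.symm, (mem_powersetCard.1 hW).2]
        exact hX
      · rfl

/-- The number of points is at most the dimension. -/
theorem card_S_le (n : ℕ) (m : ℕ → ℕ → ℤ) (hm : T.Good m) :
    (T.S n m).card ≤ Module.finrank (ZMod 2) (T.KK n m) := by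
  classical
  have h1 : Module.finrank (ZMod 2) (LinearMap.range (Dmap (T.S n m))) = (T.S n m).card := by
    rw [LinearMap.finrank_range_of_inj (Dmap_injective _), Module.finrank_fintype_fun_eq_card,
      Fintype.card_coe]
  rw [← h1]
  apply finrank_le_of_lowest (N := Icc 1 n)
  · rintro _ ⟨c, rfl⟩ U hU
    rw [Dmap_apply]
    apply sum_eq_zero
    intro q _
    rw [chi, if_neg, mul_zero]
    intro h
    exact hU (h.trans (T.mem_S.1 q.2).1)
  · exact T.KK_le n m
  · rintro d _ ⟨c, rfl⟩ hd
    exact T.lowest_mem hm c hd

end RTree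

end Pool.Agent.W113.Range
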