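import Pool.Agent.W113.Tree

set_option autoImplicit false

/-!
Dimension inequality for spaces of functions closed under the differentiation operators:
the product of the dimensions of `K` and `L` is at most `2 ^ N.card` times the dimension of the
intersection.
-/

namespace Pool.Agent.W113.Range

open Finset TensorProduct

section General

variable {V : Type*} [AddCommGroup V] [Module (ZMod 2) V] [FiniteDimensional (ZMod 2) V]

/-- common kernel of a family of operators -/
def cker (Z : ℕ → V →ₗ[ZMod 2] V) (s : Finset ℕ) : Submodule (ZMod 2) V where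
  carrier := {v | ∀ i ∈ s, Z i v = 0}
  zero_mem' := fun i _ => map_zero _
  add_mem' := by
    intro a b ha hb i hi
    rw [map_add, ha i hi, hb i hi, add_zero]
  smul_mem' := by
    intro c a ha i hi
    rw [map_smul, ha i hi, smul_zero]

theorem finrank_le_cker (Z : ℕ → V →ₗ[ZMod 2] V) (hc : ∀ i j v, Z i (Z j v) = Z j (Z i v))
    (hs : ∀ i v, Z i (Z i v) = 0) (s : Finset ℕ) :
    Module.finrank (ZMod 2) V ≤ 2 ^ s.card * Module.finrank (ZMod 2) (cker Z s) := by
  induction s using Finset.induction_on with
  | empty =>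
    have : cker Z ∅ = ⊤ := by
      rw [eq_top_iff]
      intro v _ i hi
      exact absurd hi (notMem_empty i)
    rw [this, finrank_top]
    simp
  | insert j s hj ih =>
    refine ih.trans ?_
    rw [card_insert_of_notMem hj, pow_succ, mul_assoc]
    apply Nat.mul_le_mul_left
    have hmap : ∀ v ∈ cker Z s, Z j v ∈ cker Z s := by
      intro v hv i hi
      rw [hc, hv i hi, map_zero]
    let f : cker Z s →ₗ[ZMod 2] cker Z s := (Z j).restrict hmap
    rw [← LinearMap.finrank_range_add_finrank_ker f]
    have h1 : LinearMap.range f ≤ LinearMap.ker f := by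
      rintro _ ⟨v, rfl⟩
      rw [LinearMap.mem_ker]
      apply Subtype.ext
      exact hs j v.1
    have h2 := Submodule.finrank_mono h1
    have h3 : Module.finrank (ZMod 2) (LinearMap.ker f) ≤
        Module.finrank (ZMod 2) (cker Z (insert j s)) := by
      let g : LinearMap.ker f →ₗ[ZMod 2] cker Z (insert j s) :=
        LinearMap.codRestrict _ ((cker Z s).subtype.comp (LinearMap.ker f).subtype) (by
          intro v i hi
          rw [mem_insert] at hi
          rcases hi with rfl | hi
          · exact congrArg Subtype.val (LinearMap.mem_ker.1 v.2)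
          · exact v.1.2 i hi)
      apply LinearMap.finrank_le_finrank_of_injective (f := g)
      intro v w hvw
      apply Subtype.ext
      apply Subtype.ext
      have h5 : (g v).1 = (g w).1 := by rw [hvw]
      exact h5
    omega

end General

section Product

variable (K L : Submodule (ZMod 2) Fn)

/-- tensors as functions of two arguments -/
def Phi : (K ⊗[ZMod 2] L) →ₗ[ZMod 2] (Finset ℕ → Finset ℕ → ZMod 2) :=
  TensorProduct.lift (LinearMap.mk₂ (ZMod 2) (fun (k : K) (l : L) => fun U W => k.1 U * l.1 W)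
    (by intro k k' l; funext U W; simp [add_mul])
    (by intro c k l; funext U W; simp [mul_assoc])
    (by intro k l l'; funext U W; simp [mul_add])
    (by intro c k l; funext U W; simp [mul_left_comm]))

theorem Phi_tmul (k : K) (l : L) (U W : Finset ℕ) : Phi K L (k ⊗ₜ l) U W = k.1 U * l.1 W := rfl

theorem Phi_injective [FiniteDimensional (ZMod 2) L] : Function.Injective (Phi K L) := by
  classical
  rw [← LinearMap.ker_eq_bot, LinearMap.ker_eq_bot']
  intro t ht
  let B := Module.finBasis (ZMod 2) L
  obtain ⟨b, rfl⟩ := TensorProduct.eq_repr_basis_right B t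
  have hb : b = 0 := by
    ext i U
    have h1 : ∀ W, ∑ j, (b j).1 U * (B j).1 W = 0 := by
      intro W
      have h2 := congrFun (congrFun ht U) W
      rw [Finsupp.sum_fintype _ _ (by intro i; exact zero_tmul _ _), map_sum, Finset.sum_apply,
        Finset.sum_apply] at h2
      simpa [Phi_tmul] using h2
    have h3 : ∑ j, (b j).1 U • B j = 0 := by
      apply Subtype.ext
      funext W
      rw [AddSubmonoidClass.coe_finsetSum, Finset.sum_apply]
      simpa using h1 W
    have h4 := Fintype.linearIndependent_iff.1 B.linearIndependent _ h3 i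
    simpa using h4
  rw [hb, Finsupp.sum_zero_index]

theorem Phi_left (t : K ⊗[ZMod 2] L) (W : Finset ℕ) : (fun U => Phi K L t U W) ∈ K := by
  induction t using TensorProduct.induction_on with
  | zero =>
    rw [map_zero]
    exact K.zero_mem
  | tmul k l =>
    have : (fun U => Phi K L (k ⊗ₜ l) U W) = (l.1 W) • k.1 := by
      funext U
      rw [Phi_tmul]
      simp [mul_comm]
    rw [this]
    exact K.smul_mem _ k.2
  | add x y hx hy =>
    have : (fun U => Phi K L (x + y) U W) = (fun U => Phi K L x U W) + fun U => Phi K L y U W := by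
      rw [map_add]; rfl
    rw [this]
    exact K.add_mem hx hy

theorem Phi_right (t : K ⊗[ZMod 2] L) (U : Finset ℕ) : (fun W => Phi K L t U W) ∈ L := by
  induction t using TensorProduct.induction_on with
  | zero =>
    rw [map_zero]
    exact L.zero_mem
  | tmul k l =>
    have : (fun W => Phi K L (k ⊗ₜ l) U W) = (k.1 U) • l.1 := by
      funext W
      rw [Phi_tmul]
      simp
    rw [this]
    exact L.smul_mem _ l.2
  | add x y hx hy =>
    have : (fun W => Phi K L (x + y) U W) = (fun W => Phi K L x U W) + fun W => Phi K L y U W := by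
      rw [map_add]; rfl
    rw [this]
    exact L.add_mem hx hy

variable {K L}

/-- differentiation on the left factor plus differentiation on the right factor -/
def Zop (hK : ∀ i, ∀ F ∈ K, dW {i} F ∈ K) (hL : ∀ i, ∀ F ∈ L, dW {i} F ∈ L) (i : ℕ) :
    (K ⊗[ZMod 2] L) →ₗ[ZMod 2] (K ⊗[ZMod 2] L) :=
  TensorProduct.map ((dW {i}).restrict (hK i)) LinearMap.id +
    TensorProduct.map LinearMap.id ((dW {i}).restrict (hL i))

theorem Zop_tmul (hK : ∀ i, ∀ F ∈ K, dW {i} F ∈ K) (hL : ∀ i, ∀ F ∈ L, dW {i} F ∈ L) (i : ℕ)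
    (k : K) (l : L) : Zop hK hL i (k ⊗ₜ l) =
      (dW {i}).restrict (hK i) k ⊗ₜ l + k ⊗ₜ (dW {i}).restrict (hL i) l := rfl

theorem restrict_comm {K : Submodule (ZMod 2) Fn} (hK : ∀ i, ∀ F ∈ K, dW {i} F ∈ K) (i j : ℕ)
    (k : K) : (dW {i}).restrict (hK i) ((dW {j}).restrict (hK j) k) =
      (dW {j}).restrict (hK j) ((dW {i}).restrict (hK i) k) :=
  Subtype.ext (dW_comm _ _ _)

theorem restrict_sq {K : Submodule (ZMod 2) Fn} (hK : ∀ i, ∀ F ∈ K, dW {i} F ∈ K) (i : ℕ)
    (k : K) : (dW {i}).restrict (hK i) ((dW {i}).restrict (hK i) k) = 0 :=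
  Subtype.ext (dW_sq _ _)

theorem Zop_comm (hK : ∀ i, ∀ F ∈ K, dW {i} F ∈ K) (hL : ∀ i, ∀ F ∈ L, dW {i} F ∈ L) (i j : ℕ)
    (t : K ⊗[ZMod 2] L) : Zop hK hL i (Zop hK hL j t) = Zop hK hL j (Zop hK hL i t) := by
  induction t using TensorProduct.induction_on with
  | zero => simp
  | tmul k l =>
    rw [Zop_tmul, Zop_tmul, map_add, map_add, Zop_tmul, Zop_tmul, Zop_tmul, Zop_tmul,
      restrict_comm hK i j, restrict_comm hL i j]
    abel
  | add x y hx hy => rw [map_add, map_add, map_add, map_add, hx, hy]

theorem Zop_sq (hK : ∀ i, ∀ F ∈ K, dW {i} F ∈ K) (hL : ∀ i, ∀ F ∈ L, dW {i} F ∈ L) (i : ℕ)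
    (t : K ⊗[ZMod 2] L) : Zop hK hL i (Zop hK hL i t) = 0 := by
  induction t using TensorProduct.induction_on with
  | zero => simp
  | tmul k l =>
    rw [Zop_tmul, map_add, Zop_tmul, Zop_tmul, restrict_sq, restrict_sq, zero_tmul, tmul_zero,
      zero_add, add_zero]
    have : ∀ x : K ⊗[ZMod 2] L, x + x = 0 := by
      intro x
      rw [← two_smul (ZMod 2) x, show (2 : ZMod 2) = 0 from rfl, zero_smul]
    exact this _
  | add x y hx hy => rw [map_add, map_add, hx, hy, add_zero]

theorem Phi_Zop (hK : ∀ i, ∀ F ∈ K, dW {i} F ∈ K) (hL : ∀ i, ∀ F ∈ L, dW {i} F ∈ L) (i : ℕ)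
    (t : K ⊗[ZMod 2] L) (U W : Finset ℕ) : Phi K L (Zop hK hL i t) U W =
      (if i ∈ U then 0 else Phi K L t (insert i U) W) +
        (if i ∈ W then 0 else Phi K L t U (insert i W)) := by
  induction t using TensorProduct.induction_on with
  | zero => simp
  | tmul k l =>
    rw [Zop_tmul, map_add, Pi.add_apply, Pi.add_apply, Phi_tmul, Phi_tmul, Phi_tmul, Phi_tmul]
    rw [LinearMap.coe_restrict_apply, LinearMap.coe_restrict_apply, dW_apply, dW_apply]
    rw [union_comm U, union_comm W, ← insert_eq, ← insert_eq]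
    by_cases hU : i ∈ U <;> by_cases hW : i ∈ W <;> simp [hU, hW]
  | add x y hx hy =>
    rw [map_add, map_add, map_add, Pi.add_apply, Pi.add_apply, hx, hy]
    by_cases hU : i ∈ U <;> by_cases hW : i ∈ W <;> simp [hU, hW]
    abel

/-- Values of a function of two sets in the common kernel. -/
theorem ker_values {N : Finset ℕ} {G : Finset ℕ → Finset ℕ → ZMod 2}
    (hG : ∀ i ∈ N, ∀ U W, (if i ∈ U then 0 else G (insert i U) W) +
        (if i ∈ W then 0 else G U (insert i W)) = 0)
    (W : Finset ℕ) : ∀ U : Finset ℕ, W ⊆ N →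
      G U W = if Disjoint U W then G (U ∪ W) ∅ else 0 := by
  induction W using Finset.induction_on with
  | empty => intro U _; simp
  | insert i W hi ih =>
    intro U hW
    have hiN : i ∈ N := hW (mem_insert_self _ _)
    have hWN : W ⊆ N := (subset_insert _ _).trans hW
    have h1 := hG i hiN U W
    rw [if_neg hi] at h1
    by_cases hU : i ∈ U
    · rw [if_pos hU, zero_add] at h1
      rw [h1, if_neg]
      rw [disjoint_insert_right]
      exact fun h => h.1 hU
    · rw [if_neg hU] at h1
      have h2 : G U (insert i W) = G (insert i U) W := by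
        have := CharTwo.add_eq_zero.1 h1
        exact this.symm
      rw [h2, ih (insert i U) hWN]
      have h3 : insert i U ∪ W = U ∪ insert i W := by
        ext a; simp only [mem_union, mem_insert]; tauto
      have h4 : Disjoint (insert i U) W ↔ Disjoint U (insert i W) := by
        rw [disjoint_insert_left, disjoint_insert_right]
        simp [hi, hU]
      rw [h3]
      by_cases h5 : Disjoint U (insert i W)
      · rw [if_pos h5, if_pos (h4.2 h5)]
      · rw [if_neg h5, if_neg (fun h => h5 (h4.1 h))]

theorem finrank_mul_le {N : Finset ℕ} (hKN : K ≤ Supp N) (hLN : L ≤ Supp N)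
    (hK : ∀ i, ∀ F ∈ K, dW {i} F ∈ K) (hL : ∀ i, ∀ F ∈ L, dW {i} F ∈ L) :
    Module.finrank (ZMod 2) K * Module.finrank (ZMod 2) L ≤
      2 ^ N.card * Module.finrank (ZMod 2) (K ⊓ L : Submodule (ZMod 2) Fn) := by
  have : FiniteDimensional (ZMod 2) K := Submodule.finiteDimensional_of_le hKN
  have : FiniteDimensional (ZMod 2) L := Submodule.finiteDimensional_of_le hLN
  have : FiniteDimensional (ZMod 2) (K ⊓ L : Submodule (ZMod 2) Fn) :=
    Submodule.finiteDimensional_of_le (inf_le_left.trans hKN)
  rw [← Module.finrank_tensorProduct (R := ZMod 2) (S := ZMod 2)]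
  refine (finrank_le_cker (Zop hK hL) (Zop_comm hK hL) (Zop_sq hK hL) N).trans ?_
  apply Nat.mul_le_mul_left
  have hval : ∀ t ∈ cker (Zop hK hL) N, ∀ W : Finset ℕ, W ⊆ N → ∀ U : Finset ℕ,
      Phi K L t U W = if Disjoint U W then Phi K L t (U ∪ W) ∅ else 0 := by
    intro t ht W hW U
    apply ker_values (N := N) _ _ _ hW
    intro i hi U W
    rw [← Phi_Zop hK hL, ht i hi, map_zero]
    rfl
  let g : cker (Zop hK hL) N →ₗ[ZMod 2] (K ⊓ L : Submodule (ZMod 2) Fn) :=
    { toFun := fun t => ⟨fun U => Phi K L t.1 U ∅, by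
        refine ⟨Phi_left K L t.1 ∅, ?_⟩
        have h1 := Phi_right K L t.1 ∅
        have h4 : (fun U => Phi K L t.1 U ∅) = fun U => Phi K L t.1 ∅ U := by
          funext U
          by_cases hU : U ⊆ N
          · rw [hval t.1 t.2 U hU ∅]
            simp
          · have h2 : Phi K L t.1 U ∅ = 0 := hKN (Phi_left K L t.1 ∅) U hU
            have h3 : Phi K L t.1 ∅ U = 0 := hLN (Phi_right K L t.1 ∅) U hU
            rw [h2, h3]
        rw [h4]
        exact h1⟩
      map_add' := by
        intro s t
        apply Subtype.ext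
        funext U
        change Phi K L (s.1 + t.1) U ∅ = Phi K L s.1 U ∅ + Phi K L t.1 U ∅
        rw [map_add]
        rfl
      map_smul' := by
        intro c t
        apply Subtype.ext
        funext U
        change Phi K L (c • t.1) U ∅ = c • Phi K L t.1 U ∅
        rw [map_smul]
        rfl }
  apply LinearMap.finrank_le_finrank_of_injective (f := g)
  rw [← LinearMap.ker_eq_bot, LinearMap.ker_eq_bot']
  intro t ht
  have h0 : ∀ U, Phi K L t.1 U ∅ = 0 := fun U => congrFun (congrArg Subtype.val ht) U
  apply Subtype.ext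
  apply Phi_injective K L
  change Phi K L t.1 = Phi K L 0
  rw [map_zero]
  funext U W
  by_cases hW : W ⊆ N
  · rw [hval t.1 t.2 W hW U, h0]
    simp
  · exact hLN (Phi_right K L t.1 U) W hW

end Product

/-- Product inequality for the spaces attached to difference constraints. -/
theorem RTree.finrank_KK_mul_le (T : RTree) (n : ℕ) (m m' : ℕ → ℕ → ℤ) :
    Module.finrank (ZMod 2) (T.KK n m) * Module.finrank (ZMod 2) (T.KK n m') ≤
      2 ^ n * Module.finrank (ZMod 2) (T.KK n (fun y z => min (m y z) (m' y z))) := by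
  have h1 := finrank_mul_le (N := Icc 1 n) (T.KK_le n m) (T.KK_le n m')
    (fun i F hF => T.KK_dW hF _) (fun i F hF => T.KK_dW hF _)
  rw [Nat.card_Icc, Nat.add_sub_cancel] at h1
  refine h1.trans ?_
  apply Nat.mul_le_mul_left
  apply Submodule.finrank_mono
  exact T.KK_inf n m m'

end Pool.Agent.W113.Range
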