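import Pool.Agent.W113.Upper
import Pool.Agent.W113.Lower
import Pool.Agent.W113.Tensor

set_option autoImplicit false

/-!
The correlation inequality for tree-indexed walks with difference constraints.
-/

namespace Pool.Agent.W113.Range

open Finset

theorem RTree.gci (T : RTree) (n : ℕ) {m m' : ℕ → ℕ → ℤ} (hm : T.Good m) (hm' : T.Good m') :
    (T.S n m).card * (T.S n m').card ≤
      2 ^ n * (T.S n (fun y z => min (m y z) (m' y z))).card := by
  have hg : T.Good (fun y z => min (m y z) (m' y z)) := by
    constructor
    · intro y z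
      change min (m y z) (m' y z) = min (m z y) (m' z y)
      rw [hm.1 y z, hm'.1 y z]
    · intro y z
      have h1 := hm.2 y z
      have h2 := hm'.2 y z
      change (2 : ℤ) ∣ min (m y z) (m' y z) - _ - _
      rcases min_choice (m y z) (m' y z) with h | h <;> rw [h] <;> assumption
  calc (T.S n m).card * (T.S n m').card
      ≤ _ := Nat.mul_le_mul (T.card_S_le n m hm) (T.card_S_le n m' hm')
    _ ≤ _ := T.finrank_KK_mul_le n m m'
    _ ≤ _ := Nat.mul_le_mul_left _ (T.finrank_KK_le n _ hg)

end Pool.Agent.W113.Range
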