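import Pool.Agent.W113.LTree
import Pool.Agent.W113.LWalk
import Pool.Agent.W113.TreeMax

set_option autoImplicit false

/-!
Among rooted trees with a given number of edges the path started at its end has the largest expected
maximum height, for steps in `{-1, 0, 1}`.
-/

namespace Pool.Agent.W113.Lazy

open Finset Pool.Agent.W113.Range

theorem card_Pts (J : Finset ℕ) : (Pts J).card = 3 ^ J.card := by
  unfold Pts
  rw [Finset.card_finsupp]
  simp

theorem sum_Pts_insert {J : Finset ℕ} {x : ℕ} (hx : x ∉ J) (f : (ℕ →₀ ℕ) → ℤ) :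
    ∑ q ∈ Pts (insert x J), f q = ∑ q ∈ Pts J, (f (q + Finsupp.single x 2) +
      f (q + Finsupp.single x 1) + f (q + Finsupp.single x 0)) := by
  have h1 : ∑ q ∈ Pts (insert x J), f q =
      ∑ r ∈ Pts J ×ˢ range 3, f (r.1 + Finsupp.single x r.2) := by
    symm
    apply sum_nbij' (fun r => r.1 + Finsupp.single x r.2) (fun q => (q.erase x, q x))
    · rintro ⟨q, a⟩ hr
      rw [mem_product, mem_Pts, mem_range] at hr
      obtain ⟨⟨h1, h2⟩, h3⟩ := hr
      rw [mem_Pts]
      refine ⟨fun i hi => ?_, fun i => ?_⟩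
      · rw [mem_insert, not_or] at hi
        change (q + Finsupp.single x a) i = 0
        rw [Finsupp.add_apply, Finsupp.single_eq_of_ne hi.1, add_zero]
        exact h1 i hi.2
      · change (q + Finsupp.single x a) i < 3
        rw [Finsupp.add_apply]
        by_cases hi : i = x
        · rw [hi, Finsupp.single_eq_same]
          have : q x = 0 := h1 x hx
          rw [this, zero_add]
          exact h3
        · rw [Finsupp.single_eq_of_ne hi, add_zero]
          exact h2 i
    · intro q hq
      rw [mem_Pts] at hq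
      rw [mem_product, mem_Pts, mem_range]
      refine ⟨⟨fun i hi => ?_, fun i => ?_⟩, hq.2 x⟩
      · change (q.erase x) i = 0
        by_cases hix : i = x
        · rw [hix, Finsupp.erase_same]
        · rw [Finsupp.erase_ne hix]
          apply hq.1
          rw [mem_insert, not_or]
          exact ⟨hix, hi⟩
      · change (q.erase x) i < 3
        by_cases hix : i = x
        · rw [hix, Finsupp.erase_same]
          norm_num
        · rw [Finsupp.erase_ne hix]
          exact hq.2 i
    · rintro ⟨q, a⟩ hr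
      rw [mem_product, mem_Pts, mem_range] at hr
      obtain ⟨⟨h1, h2⟩, h3⟩ := hr
      have h4 : q x = 0 := h1 x hx
      apply Prod.ext
      · change (q + Finsupp.single x a).erase x = q
        ext i
        by_cases hix : i = x
        · rw [hix, Finsupp.erase_same, h4]
        · rw [Finsupp.erase_ne hix, Finsupp.add_apply, Finsupp.single_eq_of_ne hix, add_zero]
      · change (q + Finsupp.single x a) x = a
        rw [Finsupp.add_apply, Finsupp.single_eq_same, h4, zero_add]
    · intro q _
      exact Finsupp.erase_add_single x q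
    · intro r _
      rfl
  rw [h1, sum_product]
  apply sum_congr rfl
  intro q _
  rw [sum_range_succ, sum_range_succ, sum_range_one]
  ring

theorem sum_Pts_union (J0 J1 : Finset ℕ) (h : Disjoint J0 J1) :
    ∀ f : (ℕ →₀ ℕ) → ℤ, ∑ q ∈ Pts (J0 ∪ J1), f q =
      ∑ q0 ∈ Pts J0, ∑ q1 ∈ Pts J1, f (q0 + q1) := by
  induction J1 using Finset.induction_on with
  | empty =>
    intro f
    have : Pts ∅ = {0} := by
      ext q
      rw [mem_Pts, mem_singleton]
      constructor
      · rintro ⟨h1, _⟩
        ext i
        exact h1 i (notMem_empty i)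
      · rintro rfl
        exact ⟨fun _ _ => rfl, fun _ => by simp⟩
    rw [union_empty, this]
    simp
  | insert a J1 ha ih =>
    intro f
    have h1 : Disjoint J0 J1 := h.mono_right (subset_insert _ _)
    have h2 : a ∉ J0 ∪ J1 := by
      rw [mem_union]
      rintro (h3 | h3)
      · exact disjoint_left.1 h h3 (mem_insert_self _ _)
      · exact ha h3
    rw [union_insert, sum_Pts_insert h2, ih h1]
    apply sum_congr rfl
    intro q0 _
    rw [sum_Pts_insert ha]
    simp only [add_assoc]

variable (T : RTree)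

/-- largest height above `r` over `J` together with `r` -/
def Mx (J : Finset ℕ) (r : ℕ) (q : ℕ →₀ ℕ) : ℤ :=
  (insert r J).sup' (insert_nonempty r J) fun y => hL T q y - hL T q r

theorem Mx_nonneg (J : Finset ℕ) (r : ℕ) (q : ℕ →₀ ℕ) : 0 ≤ Mx T J r q := by
  have := le_sup' (fun y => hL T q y - hL T q r) (mem_insert_self r J)
  simpa [Mx] using this

theorem le_Mx {J : Finset ℕ} {r : ℕ} {q : ℕ →₀ ℕ} {y : ℕ} (hy : y ∈ insert r J) :
    hL T q y - hL T q r ≤ Mx T J r q := le_sup' (fun y => hL T q y - hL T q r) hy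

theorem Mx_le {J : Finset ℕ} {r : ℕ} {q : ℕ →₀ ℕ} {a : ℤ}
    (h : ∀ y ∈ insert r J, hL T q y - hL T q r ≤ a) : Mx T J r q ≤ a := sup'_le _ _ h

theorem exists_Mx (J : Finset ℕ) (r : ℕ) (q : ℕ →₀ ℕ) :
    ∃ y ∈ insert r J, Mx T J r q = hL T q y - hL T q r := exists_mem_eq_sup' _ _

theorem rel_congr {J : Finset ℕ} {r : ℕ} (hJ : T.Closed J r) {q q' : ℕ →₀ ℕ}
    (hq : ∀ e ∈ J, q e = q' e) : ∀ y, y ∈ J → hL T q y - hL T q r = hL T q' y - hL T q' r := by
  intro y
  induction y using Nat.strong_induction_on with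
  | _ y ih =>
    intro hy
    have h1 := hJ y hy
    have h2 : 1 ≤ y := by omega
    rw [hL_pos T q h2, hL_pos T q' h2, hq y hy]
    rcases h1.2 with h4 | h4
    · have := ih _ (T.p_lt y h2) h4
      linarith
    · rw [h4]
      ring

theorem Mx_congr {J : Finset ℕ} {r : ℕ} (hJ : T.Closed J r) {q q' : ℕ →₀ ℕ}
    (hq : ∀ e ∈ J, q e = q' e) : Mx T J r q = Mx T J r q' := by
  unfold Mx
  apply sup'_congr _ rfl
  intro y hy
  rw [mem_insert] at hy
  rcases hy with rfl | hy
  · ring
  · exact rel_congr T hJ hq y hy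

theorem Mx_decomp {J0 J1 : Finset ℕ} {x r : ℕ} (hx1 : 1 ≤ x) (hpx : T.p x = r) (q : ℕ →₀ ℕ) :
    Mx T (insert x (J0 ∪ J1)) r q = max (Mx T J0 r q) (((q x : ℤ) - 1) + Mx T J1 x q) := by
  have hh : hL T q x = ((q x : ℤ) - 1) + hL T q r := by
    rw [hL_pos T q hx1, hpx]
  apply le_antisymm
  · apply Mx_le
    intro y hy
    rw [mem_insert, mem_insert, mem_union] at hy
    rcases hy with hy | hy | hy | hy
    · exact (le_Mx T (mem_insert.2 (Or.inl hy))).trans (le_max_left _ _)
    · refine le_trans ?_ (le_max_right _ _)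
      have := le_Mx T (J := J1) (r := x) (q := q) (y := y) (mem_insert.2 (Or.inl hy))
      linarith
    · exact (le_Mx T (mem_insert.2 (Or.inr hy))).trans (le_max_left _ _)
    · refine le_trans ?_ (le_max_right _ _)
      have := le_Mx T (J := J1) (r := x) (q := q) (y := y) (mem_insert.2 (Or.inr hy))
      linarith
  · apply max_le
    · apply Mx_le
      intro y hy
      apply le_Mx
      rw [mem_insert] at hy
      rw [mem_insert, mem_insert, mem_union]
      tauto
    · obtain ⟨y, hy, hy'⟩ := exists_Mx T J1 x q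
      rw [hy']
      have h1 : y ∈ insert r (insert x (J0 ∪ J1)) := by
        rw [mem_insert] at hy
        rw [mem_insert, mem_insert, mem_union]
        tauto
      have := le_Mx T (q := q) h1
      linarith

/-- sum over points, split at the smallest child of the root -/
theorem sum_decomp {J0 J1 : Finset ℕ} {x r : ℕ} (hx : x ∉ J0 ∪ J1) (hd : Disjoint J0 J1)
    (hJ0 : T.Closed J0 r) (hJ1 : T.Closed J1 x) (hx1 : 1 ≤ x) (hpx : T.p x = r) (φ : ℤ → ℤ) :
    ∑ q ∈ Pts (insert x (J0 ∪ J1)), φ (Mx T (insert x (J0 ∪ J1)) r q) =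
      ∑ q0 ∈ Pts J0, ∑ q1 ∈ Pts J1,
        (φ (max (Mx T J0 r q0) (1 + Mx T J1 x q1)) + φ (max (Mx T J0 r q0) (0 + Mx T J1 x q1)) +
          φ (max (Mx T J0 r q0) (-1 + Mx T J1 x q1))) := by
  rw [sum_Pts_insert hx, sum_Pts_union J0 J1 hd]
  apply sum_congr rfl
  intro q0 hq0
  apply sum_congr rfl
  intro q1 hq1
  rw [mem_Pts] at hq0 hq1
  rw [mem_union, not_or] at hx
  have hne0 : ∀ e ∈ J0, e ≠ x := fun e he h => hx.1 (h ▸ he)
  have hne1 : ∀ e ∈ J1, e ≠ x := fun e he h => hx.2 (h ▸ he)
  have e0 : ∀ a : ℕ, ∀ e ∈ J0, (q0 + q1 + Finsupp.single x a) e = q0 e := by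
    intro a e he
    rw [Finsupp.add_apply, Finsupp.add_apply, Finsupp.single_eq_of_ne (hne0 e he), add_zero,
      hq1.1 e (disjoint_left.1 hd he), add_zero]
  have e1 : ∀ a : ℕ, ∀ e ∈ J1, (q0 + q1 + Finsupp.single x a) e = q1 e := by
    intro a e he
    rw [Finsupp.add_apply, Finsupp.add_apply, Finsupp.single_eq_of_ne (hne1 e he), add_zero,
      hq0.1 e (fun h => disjoint_left.1 hd h he), zero_add]
  have ex : ∀ a : ℕ, (q0 + q1 + Finsupp.single x a) x = a := by
    intro a
    rw [Finsupp.add_apply, Finsupp.add_apply, Finsupp.single_eq_same, hq0.1 x hx.1, hq1.1 x hx.2,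
      zero_add, zero_add]
  have key : ∀ a : ℕ, Mx T (insert x (J0 ∪ J1)) r (q0 + q1 + Finsupp.single x a) =
      max (Mx T J0 r q0) (((a : ℤ) - 1) + Mx T J1 x q1) := by
    intro a
    rw [Mx_decomp T hx1 hpx, ex, Mx_congr T hJ0 (e0 a), Mx_congr T hJ1 (e1 a)]
  rw [key, key, key]
  norm_num

/-- The expected maximum over a tree is at most that over the path. -/
theorem sum_max_le (s : ℕ) : ∀ (J : Finset ℕ) (r : ℕ), J.card = s → T.Closed J r → ∀ t : ℤ,
    ∑ q ∈ Pts J, max t (Mx T J r q) ≤ Ex J.card (fun w => max t (Mw w)) := by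
  induction s using Nat.strong_induction_on with
  | _ s ih =>
    intro J r hs hJ t
    rcases J.eq_empty_or_nonempty with rfl | hne
    · have h0 : Pts ∅ = {0} := by
        ext q
        rw [mem_Pts, mem_singleton]
        constructor
        · rintro ⟨h1, _⟩
          ext i
          exact h1 i (notMem_empty i)
        · rintro rfl
          exact ⟨fun _ _ => rfl, fun _ => by simp⟩
      rw [h0]
      simp [Ex, Mw, Mx]
    · obtain ⟨x, J0, J1, hx, hd, rfl, hJ0, hJ1, hpx, hx1, -, -, -⟩ := T.decomp hJ hne
      have hcard : (insert x (J0 ∪ J1)).card = J0.card + (J1.card + 1) := by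
        rw [card_insert_of_notMem hx, card_union_of_disjoint hd]
        ring
      have ih0 := ih J0.card (by omega) J0 r rfl hJ0
      have ih1 := ih J1.card (by omega) J1 x rfl hJ1
      rw [sum_decomp T hx hd hJ0 hJ1 hx1 hpx (fun a => max t a), hcard]
      -- replace the part at the root
      have s1 : ∀ (q1 : ℕ →₀ ℕ) (ε : ℤ),
          ∑ q0 ∈ Pts J0, max t (max (Mx T J0 r q0) (ε + Mx T J1 x q1)) ≤
            Ex J0.card (fun w => max t (max (Mw w) (ε + Mx T J1 x q1))) := by
        intro q1 ε
        have h1 := ih0 (max t (ε + Mx T J1 x q1))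
        have h2 : ∑ q0 ∈ Pts J0, max t (max (Mx T J0 r q0) (ε + Mx T J1 x q1)) =
            ∑ q0 ∈ Pts J0, max (max t (ε + Mx T J1 x q1)) (Mx T J0 r q0) := by
          apply sum_congr rfl
          intro q0 _
          omega
        have h3 : Ex J0.card (fun w => max t (max (Mw w) (ε + Mx T J1 x q1))) =
            Ex J0.card (fun w => max (max t (ε + Mx T J1 x q1)) (Mw w)) := by
          apply Ex_congr
          intro w
          omega
        rw [h2, h3]
        exact h1
      -- replace the part at the child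
      have s2 : ∀ (s ε : ℤ), ∑ q1 ∈ Pts J1, max s (ε + Mx T J1 x q1) ≤
          Ex J1.card (fun w => max s (ε + Mw w)) := by
        intro s ε
        have h1 := ih1 (s - ε)
        have h2 : ∑ q1 ∈ Pts J1, max s (ε + Mx T J1 x q1) =
            ∑ q1 ∈ Pts J1, ε + ∑ q1 ∈ Pts J1, max (s - ε) (Mx T J1 x q1) := by
          rw [← sum_add_distrib]
          apply sum_congr rfl
          intro q1 _
          omega
        have h3 : Ex J1.card (fun w => max s (ε + Mw w)) =
            Ex J1.card (fun _ => ε) + Ex J1.card (fun w => max (s - ε) (Mw w)) := by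
          rw [← Ex_add_fun]
          apply Ex_congr
          intro w
          omega
        have h4 : ∀ k : ℕ, Ex k (fun _ => ε) = 3 ^ k * ε := by
          intro k
          induction k with
          | zero => simp [Ex]
          | succ k ih => simp only [Ex, ih]; ring
        rw [h2, h3, h4, sum_const, card_Pts]
        simp only [nsmul_eq_mul, Nat.cast_pow, Nat.cast_ofNat]
        linarith
      calc ∑ q0 ∈ Pts J0, ∑ q1 ∈ Pts J1,
            (max t (max (Mx T J0 r q0) (1 + Mx T J1 x q1)) +
              max t (max (Mx T J0 r q0) (0 + Mx T J1 x q1)) +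
              max t (max (Mx T J0 r q0) (-1 + Mx T J1 x q1)))
          = ∑ q1 ∈ Pts J1, (∑ q0 ∈ Pts J0,
              max t (max (Mx T J0 r q0) (1 + Mx T J1 x q1)) +
              ∑ q0 ∈ Pts J0, max t (max (Mx T J0 r q0) (0 + Mx T J1 x q1)) +
              ∑ q0 ∈ Pts J0, max t (max (Mx T J0 r q0) (-1 + Mx T J1 x q1))) := by
            rw [sum_comm]
            apply sum_congr rfl
            intro q1 _
            rw [sum_add_distrib, sum_add_distrib]
        _ ≤ ∑ q1 ∈ Pts J1, (Ex J0.card (fun w => max t (max (Mw w) (1 + Mx T J1 x q1))) +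
              Ex J0.card (fun w => max t (max (Mw w) (0 + Mx T J1 x q1))) +
              Ex J0.card (fun w => max t (max (Mw w) (-1 + Mx T J1 x q1)))) := by
            apply sum_le_sum
            intro q1 _
            exact add_le_add (add_le_add (s1 q1 1) (s1 q1 0)) (s1 q1 (-1))
        _ = Ex J0.card (fun w => ∑ q1 ∈ Pts J1, max (max t (Mw w)) (1 + Mx T J1 x q1) +
              ∑ q1 ∈ Pts J1, max (max t (Mw w)) (0 + Mx T J1 x q1) +
              ∑ q1 ∈ Pts J1, max (max t (Mw w)) (-1 + Mx T J1 x q1)) := by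
            rw [sum_add_distrib, sum_add_distrib, ← Ex_sum, ← Ex_sum, ← Ex_sum, ← Ex_add_fun,
              ← Ex_add_fun]
            apply Ex_congr
            intro w
            have hc : ∀ ε : ℤ, ∑ q1 ∈ Pts J1, max t (max (Mw w) (ε + Mx T J1 x q1)) =
                ∑ q1 ∈ Pts J1, max (max t (Mw w)) (ε + Mx T J1 x q1) := by
              intro ε
              apply sum_congr rfl
              intro q1 _
              omega
            rw [hc, hc, hc]
        _ ≤ Ex J0.card (fun w => Ex J1.card (fun w' => max (max t (Mw w)) (1 + Mw w')) +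
              Ex J1.card (fun w' => max (max t (Mw w)) (0 + Mw w')) +
              Ex J1.card (fun w' => max (max t (Mw w)) (-1 + Mw w'))) := by
            apply Ex_mono
            intro w
            exact add_le_add (add_le_add (s2 _ _) (s2 _ _)) (s2 _ _)
        _ = Ex J0.card (fun w => Ex (J1.card + 1) (fun w' => max t (max (Mw w) (Mw w')))) := by
            apply Ex_congr
            intro w
            have hw := Mw_nonneg w
            have hc : ∀ ε : ℤ, Ex J1.card (fun w' => max (max t (Mw w)) (ε + Mw w')) =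
                Ex J1.card (fun w' => max t (max (Mw w) (max 0 (ε + Mw w')))) := by
              intro ε
              apply Ex_congr
              intro w'
              omega
            rw [hc, hc, hc]
            rfl
        _ ≤ Ex (J0.card + (J1.card + 1)) (fun w => max t (Mw w)) := merge_le _ _ _

end Pool.Agent.W113.Lazy
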