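import Pool.Agent.W113.LGCI
import Pool.Agent.W113.LTreeMax
import Pool.Agent.W113.Avg

set_option autoImplicit false

/-!
Number of values of tree-indexed walks with steps in `{-1, 0, 1}`: comparison of a constrained walk with
the free walk on the tree, and of the free walk on the tree with the walk on the path.
-/

namespace Pool.Agent.W113.Lazy

open Finset Pool.Agent.W113.Range

theorem path_sum (k : ℕ) : ∀ (φ : ℤ → ℤ) (r : ℕ),
    ∑ q ∈ Pts (Icc (r + 1) (r + k)), φ (Mx pathT (Icc (r + 1) (r + k)) r q) =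
      Ex k (fun w => φ (Mw w)) := by
  have hP0 : Pts ∅ = {0} := by
    ext q
    rw [mem_Pts, mem_singleton]
    constructor
    · rintro ⟨h1, _⟩
      ext i
      exact h1 i (notMem_empty i)
    · rintro rfl
      exact ⟨fun _ _ => rfl, fun _ => by simp⟩
  induction k with
  | zero =>
    intro φ r
    have : Icc (r + 1) (r + 0) = ∅ := by
      ext e; simp
    rw [this, hP0]
    simp [Ex, Mw, Mx]
  | succ k ih =>
    intro φ r
    have hI : Icc (r + 1) (r + (k + 1)) = insert (r + 1) (∅ ∪ Icc (r + 1 + 1) (r + 1 + k)) := by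
      ext e
      simp only [mem_Icc, mem_insert, empty_union]
      omega
    have hx : r + 1 ∉ (∅ : Finset ℕ) ∪ Icc (r + 1 + 1) (r + 1 + k) := by
      rw [empty_union, mem_Icc]
      omega
    have h0 : pathT.Closed ∅ r := by
      intro y hy
      exact absurd hy (notMem_empty y)
    rw [hI, sum_decomp pathT hx (disjoint_empty_left _) h0 (path_closed (r + 1) k) (by omega) rfl φ]
    have hM : ∀ q, Mx pathT ∅ r q = 0 := by
      intro q
      simp [Mx]
    rw [hP0, sum_singleton]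
    simp only [hM, sum_add_distrib]
    rw [ih (fun a => φ (max 0 (1 + a))), ih (fun a => φ (max 0 (0 + a))),
      ih (fun a => φ (max 0 (-1 + a)))]
    rfl

variable (T : RTree)

/-- number of values -/
def cv (n : ℕ) (q : ℕ →₀ ℕ) : ℕ := ((range (n + 1)).image (hL T q)).card

theorem ivt {q : ℕ →₀ ℕ} (hq : ∀ i, q i < 3) (y : ℕ) :
    ∀ v : ℤ, (0 ≤ v ∧ v ≤ hL T q y ∨ hL T q y ≤ v ∧ v ≤ 0) → ∃ z ≤ y, hL T q z = v := by
  induction y using Nat.strong_induction_on with
  | _ y ih =>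
    intro v hv
    rcases Nat.eq_zero_or_pos y with rfl | hy
    · rw [hL_zero] at hv
      exact ⟨0, le_rfl, by rw [hL_zero]; omega⟩
    · by_cases h1 : v = hL T q y
      · exact ⟨y, le_rfl, h1.symm⟩
      · have h2 := hL_pos T q hy
        have h3 := T.p_lt y hy
        have h4 : (0 ≤ v ∧ v ≤ hL T q (T.p y) ∨ hL T q (T.p y) ≤ v ∧ v ≤ 0) := by
          have := hq y
          omega
        obtain ⟨z, hz, hzv⟩ := ih _ h3 v h4
        exact ⟨z, by omega, hzv⟩

/-- reversal of all steps -/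
noncomputable def rv (n : ℕ) (q : ℕ →₀ ℕ) : ℕ →₀ ℕ :=
  Finsupp.onFinset (Icc 1 n) (fun e => if e ∈ Icc 1 n then 2 - q e else 0) (by
    intro e he
    by_contra h
    rw [if_neg h] at he
    exact he rfl)

theorem rv_apply (n : ℕ) (q : ℕ →₀ ℕ) (e : ℕ) :
    rv n q e = if e ∈ Icc 1 n then 2 - q e else 0 := rfl

theorem rv_mem {n : ℕ} (q : ℕ →₀ ℕ) : rv n q ∈ Pts (Icc 1 n) := by
  rw [mem_Pts]
  refine ⟨fun i hi => ?_, fun i => ?_⟩
  · rw [rv_apply, if_neg hi]
  · rw [rv_apply]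
    split_ifs <;> omega

theorem rv_rv {n : ℕ} {q : ℕ →₀ ℕ} (hq : q ∈ Pts (Icc 1 n)) : rv n (rv n q) = q := by
  rw [mem_Pts] at hq
  ext e
  rw [rv_apply, rv_apply]
  split_ifs with h
  · have := hq.2 e
    omega
  · exact (hq.1 e h).symm

theorem hL_rv {n : ℕ} {q : ℕ →₀ ℕ} (hq : ∀ i, q i < 3) {y : ℕ} (hy : y ≤ n) :
    hL T (rv n q) y = - hL T q y := by
  unfold hL
  rw [← sum_neg_distrib]
  apply sum_congr rfl
  intro e he
  have := T.A_subset y he
  rw [mem_Icc] at this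
  have h1 : e ∈ Icc 1 n := mem_Icc.2 ⟨this.1, by omega⟩
  have h2 := hq e
  rw [rv_apply, if_pos h1]
  omega

theorem h_le_Mx {n : ℕ} (q : ℕ →₀ ℕ) {y : ℕ} (hy : y ≤ n) :
    hL T q y ≤ Mx T (Icc 1 n) 0 q := by
  have := le_Mx T (J := Icc 1 n) (r := 0) (q := q) (y := y) (by
    rw [mem_insert, mem_Icc]; omega)
  rw [hL_zero] at this
  omega

theorem exists_Mx' (n : ℕ) (q : ℕ →₀ ℕ) : ∃ y ≤ n, Mx T (Icc 1 n) 0 q = hL T q y := by
  obtain ⟨y, hy, hy'⟩ := exists_Mx T (Icc 1 n) 0 q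
  rw [hL_zero, sub_zero] at hy'
  refine ⟨y, ?_, hy'⟩
  rw [mem_insert, mem_Icc] at hy
  omega

theorem cv_eq {n : ℕ} {q : ℕ →₀ ℕ} (hq : ∀ i, q i < 3) :
    (cv T n q : ℤ) = Mx T (Icc 1 n) 0 q + Mx T (Icc 1 n) 0 (rv n q) + 1 := by
  have himg : (range (n + 1)).image (hL T q) =
      Icc (-Mx T (Icc 1 n) 0 (rv n q)) (Mx T (Icc 1 n) 0 q) := by
    ext v
    rw [mem_image, mem_Icc]
    constructor
    · rintro ⟨y, hy, rfl⟩
      rw [mem_range] at hy
      have h1 := h_le_Mx T (n := n) q (y := y) (by omega)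
      have h2 := h_le_Mx T (n := n) (rv n q) (y := y) (by omega)
      rw [hL_rv T hq (by omega)] at h2
      omega
    · rintro ⟨h1, h2⟩
      rcases le_or_gt 0 v with hv | hv
      · obtain ⟨y, hy, hy'⟩ := exists_Mx' T n q
        obtain ⟨z, hz, hzv⟩ := ivt T hq y v (Or.inl ⟨hv, by omega⟩)
        exact ⟨z, mem_range.2 (by omega), hzv⟩
      · obtain ⟨y, hy, hy'⟩ := exists_Mx' T n (rv n q)
        rw [hL_rv T hq hy] at hy'
        obtain ⟨z, hz, hzv⟩ := ivt T hq y v (Or.inr ⟨by omega, by omega⟩)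
        exact ⟨z, mem_range.2 (by omega), hzv⟩
  have h1 := Mx_nonneg T (Icc 1 n) 0 q
  have h2 := Mx_nonneg T (Icc 1 n) 0 (rv n q)
  unfold cv
  rw [himg, Int.card_Icc]
  omega

theorem sum_cv (n : ℕ) : ∑ q ∈ Pts (Icc 1 n), (cv T n q : ℤ) =
    2 * ∑ q ∈ Pts (Icc 1 n), Mx T (Icc 1 n) 0 q + 3 ^ n := by
  have h1 : ∑ q ∈ Pts (Icc 1 n), Mx T (Icc 1 n) 0 (rv n q) =
      ∑ q ∈ Pts (Icc 1 n), Mx T (Icc 1 n) 0 q := by
    apply sum_nbij' (fun q => rv n q) (fun q => rv n q)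
    · intro q _
      exact rv_mem q
    · intro q _
      exact rv_mem q
    · intro q hq
      exact rv_rv hq
    · intro q hq
      exact rv_rv hq
    · intro q _
      rfl
  rw [sum_congr rfl fun q hq => cv_eq T (mem_Pts.1 hq).2]
  simp only [sum_add_distrib, h1, sum_const, card_Pts, Nat.card_Icc,
    Nat.add_sub_cancel]
  simp
  ring

/-- The free walk on the tree has on average at most as many values as the walk on the path. -/
theorem sum_cv_le (n : ℕ) : ∑ q ∈ Pts (Icc 1 n), (cv T n q : ℤ) ≤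
    ∑ q ∈ Pts (Icc 1 n), (cv pathT n q : ℤ) := by
  rw [sum_cv, sum_cv]
  have h1 := sum_max_le T n (Icc 1 n) 0 (by simp) (T.closed_Icc n) 0
  have h2 := path_sum n (fun a => max 0 a) 0
  have h3 : Icc (0 + 1) (0 + n) = Icc 1 n := by simp
  rw [h3] at h2
  rw [Nat.card_Icc, Nat.add_sub_cancel, ← h2] at h1
  have h4 : ∑ q ∈ Pts (Icc 1 n), max 0 (Mx T (Icc 1 n) 0 q) =
      ∑ q ∈ Pts (Icc 1 n), Mx T (Icc 1 n) 0 q :=
    sum_congr rfl fun q _ => max_eq_right (Mx_nonneg T _ _ _)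
  have h5 : ∑ q ∈ Pts (Icc 1 n), max 0 (Mx pathT (Icc 1 n) 0 q) =
      ∑ q ∈ Pts (Icc 1 n), Mx pathT (Icc 1 n) 0 q :=
    sum_congr rfl fun q _ => max_eq_right (Mx_nonneg pathT _ _ _)
  rw [h4, h5] at h1
  linarith

/-- walks making steps of size at most one along the relation -/
noncomputable def HH (n : ℕ) (A : ℕ → ℕ → Prop) : Finset (ℕ →₀ ℕ) := by
  classical exact (Pts (Icc 1 n)).filter fun q =>
    ∀ y ≤ n, ∀ z ≤ n, A y z → |hL T q y - hL T q z| ≤ 1

theorem mem_HH {n : ℕ} {A : ℕ → ℕ → Prop} {q : ℕ →₀ ℕ} :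
    q ∈ HH T n A ↔ q ∈ Pts (Icc 1 n) ∧ ∀ y ≤ n, ∀ z ≤ n, A y z → |hL T q y - hL T q z| ≤ 1 := by
  classical
  simp [HH]

/-- bounds encoding the relation -/
noncomputable def mR (A : ℕ → ℕ → Prop) (y z : ℕ) : ℤ := by
  classical exact if A y z then 1 else (T.A y).card + (T.A z).card

theorem mR_symm {A : ℕ → ℕ → Prop} (hA : ∀ y z, A y z → A z y) (y z : ℕ) :
    mR T A y z = mR T A z y := by
  classical
  unfold mR
  by_cases h : A y z
  · rw [if_pos h, if_pos (hA _ _ h)]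
  · rw [if_neg h, if_neg fun h' => h (hA _ _ h'), add_comm]

theorem mem_SL_mR {n : ℕ} {A : ℕ → ℕ → Prop} {q : ℕ →₀ ℕ} :
    q ∈ SL T n (mR T A) ↔ q ∈ HH T n A := by
  classical
  rw [mem_SL, mem_HH]
  refine and_congr_right fun hq => forall₂_congr fun y _ => forall₂_congr fun z _ => ?_
  rw [mem_Pts] at hq
  unfold mR
  by_cases h : A y z
  · rw [if_pos h]
    exact ⟨fun h4 _ => h4, fun h4 => h4 h⟩
  · rw [if_neg h]
    constructor
    · intro _ h'
      exact absurd h' h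
    · intro _
      have h1 := abs_hL_le T hq.2 y
      have h2 := abs_hL_le T hq.2 z
      rw [abs_le] at h1 h2 ⊢
      constructor <;> omega

theorem mem_SL_const {n k : ℕ} {q : ℕ →₀ ℕ} :
    q ∈ SL T n (fun _ _ => (k : ℤ)) ↔ q ∈ Pts (Icc 1 n) ∧ cv T n q ≤ k + 1 := by
  rw [mem_SL]
  refine and_congr_right fun hq => ?_
  have hq3 := (mem_Pts.1 hq).2
  constructor
  · intro h
    obtain ⟨y, hy, hy'⟩ := exists_Mx' T n q
    obtain ⟨z, hz, hz'⟩ := exists_Mx' T n (rv n q)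
    rw [hL_rv T hq3 hz] at hz'
    have h1 := cv_eq T (n := n) hq3
    have h2 := h y hy z hz
    rw [abs_le] at h2
    omega
  · intro h y hy z hz
    have h1 := cv_eq T (n := n) hq3
    have h2 := h_le_Mx T (n := n) q hy
    have h3 := h_le_Mx T (n := n) q hz
    have h4 := h_le_Mx T (n := n) (rv n q) hy
    have h5 := h_le_Mx T (n := n) (rv n q) hz
    rw [hL_rv T hq3 hy] at h4
    rw [hL_rv T hq3 hz] at h5
    rw [abs_le]
    constructor <;> omega

theorem cv_count {n : ℕ} {q : ℕ →₀ ℕ} (hq : ∀ i, q i < 3) :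
    (cv T n q : ℤ) = (n + 1) - ∑ k ∈ range n, if cv T n q ≤ k + 1 then (1 : ℤ) else 0 := by
  have h1 : cv T n q ≤ n + 1 := by
    have := card_image_le (s := range (n + 1)) (f := hL T q)
    rwa [card_range] at this
  have h2 : 1 ≤ cv T n q := by
    have h3 := cv_eq T (n := n) hq
    have h4 := Mx_nonneg T (Icc 1 n) 0 q
    have h5 := Mx_nonneg T (Icc 1 n) 0 (rv n q)
    omega
  generalize cv T n q = c at h1 h2
  have h3 : (range n).filter (fun k => c ≤ k + 1) = Ico (c - 1) n := by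
    ext k
    simp only [mem_filter, mem_range, mem_Ico]
    omega
  rw [← sum_filter, h3, sum_const, Nat.card_Ico]
  simp only [nsmul_eq_mul, mul_one]
  omega

/-- The constrained walk has on average at most as many values as the free walk on the tree. -/
theorem constrained_le (n : ℕ) {A : ℕ → ℕ → Prop} (hA : ∀ y z, A y z → A z y) :
    3 ^ n * ∑ q ∈ HH T n A, (cv T n q : ℤ) ≤
      (HH T n A).card * ∑ q ∈ Pts (Icc 1 n), (cv T n q : ℤ) := by
  classical
  have hg : ∀ k : ℕ, (((Pts (Icc 1 n)).filter fun q => cv T n q ≤ k + 1).card : ℤ) *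
      (HH T n A).card ≤ 3 ^ n * ((HH T n A).filter fun q => cv T n q ≤ k + 1).card := by
    intro k
    have h1 := gci T n (m := fun _ _ => (k : ℤ)) (m' := mR T A) (fun _ _ => rfl) (mR_symm T hA)
    have e1 : SL T n (fun _ _ => (k : ℤ)) = (Pts (Icc 1 n)).filter fun q => cv T n q ≤ k + 1 := by
      ext q
      rw [mem_SL_const, mem_filter]
    have e2 : SL T n (mR T A) = HH T n A := by
      ext q
      exact mem_SL_mR T
    have e3 : SL T n (fun y z => min ((fun _ _ => (k : ℤ)) y z) (mR T A y z)) =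
        (HH T n A).filter fun q => cv T n q ≤ k + 1 := by
      ext q
      rw [mem_filter, ← mem_SL_mR T]
      have h3 := mem_SL_const T (n := n) (k := k) (q := q)
      constructor
      · intro h
        rw [mem_SL] at h
        have h4 : q ∈ SL T n (mR T A) := by
          rw [mem_SL]
          exact ⟨h.1, fun y hy z hz => (h.2 y hy z hz).trans (min_le_right _ _)⟩
        have h5 : q ∈ SL T n (fun _ _ => (k : ℤ)) := by
          rw [mem_SL]
          exact ⟨h.1, fun y hy z hz => (h.2 y hy z hz).trans (min_le_left _ _)⟩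
        exact ⟨h4, (h3.1 h5).2⟩
      · rintro ⟨h4, h5⟩
        have h6 : q ∈ SL T n (fun _ _ => (k : ℤ)) := h3.2 ⟨((mem_SL T).1 h4).1, h5⟩
        rw [mem_SL] at h4 h6 ⊢
        exact ⟨h4.1, fun y hy z hz => le_min (h6.2 y hy z hz) (h4.2 y hy z hz)⟩
    rw [e1, e2, e3] at h1
    exact_mod_cast h1
  have hsum : ∀ s : Finset (ℕ →₀ ℕ), (∀ q ∈ s, ∀ i, q i < 3) → ∑ q ∈ s, (cv T n q : ℤ) =
      s.card * (n + 1) - ∑ k ∈ range n, ((s.filter fun q => cv T n q ≤ k + 1).card : ℤ) := by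
    intro s hs
    have e1 : ∑ q ∈ s, ∑ k ∈ range n, (if cv T n q ≤ k + 1 then (1 : ℤ) else 0) =
        ∑ k ∈ range n, ((s.filter fun q => cv T n q ≤ k + 1).card : ℤ) := by
      rw [sum_comm]
      apply sum_congr rfl
      intro k _
      rw [card_filter]
      push_cast
      rfl
    rw [sum_congr rfl fun q hq => cv_count T (hs q hq), sum_sub_distrib, sum_const, e1]
    simp
  rw [hsum (HH T n A) (fun q hq => (mem_Pts.1 ((mem_HH T).1 hq).1).2),
    hsum (Pts (Icc 1 n)) (fun q hq => (mem_Pts.1 hq).2), card_Pts, Nat.card_Icc,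
    Nat.add_sub_cancel, mul_sub, mul_sub, mul_sum, mul_sum]
  have h1 : ∑ k ∈ range n, ((HH T n A).card : ℤ) *
      ((Pts (Icc 1 n)).filter fun q => cv T n q ≤ k + 1).card ≤
      ∑ k ∈ range n, 3 ^ n * (((HH T n A).filter fun q => cv T n q ≤ k + 1).card : ℤ) := by
    apply sum_le_sum
    intro k _
    rw [mul_comm]
    exact hg k
  push_cast
  linarith

/-- Final comparison with the path. -/
theorem avg_le (n : ℕ) {A : ℕ → ℕ → Prop} (hA : ∀ y z, A y z → A z y) :
    3 ^ n * ∑ q ∈ HH T n A, (cv T n q : ℤ) ≤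
      (HH T n A).card * ∑ q ∈ Pts (Icc 1 n), (cv pathT n q : ℤ) :=
  (constrained_le T n hA).trans (mul_le_mul_of_nonneg_left (sum_cv_le T n) (by positivity))

end Pool.Agent.W113.Lazy
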