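import Pool.Agent.W113.LTree

set_option autoImplicit false

/-!
The number of points of `SL n m` is at most the dimension of `KL n m`.
-/

namespace Pool.Agent.W113.Lazy

open Finset Pool.Agent.W113.Range

/-- falling powers of the coordinates -/
noncomputable def chi (w q : ℕ →₀ ℕ) : ZMod 3 := w.prod fun e j => ((q e).descFactorial j : ZMod 3)

theorem chi_zero (q : ℕ →₀ ℕ) : chi 0 q = 1 := Finsupp.prod_zero_index

theorem chi_eq_prod {w q : ℕ →₀ ℕ} {s : Finset ℕ} (hs : w.support ⊆ s) :
    chi w q = ∏ e ∈ s, ((q e).descFactorial (w e) : ZMod 3) :=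
  Finsupp.prod_of_support_subset _ hs _ (by intro i _; simp)

theorem descF_succ (a b : ℕ) : ((a.descFactorial (b + 1) : ℕ) : ZMod 3) =
    ((a : ZMod 3) - (b : ZMod 3)) * (a.descFactorial b : ZMod 3) := by
  rw [Nat.descFactorial_succ]
  rcases le_or_gt b a with h | h
  · rw [Nat.cast_mul, Nat.cast_sub h]
  · have h1 : a.descFactorial b = 0 := Nat.descFactorial_eq_zero_iff_lt.2 h
    rw [h1]
    simp

theorem chi_succ (w q : ℕ →₀ ℕ) (e : ℕ) : chi (w + Finsupp.single e 1) q =
    ((q e : ZMod 3) - (w e : ZMod 3)) * chi w q := by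
  have hs1 : w.support ⊆ insert e w.support := subset_insert _ _
  have hs2 : (w + Finsupp.single e 1).support ⊆ insert e w.support := by
    intro i hi
    rw [Finsupp.mem_support_iff, Finsupp.add_apply] at hi
    rw [mem_insert, Finsupp.mem_support_iff]
    by_cases h : i = e
    · exact Or.inl h
    · right
      rw [Finsupp.single_eq_of_ne h, add_zero] at hi
      exact hi
  rw [chi_eq_prod hs1, chi_eq_prod hs2, ← mul_prod_erase _ _ (mem_insert_self e _),
    ← mul_prod_erase _ (fun i => ((q i).descFactorial (w i) : ZMod 3)) (mem_insert_self e _),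
    ← mul_assoc]
  congr 1
  · rw [Finsupp.add_apply, Finsupp.single_eq_same, descF_succ]
  · apply prod_congr rfl
    intro i hi
    rw [mem_erase] at hi
    rw [Finsupp.add_apply, Finsupp.single_eq_of_ne hi.1, add_zero]

/-- the functional of a point -/
noncomputable def Fq (q : ℕ →₀ ℕ) : Fn :=
  (MvPolynomial.basisMonomials ℕ (ZMod 3)).constr (ZMod 3) fun w => chi w q

theorem Fq_monomial (q w : ℕ →₀ ℕ) : Fq q (MvPolynomial.monomial w 1) = chi w q := by
  have h := (MvPolynomial.basisMonomials ℕ (ZMod 3)).constr_basis (ZMod 3) (fun w => chi w q) w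
  rw [MvPolynomial.coe_basisMonomials] at h
  exact h

/-- the degree operator in one variable -/
noncomputable def theta (e : ℕ) : R →ₗ[ZMod 3] R :=
  (MvPolynomial.basisMonomials ℕ (ZMod 3)).constr (ZMod 3)
    fun w => (w e : ZMod 3) • MvPolynomial.monomial w 1

theorem theta_monomial (e : ℕ) (w : ℕ →₀ ℕ) :
    theta e (MvPolynomial.monomial w 1) = (w e : ZMod 3) • MvPolynomial.monomial w 1 := by
  have h := (MvPolynomial.basisMonomials ℕ (ZMod 3)).constr_basis (ZMod 3)
    (fun w => (w e : ZMod 3) • (MvPolynomial.monomial w (1 : ZMod 3))) w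
  rw [MvPolynomial.coe_basisMonomials] at h
  exact h

theorem X_mul_monomial (e : ℕ) (w : ℕ →₀ ℕ) :
    (MvPolynomial.X e : R) * MvPolynomial.monomial w 1 =
      MvPolynomial.monomial (w + Finsupp.single e 1) 1 := by
  rw [MvPolynomial.X, MvPolynomial.monomial_mul, mul_one, add_comm]

theorem Fq_X_mul (q : ℕ →₀ ℕ) (e : ℕ) (P : R) :
    (q e : ZMod 3) * Fq q P = Fq q (MvPolynomial.X e * P) + Fq q (theta e P) := by
  have h : (q e : ZMod 3) • Fq q =
      Fq q ∘ₗ LinearMap.mulLeft (ZMod 3) (MvPolynomial.X e) + Fq q ∘ₗ theta e := by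
    apply fn_ext
    intro w
    rw [LinearMap.smul_apply, LinearMap.add_apply, LinearMap.comp_apply, LinearMap.comp_apply,
      LinearMap.mulLeft_apply, X_mul_monomial, theta_monomial, map_smul, Fq_monomial, Fq_monomial,
      chi_succ, smul_eq_mul, smul_eq_mul]
    ring
  exact LinearMap.congr_fun h P

/-- polynomials of degree less than `d` -/
noncomputable def LowDeg (d : ℕ) : Submodule (ZMod 3) R :=
  Submodule.span (ZMod 3) {P | ∃ w : ℕ →₀ ℕ, w.degree < d ∧ P = MvPolynomial.monomial w 1}

theorem LowDeg_mono {d d' : ℕ} (h : d ≤ d') : LowDeg d ≤ LowDeg d' := by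
  apply Submodule.span_mono
  rintro _ ⟨w, hw, rfl⟩
  exact ⟨w, by omega, rfl⟩

theorem LowDeg_theta {d e : ℕ} {P : R} (hP : P ∈ LowDeg d) : theta e P ∈ LowDeg d := by
  induction hP using Submodule.span_induction with
  | mem P h =>
    obtain ⟨w, hw, rfl⟩ := h
    rw [theta_monomial]
    exact Submodule.smul_mem _ _ (Submodule.subset_span ⟨w, hw, rfl⟩)
  | zero => rw [map_zero]; exact Submodule.zero_mem _
  | add x y _ _ hx hy => rw [map_add]; exact Submodule.add_mem _ hx hy
  | smul c x _ hx => rw [map_smul]; exact Submodule.smul_mem _ _ hx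

theorem LowDeg_X_mul {d e : ℕ} {P : R} (hP : P ∈ LowDeg d) :
    MvPolynomial.X e * P ∈ LowDeg (d + 1) := by
  induction hP using Submodule.span_induction with
  | mem P h =>
    obtain ⟨w, hw, rfl⟩ := h
    rw [X_mul_monomial]
    refine Submodule.subset_span ⟨_, ?_, rfl⟩
    rw [map_add, Finsupp.degree_single]
    omega
  | zero => rw [mul_zero]; exact Submodule.zero_mem _
  | add x y _ _ hx hy => rw [mul_add]; exact Submodule.add_mem _ hx hy
  | smul c x _ hx => rw [mul_smul_comm]; exact Submodule.smul_mem _ _ hx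

theorem LowDeg_of_homog {k : ℕ} {P : R} (hP : P.IsHomogeneous k) : P ∈ LowDeg (k + 1) := by
  rw [P.as_sum]
  apply Submodule.sum_mem
  intro w hw
  have h1 : MvPolynomial.monomial w (MvPolynomial.coeff w P) =
      (MvPolynomial.coeff w P) • MvPolynomial.monomial w (1 : ZMod 3) := by
    rw [MvPolynomial.smul_monomial, smul_eq_mul, mul_one]
  rw [h1]
  apply Submodule.smul_mem
  refine Submodule.subset_span ⟨w, ?_, rfl⟩
  by_contra h2
  exact (MvPolynomial.mem_support_iff.1 hw) (hP.coeff_eq_zero (by omega))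

/-- the function `g` on points has leading part `P` of degree `k` -/
def Rep (k : ℕ) (g : (ℕ →₀ ℕ) → ZMod 3) (P : R) : Prop :=
  P.IsHomogeneous k ∧ ∃ L ∈ LowDeg k, ∀ q : ℕ →₀ ℕ, (∀ i, q i < 3) → g q = Fq q (P + L)

theorem Rep.add {k : ℕ} {g g' : (ℕ →₀ ℕ) → ZMod 3} {P P' : R} (h : Rep k g P)
    (h' : Rep k g' P') : Rep k (fun q => g q + g' q) (P + P') := by
  obtain ⟨h1, L, hL, h2⟩ := h
  obtain ⟨h1', L', hL', h2'⟩ := h'
  refine ⟨h1.add h1', L + L', Submodule.add_mem _ hL hL', fun q hq => ?_⟩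
  beta_reduce
  rw [h2 q hq, h2' q hq, ← map_add]
  congr 1
  ring

theorem Rep.neg {k : ℕ} {g : (ℕ →₀ ℕ) → ZMod 3} {P : R} (h : Rep k g P) :
    Rep k (fun q => - g q) (-P) := by
  obtain ⟨h1, L, hL, h2⟩ := h
  refine ⟨h1.neg, -L, Submodule.neg_mem _ hL, fun q hq => ?_⟩
  beta_reduce
  rw [h2 q hq, ← map_neg]
  congr 1
  ring

theorem Rep.weaken {k : ℕ} {g : (ℕ →₀ ℕ) → ZMod 3} {P : R} (h : Rep k g P) (c : ZMod 3) :
    Rep (k + 1) (fun q => c * g q) 0 := by
  obtain ⟨h1, L, hL, h2⟩ := h
  refine ⟨MvPolynomial.isHomogeneous_zero _ _ _, c • (P + L), ?_, fun q hq => ?_⟩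
  · apply Submodule.smul_mem
    exact Submodule.add_mem _ (LowDeg_of_homog h1) (LowDeg_mono (by omega) hL)
  · beta_reduce
    rw [h2 q hq, zero_add, map_smul, smul_eq_mul]

theorem Rep.mulX {k : ℕ} {g : (ℕ →₀ ℕ) → ZMod 3} {P : R} (h : Rep k g P) (e : ℕ) :
    Rep (k + 1) (fun q => (q e : ZMod 3) * g q) (MvPolynomial.X e * P) := by
  obtain ⟨h1, L, hL, h2⟩ := h
  refine ⟨?_, MvPolynomial.X e * L + theta e (P + L), ?_, fun q hq => ?_⟩
  · rw [add_comm k 1]
    exact (MvPolynomial.isHomogeneous_X _ e).mul h1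
  · apply Submodule.add_mem _ (LowDeg_X_mul hL)
    apply LowDeg_theta
    exact Submodule.add_mem _ (LowDeg_of_homog h1) (LowDeg_mono (by omega) hL)
  · beta_reduce
    rw [h2 q hq, Fq_X_mul, ← map_add]
    congr 1
    ring

theorem Rep.congr {k : ℕ} {g g' : (ℕ →₀ ℕ) → ZMod 3} {P P' : R} (h : Rep k g P)
    (hg : ∀ q : ℕ →₀ ℕ, (∀ i, q i < 3) → g' q = g q) (hP : P' = P) : Rep k g' P' := by
  obtain ⟨h1, L, hL, h2⟩ := h
  subst hP
  exact ⟨h1, L, hL, fun q hq => by rw [hg q hq, h2 q hq]⟩

theorem Rep.chi {k : ℕ} {g : (ℕ →₀ ℕ) → ZMod 3} {P : R} (h : Rep k g P) (n : ℕ) :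
    ∀ w : ℕ →₀ ℕ, w.degree = n →
      Rep (n + k) (fun q => Lazy.chi w q * g q) (MvPolynomial.monomial w 1 * P) := by
  induction n with
  | zero =>
    intro w hw
    have hw0 : w = 0 := (Finsupp.degree_eq_zero_iff w).1 hw
    subst hw0
    rw [zero_add]
    apply h.congr
    · intro q _
      rw [chi_zero, one_mul]
    · rw [← MvPolynomial.C_apply, MvPolynomial.C_1, one_mul]
  | succ n ih =>
    intro w hw
    have hne : ∃ e, w e ≠ 0 := by
      by_contra h0
      push Not at h0
      have : w = 0 := Finsupp.ext h0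
      rw [this, map_zero] at hw
      omega
    obtain ⟨e, he⟩ := hne
    obtain ⟨w', hw'⟩ : ∃ w', w = w' + Finsupp.single e 1 := by
      refine ⟨w - Finsupp.single e 1, ?_⟩
      ext i
      rw [Finsupp.add_apply, Finsupp.tsub_apply]
      by_cases hi : i = e
      · subst hi
        rw [Finsupp.single_eq_same]
        omega
      · rw [Finsupp.single_eq_of_ne hi]
        omega
    have hdeg : w'.degree = n := by
      rw [hw', map_add, Finsupp.degree_single] at hw
      omega
    have h1 := ih w' hdeg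
    have h2 := (h1.mulX e).add (h1.weaken (-(w' e : ZMod 3)))
    have h3 : n + 1 + k = n + k + 1 := by omega
    rw [h3]
    apply h2.congr
    · intro q _
      rw [hw', chi_succ]
      ring
    · rw [add_zero, hw', ← X_mul_monomial, mul_assoc]

/-- all binomial coefficients of shifts of `u` have the given leading parts -/
def Uf (u : (ℕ →₀ ℕ) → ℤ) (g : Polynomial R) : Prop := ∀ (k : ℕ) (c : ℤ),
  Rep k (fun q => ((Ring.choose (c + u q) k : ℤ) : ZMod 3)) (g.coeff k)

theorem Uf_one : Uf (fun _ => 0) 1 := by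
  intro k c
  cases k with
  | zero =>
    refine ⟨?_, 0, Submodule.zero_mem _, fun q _ => ?_⟩
    · rw [Polynomial.coeff_one_zero]
      exact MvPolynomial.isHomogeneous_one _ _
    · simp only [Polynomial.coeff_one_zero, add_zero, Ring.choose_zero_right, Int.cast_one]
      rw [← MvPolynomial.C_1, MvPolynomial.C_apply, Fq_monomial, chi_zero]
  | succ k =>
    rw [Polynomial.coeff_one, if_neg (by omega)]
    refine ⟨MvPolynomial.isHomogeneous_zero _ _ _,
      ((Ring.choose (c + 0) (k + 1) : ℤ) : ZMod 3) • MvPolynomial.monomial 0 1, ?_, fun q _ => ?_⟩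
    · apply Submodule.smul_mem
      refine Submodule.subset_span ⟨0, ?_, rfl⟩
      rw [map_zero]
      omega
    · rw [zero_add, map_smul, Fq_monomial, chi_zero, smul_eq_mul, mul_one]

theorem choose_pred (y : ℤ) (k : ℕ) :
    Ring.choose (y - 1) (k + 1) = Ring.choose y (k + 1) - Ring.choose (y - 1) k := by
  have := Ring.choose_succ_succ (y - 1) k
  rw [sub_add_cancel] at this
  rw [this]
  ring

theorem choose_plus1 (a : ℤ) (x : ℕ) :
    ((Ring.choose (a + x) 1 : ℤ) : ZMod 3) = ((Ring.choose a 1 : ℤ) : ZMod 3) +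
      (x : ZMod 3) * ((Ring.choose a 0 : ℤ) : ZMod 3) := by
  simp

theorem choose_minus1 (a : ℤ) (x : ℕ) :
    ((Ring.choose (a - x) 1 : ℤ) : ZMod 3) = ((Ring.choose a 1 : ℤ) : ZMod 3) +
      -((x : ZMod 3) * ((Ring.choose (a - 1) 0 : ℤ) : ZMod 3)) := by
  simp
  ring

theorem choose_plus2 (a : ℤ) (x : ℕ) (hx : x < 3) (k : ℕ) :
    ((Ring.choose (a + x) (k + 2) : ℤ) : ZMod 3) = ((Ring.choose a (k + 2) : ℤ) : ZMod 3) +
      (x : ZMod 3) * ((Ring.choose a (k + 1) : ℤ) : ZMod 3) +
      (-((x : ZMod 3) * ((x : ZMod 3) * ((Ring.choose a k : ℤ) : ZMod 3))) +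
        1 * ((x : ZMod 3) * ((Ring.choose a k : ℤ) : ZMod 3))) := by
  have h3 : (3 : ZMod 3) = 0 := by decide
  interval_cases x
  · simp
  · rw [Nat.cast_one, Ring.choose_succ_succ]
    push_cast
    ring
  · have : a + ((2 : ℕ) : ℤ) = a + 1 + 1 := by push_cast; ring
    rw [this, Ring.choose_succ_succ, Ring.choose_succ_succ, Ring.choose_succ_succ]
    push_cast
    linear_combination ((Ring.choose a k : ℤ) : ZMod 3) * h3

theorem choose_minus2 (a : ℤ) (x : ℕ) (hx : x < 3) (k : ℕ) :
    ((Ring.choose (a - x) (k + 2) : ℤ) : ZMod 3) = ((Ring.choose a (k + 2) : ℤ) : ZMod 3) +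
      -((x : ZMod 3) * ((Ring.choose (a - 1) (k + 1) : ℤ) : ZMod 3)) +
      (-((x : ZMod 3) * ((x : ZMod 3) * ((Ring.choose (a - 2) k : ℤ) : ZMod 3))) +
        1 * ((x : ZMod 3) * ((Ring.choose (a - 2) k : ℤ) : ZMod 3))) := by
  have h3 : (3 : ZMod 3) = 0 := by decide
  interval_cases x
  · simp
  · have e1 : a - ((1 : ℕ) : ℤ) = a - 1 := by push_cast; ring
    rw [e1, choose_pred a (k + 1)]
    push_cast
    ring
  · have e1 : a - ((2 : ℕ) : ℤ) = a - 1 - 1 := by push_cast; ring
    have e2 : a - 2 = a - 1 - 1 := by ring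
    rw [e1, e2, choose_pred (a - 1) (k + 1), choose_pred a (k + 1), choose_pred (a - 1) k]
    push_cast
    linear_combination ((Ring.choose (a - 1 - 1) k : ℤ) : ZMod 3) * h3

theorem te_mul_coeff (e : ℕ) (g : Polynomial R) :
    (te e * g).coeff 0 = g.coeff 0 ∧
    (te e * g).coeff 1 = g.coeff 1 + MvPolynomial.X e * g.coeff 0 ∧
    ∀ k, (te e * g).coeff (k + 2) = g.coeff (k + 2) + MvPolynomial.X e * g.coeff (k + 1) +
      (-(MvPolynomial.X e * (MvPolynomial.X e * g.coeff k)) + 0) := by
  have h : te e * g = g + Polynomial.C (MvPolynomial.X e) * (Polynomial.X * g) -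
      Polynomial.C (MvPolynomial.X e ^ 2) * (Polynomial.X * (Polynomial.X * g)) := by
    unfold te
    ring
  rw [h]
  refine ⟨?_, ?_, fun k => ?_⟩
  · rw [Polynomial.coeff_sub, Polynomial.coeff_add, Polynomial.coeff_C_mul,
      Polynomial.coeff_C_mul, Polynomial.coeff_X_mul_zero, Polynomial.coeff_X_mul_zero]
    ring
  · rw [Polynomial.coeff_sub, Polynomial.coeff_add, Polynomial.coeff_C_mul,
      Polynomial.coeff_C_mul, Polynomial.coeff_X_mul, Polynomial.coeff_X_mul,
      Polynomial.coeff_X_mul_zero]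
    ring
  · rw [Polynomial.coeff_sub, Polynomial.coeff_add, Polynomial.coeff_C_mul,
      Polynomial.coeff_C_mul, Polynomial.coeff_X_mul, Polynomial.coeff_X_mul,
      Polynomial.coeff_X_mul]
    ring

theorem te'_mul_coeff (e : ℕ) (g : Polynomial R) :
    (te' e * g).coeff 0 = g.coeff 0 ∧
    (te' e * g).coeff 1 = g.coeff 1 + -(MvPolynomial.X e * g.coeff 0) ∧
    ∀ k, (te' e * g).coeff (k + 2) = g.coeff (k + 2) + -(MvPolynomial.X e * g.coeff (k + 1)) +
      (-(MvPolynomial.X e * (MvPolynomial.X e * g.coeff k)) + 0) := by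
  have h : te' e * g = g - Polynomial.C (MvPolynomial.X e) * (Polynomial.X * g) -
      Polynomial.C (MvPolynomial.X e ^ 2) * (Polynomial.X * (Polynomial.X * g)) := by
    unfold te'
    ring
  rw [h]
  refine ⟨?_, ?_, fun k => ?_⟩
  · rw [Polynomial.coeff_sub, Polynomial.coeff_sub, Polynomial.coeff_C_mul,
      Polynomial.coeff_C_mul, Polynomial.coeff_X_mul_zero, Polynomial.coeff_X_mul_zero]
    ring
  · rw [Polynomial.coeff_sub, Polynomial.coeff_sub, Polynomial.coeff_C_mul,
      Polynomial.coeff_C_mul, Polynomial.coeff_X_mul, Polynomial.coeff_X_mul,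
      Polynomial.coeff_X_mul_zero]
    ring
  · rw [Polynomial.coeff_sub, Polynomial.coeff_sub, Polynomial.coeff_C_mul,
      Polynomial.coeff_C_mul, Polynomial.coeff_X_mul, Polynomial.coeff_X_mul,
      Polynomial.coeff_X_mul]
    ring

theorem Uf.plus {u : (ℕ →₀ ℕ) → ℤ} {g : Polynomial R} (h : Uf u g) (e : ℕ) :
    Uf (fun q => u q + (q e : ℤ)) (te e * g) := by
  obtain ⟨c0, c1, c2⟩ := te_mul_coeff e g
  intro k c
  match k with
  | 0 =>
    apply (h 0 c).congr
    · intro q _
      rw [Ring.choose_zero_right, Ring.choose_zero_right]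
    · exact c0
  | 1 =>
    apply ((h 1 c).add ((h 0 c).mulX e)).congr
    · intro q hq
      rw [← add_assoc, choose_plus1]
    · exact c1
  | k + 2 =>
    apply (((h (k + 2) c).add ((h (k + 1) c).mulX e)).add
      ((((h k c).mulX e).mulX e).neg.add (((h k c).mulX e).weaken 1))).congr
    · intro q hq
      rw [← add_assoc, choose_plus2 _ _ (hq e)]
    · exact c2 k

theorem Uf.minus {u : (ℕ →₀ ℕ) → ℤ} {g : Polynomial R} (h : Uf u g) (e : ℕ) :
    Uf (fun q => u q - (q e : ℤ)) (te' e * g) := by
  obtain ⟨c0, c1, c2⟩ := te'_mul_coeff e g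
  intro k c
  match k with
  | 0 =>
    apply (h 0 c).congr
    · intro q _
      rw [Ring.choose_zero_right, Ring.choose_zero_right]
    · exact c0
  | 1 =>
    apply ((h 1 c).add ((h 0 (c - 1)).mulX e).neg).congr
    · intro q hq
      rw [← add_sub_assoc, choose_minus1]
      congr 4
      ring_nf
    · exact c1
  | k + 2 =>
    apply (((h (k + 2) c).add ((h (k + 1) (c - 1)).mulX e).neg).add
      ((((h k (c - 2)).mulX e).mulX e).neg.add (((h k (c - 2)).mulX e).weaken 1))).congr
    · intro q hq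
      rw [← add_sub_assoc, choose_minus2 _ _ (hq e)]
      have e1 : c + u q - 1 = c - 1 + u q := by ring
      have e2 : c + u q - 2 = c - 2 + u q := by ring
      rw [e1, e2]
    · exact c2 k

theorem Uf_pair (A B : Finset ℕ) :
    Uf (fun q => ∑ e ∈ A, (q e : ℤ) - ∑ e ∈ B, (q e : ℤ)) ((∏ e ∈ A, te e) * ∏ e ∈ B, te' e) := by
  induction A using Finset.induction_on with
  | empty =>
    induction B using Finset.induction_on with
    | empty => simpa using Uf_one
    | insert a B ha ih =>
      have h1 := ih.minus a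
      have h2 : te' a * ((∏ e ∈ (∅ : Finset ℕ), te e) * ∏ e ∈ B, te' e) =
          (∏ e ∈ (∅ : Finset ℕ), te e) * ∏ e ∈ insert a B, te' e := by
        rw [prod_insert ha]
        ring
      rw [h2] at h1
      have h3 : (fun q : ℕ →₀ ℕ => ∑ e ∈ (∅ : Finset ℕ), (q e : ℤ) - ∑ e ∈ insert a B, (q e : ℤ)) =
          fun q : ℕ →₀ ℕ => (∑ e ∈ (∅ : Finset ℕ), (q e : ℤ) - ∑ e ∈ B, (q e : ℤ)) - (q a : ℤ) := by
        funext q
        rw [sum_insert ha]
        ring
      rw [h3]
      exact h1
  | insert a A ha ih =>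
    have h1 := ih.plus a
    have h2 : te a * ((∏ e ∈ A, te e) * ∏ e ∈ B, te' e) =
        (∏ e ∈ insert a A, te e) * ∏ e ∈ B, te' e := by
      rw [prod_insert ha]
      ring
    rw [h2] at h1
    have h3 : (fun q : ℕ →₀ ℕ => ∑ e ∈ insert a A, (q e : ℤ) - ∑ e ∈ B, (q e : ℤ)) =
        fun q : ℕ →₀ ℕ => (∑ e ∈ A, (q e : ℤ) - ∑ e ∈ B, (q e : ℤ)) + (q a : ℤ) := by
      funext q
      rw [sum_insert ha]
      ring
    rw [h3]
    exact h1

/-- combination of the functionals of the points in `S` -/
noncomputable def Dmap (S : Finset (ℕ →₀ ℕ)) : (S → ZMod 3) →ₗ[ZMod 3] Fn :=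
  Fintype.linearCombination (ZMod 3) (fun q : S => Fq q.1)

theorem Dmap_apply (S : Finset (ℕ →₀ ℕ)) (c : S → ZMod 3) (P : R) :
    Dmap S c P = ∑ q : S, c q * Fq q.1 P := by
  unfold Dmap
  rw [Fintype.linearCombination_apply, LinearMap.sum_apply]
  rfl

theorem chi_ne_zero_le {w q : ℕ →₀ ℕ} (h : chi w q ≠ 0) (e : ℕ) : w e ≤ q e := by
  by_contra hlt
  push Not at hlt
  apply h
  have he : e ∈ w.support := by
    rw [Finsupp.mem_support_iff]
    omega
  rw [chi_eq_prod subset_rfl]
  apply prod_eq_zero he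
  rw [Nat.descFactorial_eq_zero_iff_lt.2 hlt, Nat.cast_zero]

theorem chi_self_ne_zero {q : ℕ →₀ ℕ} (hq : ∀ i, q i < 3) : chi q q ≠ 0 := by
  rw [chi_eq_prod subset_rfl, prod_ne_zero_iff]
  intro e _
  have h := hq e
  generalize q e = x at h
  interval_cases x <;> decide

theorem Dmap_injective {S : Finset (ℕ →₀ ℕ)} (hS : ∀ q ∈ S, ∀ i, q i < 3) :
    Function.Injective (Dmap S) := by
  classical
  rw [← LinearMap.ker_eq_bot, LinearMap.ker_eq_bot']
  intro c hc
  by_contra hne
  have hne' : ∃ q, c q ≠ 0 := by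
    by_contra h
    push Not at h
    exact hne (funext h)
  obtain ⟨q0, hq0, hmax⟩ := exists_max_image (univ.filter fun q : S => c q ≠ 0)
    (fun q => q.1.degree) (by obtain ⟨q, hq⟩ := hne'; exact ⟨q, by simp [hq]⟩)
  rw [mem_filter] at hq0
  apply hq0.2
  have h1 := LinearMap.congr_fun hc (MvPolynomial.monomial q0.1 1)
  rw [Dmap_apply, sum_eq_single q0] at h1
  · rw [Fq_monomial, LinearMap.zero_apply] at h1
    rcases mul_eq_zero.1 h1 with h2 | h2
    · exact h2
    · exact absurd h2 (chi_self_ne_zero (hS _ q0.2))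
  · intro q _ hqq
    by_cases hcq : c q = 0
    · rw [hcq, zero_mul]
    · have h2 := hmax q (by simp [hcq])
      rw [Fq_monomial]
      have h3 : chi q0.1 q.1 = 0 := by
        by_contra h4
        apply hqq
        apply Subtype.ext
        have h5 := chi_ne_zero_le h4
        have h6 : q.1 = q0.1 + (q.1 - q0.1) := by
          ext i
          rw [Finsupp.add_apply, Finsupp.tsub_apply]
          have := h5 i
          omega
        have h7 : (q.1 - q0.1).degree = 0 := by
          have h8 := congrArg Finsupp.degree h6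
          rw [map_add] at h8
          omega
        rw [(Finsupp.degree_eq_zero_iff _).1 h7, add_zero] at h6
        exact h6
      rw [h3, mul_zero]
  · intro h
    exact absurd (mem_univ _) h

/-- functionals vanishing in degrees less than `d` -/
def Fil (d : ℕ) : Submodule (ZMod 3) Fn where
  carrier := {F | ∀ w : ℕ →₀ ℕ, w.degree < d → F (MvPolynomial.monomial w 1) = 0}
  zero_mem' := fun U _ => rfl
  add_mem' := by
    intro F G hF hG U hU
    rw [LinearMap.add_apply, hF U hU, hG U hU, add_zero]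
  smul_mem' := by
    intro c F hF U hU
    rw [LinearMap.smul_apply, hF U hU, smul_zero]

theorem Fil_LowDeg {d : ℕ} {F : Fn} (hF : F ∈ Fil d) {P : R} (hP : P ∈ LowDeg d) : F P = 0 := by
  induction hP using Submodule.span_induction with
  | mem P h =>
    obtain ⟨w, hw, rfl⟩ := h
    exact hF w hw
  | zero => rw [map_zero]
  | add x y _ _ hx hy => rw [map_add, hx, hy, add_zero]
  | smul c x _ hx => rw [map_smul, hx, smul_zero]

/-- the part of degree `d` -/
noncomputable def piD (d : ℕ) : Fn →ₗ[ZMod 3] Fn where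
  toFun F := F ∘ₗ MvPolynomial.homogeneousComponent d
  map_add' F G := by ext; rfl
  map_smul' c F := by ext; rfl

theorem piD_homog {d k : ℕ} (F : Fn) {P : R} (hP : P.IsHomogeneous k) :
    piD d F P = if k = d then F P else 0 := by
  change F (MvPolynomial.homogeneousComponent d P) = _
  rw [MvPolynomial.homogeneousComponent_of_mem hP]
  split_ifs with h1 h2 h2
  · rfl
  · exact absurd h1.symm h2
  · exact absurd h2.symm h1
  · rw [map_zero]

theorem piD_monomial (d : ℕ) (F : Fn) (w : ℕ →₀ ℕ) : piD d F (MvPolynomial.monomial w 1) =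
    if w.degree = d then F (MvPolynomial.monomial w 1) else 0 :=
  piD_homog F (MvPolynomial.isHomogeneous_monomial 1 rfl)

/-- Comparison of dimensions through lowest degree parts. -/
theorem finrank_le_of_lowest {n : ℕ} {A B : Submodule (ZMod 3) Fn} (hA : A ≤ Supp n)
    (hB : B ≤ Supp n) (h : ∀ d, ∀ F ∈ A, F ∈ Fil d → piD d F ∈ B) :
    Module.finrank (ZMod 3) A ≤ Module.finrank (ZMod 3) B := by
  have key : ∀ j d : ℕ, d + j = 2 * n + 1 →
      Module.finrank (ZMod 3) (A ⊓ Fil d : Submodule (ZMod 3) Fn) ≤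
        Module.finrank (ZMod 3) (B ⊓ Fil d : Submodule (ZMod 3) Fn) := by
    intro j
    induction j with
    | zero =>
      intro d hd
      have : A ⊓ Fil d = ⊥ := by
        rw [eq_bot_iff]
        rintro F ⟨hF1, hF2⟩
        rw [Submodule.mem_bot]
        apply fn_ext
        intro w
        rw [LinearMap.zero_apply]
        by_cases hw : w ∈ Pts (Icc 1 n)
        · apply hF2
          rw [mem_Pts] at hw
          have h1 : w.degree ≤ ∑ i ∈ Icc 1 n, 2 := by
            rw [Finsupp.degree_apply]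
            have h2 : w.support ⊆ Icc 1 n := by
              intro i hi
              by_contra h3
              exact (Finsupp.mem_support_iff.1 hi) (hw.1 i h3)
            refine (sum_le_sum_of_subset h2).trans (sum_le_sum fun i _ => ?_)
            have := hw.2 i
            omega
          rw [sum_const, Nat.card_Icc, Nat.add_sub_cancel, smul_eq_mul] at h1
          omega
        · exact Supp_monomial (hA hF1) hw
      rw [this, finrank_bot]
      exact Nat.zero_le _
    | succ j ih =>
      intro d hd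
      have hih := ih (d + 1) (by omega)
      have fin : ∀ C : Submodule (ZMod 3) Fn, C ≤ Supp n → FiniteDimensional (ZMod 3) C :=
        fun C hC => Submodule.finiteDimensional_of_le hC
      have f1 := fin (A ⊓ Fil d) (inf_le_left.trans hA)
      have f2 := fin (B ⊓ Fil d) (inf_le_left.trans hB)
      have f3 := fin (B ⊓ Fil (d + 1)) (inf_le_left.trans hB)
      have f5 := fin (A ⊓ Fil (d + 1)) (inf_le_left.trans hA)
      set f : (A ⊓ Fil d : Submodule (ZMod 3) Fn) →ₗ[ZMod 3] Fn :=
        (piD d).comp (A ⊓ Fil d : Submodule (ZMod 3) Fn).subtype with hf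
      have hrange : LinearMap.range f ≤ B := by
        rintro _ ⟨F, rfl⟩
        exact h d F.1 F.2.1 F.2.2
      have hrange2 : LinearMap.range f ≤ Fil d := by
        rintro _ ⟨F, rfl⟩ w hw
        change piD d F.1 (MvPolynomial.monomial w 1) = 0
        rw [piD_monomial, if_neg (by omega)]
      have f4 := fin (LinearMap.range f) (hrange.trans hB)
      have hinf : LinearMap.range f ⊓ (B ⊓ Fil (d + 1)) = ⊥ := by
        rw [eq_bot_iff]
        rintro _ ⟨⟨F, rfl⟩, _, h2⟩
        rw [Submodule.mem_bot]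
        apply fn_ext
        intro w
        rw [LinearMap.zero_apply]
        by_cases hw : w.degree = d
        · exact h2 w (by omega)
        · change piD d F.1 (MvPolynomial.monomial w 1) = 0
          rw [piD_monomial, if_neg hw]
      have hker : Module.finrank (ZMod 3) (LinearMap.ker f) ≤
          Module.finrank (ZMod 3) (A ⊓ Fil (d + 1) : Submodule (ZMod 3) Fn) := by
        let g : LinearMap.ker f →ₗ[ZMod 3] (A ⊓ Fil (d + 1) : Submodule (ZMod 3) Fn) :=
          LinearMap.codRestrict _ ((A ⊓ Fil d : Submodule (ZMod 3) Fn).subtype.comp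
            (LinearMap.ker f).subtype) (by
            intro F
            refine ⟨F.1.2.1, fun w hw => ?_⟩
            have h1 : f F.1 = 0 := LinearMap.mem_ker.1 F.2
            rcases Nat.lt_or_ge w.degree d with h2 | h2
            · exact F.1.2.2 w h2
            · have h3 : w.degree = d := by omega
              have h4 := LinearMap.congr_fun h1 (MvPolynomial.monomial w 1)
              change piD d F.1.1 (MvPolynomial.monomial w 1) = 0 at h4
              rw [piD_monomial, if_pos h3] at h4
              exact h4)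
        apply LinearMap.finrank_le_finrank_of_injective (f := g)
        intro v w hvw
        apply Subtype.ext
        apply Subtype.ext
        have h5 : (g v).1 = (g w).1 := by rw [hvw]
        exact h5
      have hsup := Submodule.finrank_sup_add_finrank_inf_eq (LinearMap.range f) (B ⊓ Fil (d + 1))
      rw [hinf, finrank_bot, add_zero] at hsup
      have hle : LinearMap.range f ⊔ (B ⊓ Fil (d + 1)) ≤ B ⊓ Fil d := by
        apply sup_le (le_inf hrange hrange2)
        apply inf_le_inf_left
        intro F hF w hw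
        exact hF w (by omega)
      have hmono := Submodule.finrank_mono hle
      rw [← LinearMap.finrank_range_add_finrank_ker f]
      omega
  have h0 := key (2 * n + 1) 0 (by omega)
  have hFil : Fil 0 = ⊤ := by
    rw [eq_top_iff]
    intro F _ w hw
    omega
  rwa [hFil, inf_top_eq, inf_top_eq] at h0

variable (T : RTree)

theorem hL_sub (q : ℕ →₀ ℕ) (y z : ℕ) : hL T q y - hL T q z =
    (∑ e ∈ T.A y, (q e : ℤ) - ∑ e ∈ T.A z, (q e : ℤ)) - (T.A y).card + (T.A z).card := by
  unfold hL
  rw [sum_sub_distrib, sum_sub_distrib]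
  simp
  ring

theorem Dmap_vanish {n : ℕ} {m : ℕ → ℕ → ℤ} (c : SL T n m → ZMod 3) {i j : ℕ}
    (h : ∀ q ∈ Pts (Icc 1 n), q i < j) (P : R) :
    Dmap (SL T n m) c (MvPolynomial.X i ^ j * P) = 0 := by
  have hz : act (MvPolynomial.X i ^ j) (Dmap (SL T n m) c) = 0 := by
    apply fn_ext
    intro w
    rw [act_apply, Dmap_apply, LinearMap.zero_apply]
    apply sum_eq_zero
    intro q _
    have h1 : (MvPolynomial.X i : R) ^ j * MvPolynomial.monomial w 1 =
        MvPolynomial.monomial (Finsupp.single i j + w) 1 := by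
      rw [MvPolynomial.X_pow_eq_monomial, MvPolynomial.monomial_mul, mul_one]
    rw [h1, Fq_monomial]
    have h2 : chi (Finsupp.single i j + w) q.1 = 0 := by
      by_contra h3
      have h4 := chi_ne_zero_le h3 i
      rw [Finsupp.add_apply, Finsupp.single_eq_same] at h4
      have h5 := h q.1 ((mem_SL T).1 q.2).1
      omega
    rw [h2, mul_zero]
  exact LinearMap.congr_fun hz P

theorem lowest_mem {n : ℕ} {m : ℕ → ℕ → ℤ} (c : SL T n m → ZMod 3) {d : ℕ}
    (hd : Dmap (SL T n m) c ∈ Fil d) : piD d (Dmap (SL T n m) c) ∈ KL T n m := by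
  set F := Dmap (SL T n m) c with hF
  have hvan : ∀ i j : ℕ, (∀ q ∈ Pts (Icc 1 n), q i < j) →
      act (MvPolynomial.X i ^ j) (piD d F) = 0 := by
    intro i j hij
    apply fn_ext
    intro w
    have h1 : (MvPolynomial.X i : R) ^ j * MvPolynomial.monomial w 1 =
        MvPolynomial.monomial (Finsupp.single i j + w) 1 := by
      rw [MvPolynomial.X_pow_eq_monomial, MvPolynomial.monomial_mul, mul_one]
    rw [act_apply, LinearMap.zero_apply, h1, piD_monomial, ← h1, hF, Dmap_vanish T c hij]
    split_ifs <;> rfl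
  refine ⟨⟨fun i hi => ?_, fun i => ?_⟩, fun y hy z hz k hk => ?_⟩
  · have := hvan i 1 (fun q hq => by rw [(mem_Pts.1 hq).1 i hi]; norm_num)
    rwa [pow_one] at this
  · exact hvan i 3 (fun q hq => (mem_Pts.1 hq).2 i)
  · -- main case
    have hU := Uf_pair (T.A y) (T.A z) k (m y z - (T.A y).card + (T.A z).card)
    have hhom : ((tt T y z).coeff k).IsHomogeneous k := hU.1
    apply fn_ext
    intro w
    rw [LinearMap.zero_apply, act_apply]
    have hh2 : ((tt T y z).coeff k * MvPolynomial.monomial w 1).IsHomogeneous (k + w.degree) :=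
      hhom.mul (MvPolynomial.isHomogeneous_monomial 1 rfl)
    rw [piD_homog F hh2]
    split_ifs with hkd
    · obtain ⟨_, L, hL, hrep⟩ := hU.chi w.degree w rfl
      have h1 : ∀ q : SL T n m, Fq q.1 (MvPolynomial.monomial w 1 * (tt T y z).coeff k) =
          - Fq q.1 L := by
        intro q
        have hqm := (mem_SL T).1 q.2
        have h2 := hrep q.1 (mem_Pts.1 hqm.1).2
        beta_reduce at h2
        have h3 : Ring.choose (m y z - (T.A y).card + (T.A z).card +
            (∑ e ∈ T.A y, (q.1 e : ℤ) - ∑ e ∈ T.A z, (q.1 e : ℤ))) k = 0 := by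
          have h4 := hqm.2 y hy z hz
          have h5 := hL_sub T q.1 y z
          rw [abs_le] at h4
          obtain ⟨r, hr⟩ : ∃ r : ℕ, m y z - (T.A y).card + (T.A z).card +
              (∑ e ∈ T.A y, (q.1 e : ℤ) - ∑ e ∈ T.A z, (q.1 e : ℤ)) = (r : ℤ) :=
            ⟨(m y z - (T.A y).card + (T.A z).card +
              (∑ e ∈ T.A y, (q.1 e : ℤ) - ∑ e ∈ T.A z, (q.1 e : ℤ))).toNat, by omega⟩
          have hrk : r < k := by omega
          rw [hr, Ring.choose_natCast, Nat.choose_eq_zero_of_lt hrk]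
          rfl
        rw [h3, Int.cast_zero, mul_zero, map_add] at h2
        exact eq_neg_of_add_eq_zero_left h2.symm
      have h2 : F (MvPolynomial.monomial w 1 * (tt T y z).coeff k) = - F L := by
        rw [hF, Dmap_apply, Dmap_apply, ← sum_neg_distrib]
        apply sum_congr rfl
        intro q _
        rw [h1 q, mul_neg]
      rw [mul_comm, h2, Fil_LowDeg hd (LowDeg_mono (by omega) hL), neg_zero]
    · rfl

/-- The number of points is at most the dimension. -/
theorem card_SL_le (n : ℕ) (m : ℕ → ℕ → ℤ) :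
    (SL T n m).card ≤ Module.finrank (ZMod 3) (KL T n m) := by
  classical
  have hinj : Function.Injective (Dmap (SL T n m)) :=
    Dmap_injective fun q hq => (mem_Pts.1 ((mem_SL T).1 hq).1).2
  have h1 : Module.finrank (ZMod 3) (LinearMap.range (Dmap (SL T n m))) = (SL T n m).card := by
    rw [LinearMap.finrank_range_of_inj hinj, Module.finrank_fintype_fun_eq_card,
      Fintype.card_coe]
  rw [← h1]
  apply finrank_le_of_lowest (n := n)
  · rintro _ ⟨c, rfl⟩
    refine ⟨fun i hi => ?_, fun i => ?_⟩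
    · apply LinearMap.ext
      intro P
      have := Dmap_vanish T c (i := i) (j := 1)
        (fun q hq => by rw [(mem_Pts.1 hq).1 i hi]; norm_num) P
      rw [pow_one] at this
      exact this
    · apply LinearMap.ext
      intro P
      exact Dmap_vanish T c (i := i) (j := 3) (fun q hq => (mem_Pts.1 hq).2 i) P
  · exact KL_le T n m
  · rintro d _ ⟨c, rfl⟩ hd
    exact lowest_mem T c hd

end Pool.Agent.W113.Lazy
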