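import Pool.Agent.W113.LTree

set_option autoImplicit false

/-!
Dimension inequality for spaces of functionals closed under the ring action.
-/

namespace Pool.Agent.W113.Lazy

open Finset TensorProduct

section General

variable {V : Type*} [AddCommGroup V] [Module (ZMod 3) V] [FiniteDimensional (ZMod 3) V]

/-- common kernel of a family of operators -/
def cker (Z : ℕ → V →ₗ[ZMod 3] V) (s : Finset ℕ) : Submodule (ZMod 3) V where
  carrier := {v | ∀ i ∈ s, Z i v = 0}
  zero_mem' := fun i _ => map_zero _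
  add_mem' := by
    intro a b ha hb i hi
    rw [map_add, ha i hi, hb i hi, add_zero]
  smul_mem' := by
    intro c a ha i hi
    rw [map_smul, ha i hi, smul_zero]

theorem finrank_le_three {W : Type*} [AddCommGroup W] [Module (ZMod 3) W]
    [FiniteDimensional (ZMod 3) W] (f : W →ₗ[ZMod 3] W) (hf : ∀ w, f (f (f w)) = 0) :
    Module.finrank (ZMod 3) W ≤ 3 * Module.finrank (ZMod 3) (LinearMap.ker f) := by
  have h0 := LinearMap.finrank_range_add_finrank_ker f
  let g : LinearMap.range f →ₗ[ZMod 3] W := f.comp (LinearMap.range f).subtype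
  have h1 := LinearMap.finrank_range_add_finrank_ker g
  have h2 : LinearMap.range g ≤ LinearMap.ker f := by
    rintro _ ⟨⟨_, w, rfl⟩, rfl⟩
    rw [LinearMap.mem_ker]
    exact hf w
  have h3 := Submodule.finrank_mono h2
  have h4 : Module.finrank (ZMod 3) (LinearMap.ker g) ≤
      Module.finrank (ZMod 3) (LinearMap.ker f) := by
    let u : LinearMap.ker g →ₗ[ZMod 3] LinearMap.ker f :=
      LinearMap.codRestrict _ ((LinearMap.range f).subtype.comp (LinearMap.ker g).subtype) (by
        intro v
        rw [LinearMap.mem_ker]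
        exact LinearMap.mem_ker.1 v.2)
    apply LinearMap.finrank_le_finrank_of_injective (f := u)
    intro v w hvw
    apply Subtype.ext
    apply Subtype.ext
    have h5 : (u v).1 = (u w).1 := by rw [hvw]
    exact h5
  omega

theorem finrank_le_cker (Z : ℕ → V →ₗ[ZMod 3] V) (hc : ∀ i j v, Z i (Z j v) = Z j (Z i v))
    (hs : ∀ i v, Z i (Z i (Z i v)) = 0) (s : Finset ℕ) :
    Module.finrank (ZMod 3) V ≤ 3 ^ s.card * Module.finrank (ZMod 3) (cker Z s) := by
  induction s using Finset.induction_on with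
  | empty =>
    have : cker Z ∅ = ⊤ := by
      rw [eq_top_iff]
      intro v _ i hi
      exact absurd hi (notMem_empty i)
    rw [this, finrank_top]
    simp
  | insert j s hj ih =>
    refine ih.trans ?_
    rw [card_insert_of_notMem hj, pow_succ, mul_assoc]
    apply Nat.mul_le_mul_left
    have hmap : ∀ v ∈ cker Z s, Z j v ∈ cker Z s := by
      intro v hv i hi
      rw [hc, hv i hi, map_zero]
    let f : cker Z s →ₗ[ZMod 3] cker Z s := (Z j).restrict hmap
    refine (finrank_le_three f fun w => Subtype.ext (hs j w.1)).trans ?_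
    apply Nat.mul_le_mul_left
    let g : LinearMap.ker f →ₗ[ZMod 3] cker Z (insert j s) :=
      LinearMap.codRestrict _ ((cker Z s).subtype.comp (LinearMap.ker f).subtype) (by
        intro v i hi
        rw [mem_insert] at hi
        rcases hi with rfl | hi
        · exact congrArg Subtype.val (LinearMap.mem_ker.1 v.2)
        · exact v.1.2 i hi)
    apply LinearMap.finrank_le_finrank_of_injective (f := g)
    intro v w hvw
    apply Subtype.ext
    apply Subtype.ext
    have h5 : (g v).1 = (g w).1 := by rw [hvw]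
    exact h5

end General

section Product

variable (K L : Submodule (ZMod 3) Fn)

/-- tensors as functions of two arguments -/
noncomputable def Phi : (K ⊗[ZMod 3] L) →ₗ[ZMod 3] (R → R → ZMod 3) :=
  TensorProduct.lift (LinearMap.mk₂ (ZMod 3) (fun (k : K) (l : L) => fun U W => k.1 U * l.1 W)
    (by intro k k' l; funext U W; simp [add_mul])
    (by intro c k l; funext U W; simp [mul_assoc])
    (by intro k l l'; funext U W; simp [mul_add])
    (by intro c k l; funext U W; simp [mul_left_comm]))

theorem Phi_tmul (k : K) (l : L) (U W : R) : Phi K L (k ⊗ₜ l) U W = k.1 U * l.1 W := rfl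

theorem Phi_injective [FiniteDimensional (ZMod 3) L] : Function.Injective (Phi K L) := by
  classical
  rw [← LinearMap.ker_eq_bot, LinearMap.ker_eq_bot']
  intro t ht
  let B := Module.finBasis (ZMod 3) L
  obtain ⟨b, rfl⟩ := TensorProduct.eq_repr_basis_right B t
  have hb : b = 0 := by
    apply Finsupp.ext
    intro i
    apply Subtype.ext
    apply LinearMap.ext
    intro U
    have h1 : ∀ W, ∑ j, (b j).1 U * (B j).1 W = 0 := by
      intro W
      have h2 := congrFun (congrFun ht U) W
      rw [Finsupp.sum_fintype _ _ (by intro i; exact zero_tmul _ _), map_sum, Finset.sum_apply,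
        Finset.sum_apply] at h2
      simpa [Phi_tmul] using h2
    have h3 : ∑ j, (b j).1 U • B j = 0 := by
      apply Subtype.ext
      apply LinearMap.ext
      intro W
      rw [AddSubmonoidClass.coe_finsetSum, LinearMap.sum_apply]
      simpa using h1 W
    have h4 := Fintype.linearIndependent_iff.1 B.linearIndependent _ h3 i
    simpa using h4
  rw [hb, Finsupp.sum_zero_index]

theorem Phi_left (t : K ⊗[ZMod 3] L) (W : R) : ∃ k ∈ K, ∀ U, Phi K L t U W = k U := by
  induction t using TensorProduct.induction_on with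
  | zero => exact ⟨0, K.zero_mem, fun U => by rw [map_zero]; rfl⟩
  | tmul k l =>
    refine ⟨l.1 W • k.1, K.smul_mem _ k.2, fun U => ?_⟩
    rw [Phi_tmul, LinearMap.smul_apply, smul_eq_mul, mul_comm]
  | add x y hx hy =>
    obtain ⟨k, hk, hk'⟩ := hx
    obtain ⟨l, hl, hl'⟩ := hy
    refine ⟨k + l, K.add_mem hk hl, fun U => ?_⟩
    rw [map_add, Pi.add_apply, Pi.add_apply, hk', hl', LinearMap.add_apply]

theorem Phi_right (t : K ⊗[ZMod 3] L) (U : R) : ∃ l ∈ L, ∀ W, Phi K L t U W = l W := by
  induction t using TensorProduct.induction_on with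
  | zero => exact ⟨0, L.zero_mem, fun U => by rw [map_zero]; rfl⟩
  | tmul k l =>
    refine ⟨k.1 U • l.1, L.smul_mem _ l.2, fun W => ?_⟩
    rw [Phi_tmul, LinearMap.smul_apply, smul_eq_mul]
  | add x y hx hy =>
    obtain ⟨k, hk, hk'⟩ := hx
    obtain ⟨l, hl, hl'⟩ := hy
    refine ⟨k + l, L.add_mem hk hl, fun U => ?_⟩
    rw [map_add, Pi.add_apply, Pi.add_apply, hk', hl', LinearMap.add_apply]

variable {K L}

/-- the variable acting on the left factor minus the variable acting on the right factor -/
noncomputable def Zop (hK : ∀ P, ∀ F ∈ K, act P F ∈ K) (hL : ∀ P, ∀ F ∈ L, act P F ∈ L) (i : ℕ) :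
    (K ⊗[ZMod 3] L) →ₗ[ZMod 3] (K ⊗[ZMod 3] L) :=
  TensorProduct.map ((act (MvPolynomial.X i)).restrict (hK (MvPolynomial.X i)))
      (LinearMap.id : L →ₗ[ZMod 3] L) +
    (2 : ZMod 3) • TensorProduct.map (LinearMap.id : K →ₗ[ZMod 3] K)
      ((act (MvPolynomial.X i)).restrict (hL (MvPolynomial.X i)))

theorem Zop_tmul (hK : ∀ P, ∀ F ∈ K, act P F ∈ K) (hL : ∀ P, ∀ F ∈ L, act P F ∈ L) (i : ℕ)
    (k : K) (l : L) : Zop hK hL i (k ⊗ₜ l) =
      (act (MvPolynomial.X i)).restrict (hK _) k ⊗ₜ l +
        (2 : ZMod 3) • (k ⊗ₜ (act (MvPolynomial.X i)).restrict (hL _) l) := by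
  rw [Zop, LinearMap.add_apply, LinearMap.smul_apply, TensorProduct.map_tmul,
    TensorProduct.map_tmul, LinearMap.id_apply, LinearMap.id_apply]

theorem restrict_comm {K : Submodule (ZMod 3) Fn} (hK : ∀ P, ∀ F ∈ K, act P F ∈ K) (P Q : R)
    (k : K) : (act P).restrict (hK P) ((act Q).restrict (hK Q) k) =
      (act Q).restrict (hK Q) ((act P).restrict (hK P) k) :=
  Subtype.ext (act_comm _ _ _)

theorem Zop_comm (hK : ∀ P, ∀ F ∈ K, act P F ∈ K) (hL : ∀ P, ∀ F ∈ L, act P F ∈ L) (i j : ℕ)
    (t : K ⊗[ZMod 3] L) : Zop hK hL i (Zop hK hL j t) = Zop hK hL j (Zop hK hL i t) := by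
  induction t using TensorProduct.induction_on with
  | zero => simp
  | tmul k l =>
    simp only [Zop_tmul, map_add, map_smul]
    rw [restrict_comm hK (MvPolynomial.X i), restrict_comm hL (MvPolynomial.X i)]
    module
  | add x y hx hy => rw [map_add, map_add, map_add, map_add, hx, hy]

theorem Zop_cube (hK : ∀ P, ∀ F ∈ K, act P F ∈ K) (hL : ∀ P, ∀ F ∈ L, act P F ∈ L)
    (hK3 : ∀ i, ∀ F ∈ K, act (MvPolynomial.X i ^ 3) F = 0)
    (hL3 : ∀ i, ∀ F ∈ L, act (MvPolynomial.X i ^ 3) F = 0) (i : ℕ)
    (t : K ⊗[ZMod 3] L) : Zop hK hL i (Zop hK hL i (Zop hK hL i t)) = 0 := by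
  induction t using TensorProduct.induction_on with
  | zero => simp
  | tmul k l =>
    have h1 : ∀ k : K, (act (MvPolynomial.X i)).restrict (hK _)
        ((act (MvPolynomial.X i)).restrict (hK _)
          ((act (MvPolynomial.X i)).restrict (hK _) k)) = 0 := by
      intro k
      apply Subtype.ext
      change act (MvPolynomial.X i) (act (MvPolynomial.X i) (act (MvPolynomial.X i) k.1)) = 0
      rw [← act_mul, ← act_mul, ← hK3 i k.1 k.2]
      congr 1
      ring_nf
    have h2 : ∀ l : L, (act (MvPolynomial.X i)).restrict (hL _)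
        ((act (MvPolynomial.X i)).restrict (hL _)
          ((act (MvPolynomial.X i)).restrict (hL _) l)) = 0 := by
      intro l
      apply Subtype.ext
      change act (MvPolynomial.X i) (act (MvPolynomial.X i) (act (MvPolynomial.X i) l.1)) = 0
      rw [← act_mul, ← act_mul, ← hL3 i l.1 l.2]
      congr 1
      ring_nf
    simp only [Zop_tmul, map_add, map_smul]
    rw [h1, h2, zero_tmul, tmul_zero]
    generalize (act (MvPolynomial.X i)).restrict (hK _) ((act (MvPolynomial.X i)).restrict (hK _) k)
      ⊗ₜ[ZMod 3] (act (MvPolynomial.X i)).restrict (hL _) l = a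
    generalize (act (MvPolynomial.X i)).restrict (hK _) k ⊗ₜ[ZMod 3]
      (act (MvPolynomial.X i)).restrict (hL _) ((act (MvPolynomial.X i)).restrict (hL _) l) = b
    have h6 : (6 : ZMod 3) = 0 := by decide
    have h12 : (12 : ZMod 3) = 0 := by decide
    trans (6 : ZMod 3) • a + (12 : ZMod 3) • b
    · module
    · rw [h6, h12, zero_smul, zero_smul, add_zero]
  | add x y hx hy => rw [map_add, map_add, map_add, hx, hy, add_zero]

theorem Phi_Zop (hK : ∀ P, ∀ F ∈ K, act P F ∈ K) (hL : ∀ P, ∀ F ∈ L, act P F ∈ L) (i : ℕ)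
    (t : K ⊗[ZMod 3] L) (U W : R) : Phi K L (Zop hK hL i t) U W =
      Phi K L t (MvPolynomial.X i * U) W - Phi K L t U (MvPolynomial.X i * W) := by
  induction t using TensorProduct.induction_on with
  | zero => simp
  | tmul k l =>
    have h2 : (2 : ZMod 3) = -1 := by decide
    rw [Zop_tmul, map_add, map_smul, Pi.add_apply, Pi.add_apply, Pi.smul_apply, Pi.smul_apply,
      Phi_tmul, Phi_tmul, Phi_tmul, Phi_tmul, h2, smul_eq_mul, neg_one_mul, ← sub_eq_add_neg]
    rfl
  | add x y hx hy =>
    rw [map_add, map_add, map_add]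
    simp only [Pi.add_apply]
    rw [hx, hy]
    ring

theorem finrank_mul_le {n : ℕ} (hKN : K ≤ Supp n) (hLN : L ≤ Supp n)
    (hK : ∀ P, ∀ F ∈ K, act P F ∈ K) (hL : ∀ P, ∀ F ∈ L, act P F ∈ L) :
    Module.finrank (ZMod 3) K * Module.finrank (ZMod 3) L ≤
      3 ^ n * Module.finrank (ZMod 3) (K ⊓ L : Submodule (ZMod 3) Fn) := by
  have : FiniteDimensional (ZMod 3) K := Submodule.finiteDimensional_of_le hKN
  have : FiniteDimensional (ZMod 3) L := Submodule.finiteDimensional_of_le hLN
  have : FiniteDimensional (ZMod 3) (K ⊓ L : Submodule (ZMod 3) Fn) :=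
    Submodule.finiteDimensional_of_le (inf_le_left.trans hKN)
  rw [← Module.finrank_tensorProduct (R := ZMod 3) (S := ZMod 3)]
  have h0 := finrank_le_cker (Zop hK hL) (Zop_comm hK hL)
    (Zop_cube hK hL (fun i F hF => (hKN hF).2 i) (fun i F hF => (hLN hF).2 i)) (Icc 1 n)
  rw [Nat.card_Icc, Nat.add_sub_cancel] at h0
  refine h0.trans ?_
  apply Nat.mul_le_mul_left
  -- additivity in each argument
  have hadd1 : ∀ (t : K ⊗[ZMod 3] L) (U U' W : R),
      Phi K L t (U + U') W = Phi K L t U W + Phi K L t U' W := by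
    intro t U U' W
    obtain ⟨k, _, hk⟩ := Phi_left K L t W
    rw [hk, hk, hk, map_add]
  have hadd2 : ∀ (t : K ⊗[ZMod 3] L) (U W W' : R),
      Phi K L t U (W + W') = Phi K L t U W + Phi K L t U W' := by
    intro t U W W'
    obtain ⟨l, _, hl⟩ := Phi_right K L t U
    rw [hl, hl, hl, map_add]
  have hval : ∀ t ∈ cker (Zop hK hL) (Icc 1 n), ∀ P U W : R,
      Phi K L t (P * U) W = Phi K L t U (P * W) := by
    intro t ht P
    induction P using MvPolynomial.induction_on with
    | C a =>
      intro U W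
      obtain ⟨k, _, hk⟩ := Phi_left K L t W
      obtain ⟨l, _, hl⟩ := Phi_right K L t U
      rw [hk, ← MvPolynomial.smul_eq_C_mul, map_smul, ← hk, hl, ← MvPolynomial.smul_eq_C_mul, hl,
        map_smul]
    | add P Q hP hQ =>
      intro U W
      rw [add_mul, add_mul, hadd1, hadd2, hP, hQ]
    | mul_X P i hP =>
      intro U W
      have hX : ∀ U W, Phi K L t (MvPolynomial.X i * U) W = Phi K L t U (MvPolynomial.X i * W) := by
        intro U W
        by_cases hi : i ∈ Icc 1 n
        · have h1 := Phi_Zop hK hL i t U W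
          rw [ht i hi, map_zero, Pi.zero_apply, Pi.zero_apply] at h1
          exact (sub_eq_zero.1 h1.symm)
        · obtain ⟨k, hk1, hk⟩ := Phi_left K L t W
          obtain ⟨l, hl1, hl⟩ := Phi_right K L t U
          rw [hk, hl, ← act_apply, ← act_apply, (hKN hk1).1 i hi, (hLN hl1).1 i hi]
          rfl
      have h1 : P * MvPolynomial.X i * U = MvPolynomial.X i * (P * U) := by ring
      have h2 : P * MvPolynomial.X i * W = P * (MvPolynomial.X i * W) := by ring
      rw [h1, h2, hX, hP]
  have hmem : ∀ t ∈ cker (Zop hK hL) (Icc 1 n), ∃ F ∈ K ⊓ L, ∀ U, Phi K L t U 1 = F U := by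
    intro t ht
    obtain ⟨k, hk1, hk⟩ := Phi_left K L t 1
    obtain ⟨l, hl1, hl⟩ := Phi_right K L t 1
    have hkl : k = l := by
      apply LinearMap.ext
      intro U
      rw [← hk, ← hl]
      have := hval t ht U 1 1
      rwa [mul_one] at this
    exact ⟨k, ⟨hk1, hkl ▸ hl1⟩, hk⟩
  let g : cker (Zop hK hL) (Icc 1 n) →ₗ[ZMod 3] (K ⊓ L : Submodule (ZMod 3) Fn) :=
    { toFun := fun t => ⟨(hmem t.1 t.2).choose, (hmem t.1 t.2).choose_spec.1⟩
      map_add' := by
        intro s t
        apply Subtype.ext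
        apply LinearMap.ext
        intro U
        change (hmem (s + t).1 (s + t).2).choose U = (hmem s.1 s.2).choose U +
          (hmem t.1 t.2).choose U
        rw [← (hmem (s + t).1 (s + t).2).choose_spec.2, ← (hmem s.1 s.2).choose_spec.2,
          ← (hmem t.1 t.2).choose_spec.2, Submodule.coe_add, map_add]
        rfl
      map_smul' := by
        intro c t
        apply Subtype.ext
        apply LinearMap.ext
        intro U
        change (hmem (c • t).1 (c • t).2).choose U = c • (hmem t.1 t.2).choose U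
        rw [← (hmem (c • t).1 (c • t).2).choose_spec.2, ← (hmem t.1 t.2).choose_spec.2,
          Submodule.coe_smul, map_smul]
        rfl }
  apply LinearMap.finrank_le_finrank_of_injective (f := g)
  rw [← LinearMap.ker_eq_bot, LinearMap.ker_eq_bot']
  intro t ht
  have h0 : ∀ U, Phi K L t.1 U 1 = 0 := by
    intro U
    rw [(hmem t.1 t.2).choose_spec.2]
    have h1 : (g t).1 U = 0 := by rw [ht]; rfl
    exact h1
  apply Subtype.ext
  apply Phi_injective K L
  change Phi K L t.1 = Phi K L 0
  rw [map_zero]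
  funext U W
  have h1 := hval t.1 t.2 W U 1
  rw [mul_one] at h1
  rw [← h1, h0]
  rfl

end Product

/-- Product inequality for the spaces attached to difference constraints. -/
theorem finrank_KL_mul_le (T : Pool.Agent.W113.Range.RTree) (n : ℕ) (m m' : ℕ → ℕ → ℤ) :
    Module.finrank (ZMod 3) (KL T n m) * Module.finrank (ZMod 3) (KL T n m') ≤
      3 ^ n * Module.finrank (ZMod 3) (KL T n (fun y z => min (m y z) (m' y z))) := by
  have h1 := finrank_mul_le (KL_le T n m) (KL_le T n m')
    (fun P F hF => KL_act T hF P) (fun P F hF => KL_act T hF P)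
  refine h1.trans ?_
  apply Nat.mul_le_mul_left
  apply Submodule.finrank_mono
  exact KL_inf T n m m'

end Pool.Agent.W113.Lazy
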