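import Pool.Agent.W113.LUpper2
import Pool.Agent.W113.LLower
import Pool.Agent.W113.LTensor

set_option autoImplicit false

/-!
The correlation inequality for tree-indexed walks with steps in `{-1, 0, 1}` and difference constraints.
-/

namespace Pool.Agent.W113.Lazy

open Finset Pool.Agent.W113.Range

theorem gci (T : RTree) (n : ℕ) {m m' : ℕ → ℕ → ℤ} (hm : ∀ y z, m y z = m z y)
    (hm' : ∀ y z, m' y z = m' z y) : (SL T n m).card * (SL T n m').card ≤
      3 ^ n * (SL T n (fun y z => min (m y z) (m' y z))).card := by
  have hg : ∀ y z, (fun y z => min (m y z) (m' y z)) y z = (fun y z => min (m y z) (m' y z)) z y := by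
    intro y z
    change min (m y z) (m' y z) = min (m z y) (m' z y)
    rw [hm y z, hm' y z]
  calc (SL T n m).card * (SL T n m').card
      ≤ _ := Nat.mul_le_mul (card_SL_le T n m) (card_SL_le T n m')
    _ ≤ _ := finrank_KL_mul_le T n m m'
    _ ≤ _ := Nat.mul_le_mul_left _ (finrank_KL_le T n _ hg)

end Pool.Agent.W113.Lazy
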