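import Pool.Agent.W113.Tree

set_option autoImplicit false

/-!
Functionals on a polynomial ring over the three-element field, used for the correlation inequality for
tree-indexed walks with steps in `{-1, 0, 1}` and difference constraints.
-/

namespace Pool.Agent.W113.Lazy

open Finset Pool.Agent.W113.Range

/-- polynomials in countably many variables over the three-element field -/
abbrev R := MvPolynomial ℕ (ZMod 3)

/-- linear functionals -/
abbrev Fn := R →ₗ[ZMod 3] ZMod 3

/-- the action of the ring on functionals -/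
noncomputable def act (P : R) : Fn →ₗ[ZMod 3] Fn where
  toFun F := F ∘ₗ LinearMap.mulLeft (ZMod 3) P
  map_add' F G := by ext; rfl
  map_smul' c F := by ext; rfl

theorem act_apply (P : R) (F : Fn) (Q : R) : act P F Q = F (P * Q) := rfl

theorem act_mul (P Q : R) (F : Fn) : act (P * Q) F = act P (act Q F) := by
  apply LinearMap.ext
  intro S
  rw [act_apply, act_apply, act_apply]
  congr 1
  ring

theorem act_comm (P Q : R) (F : Fn) : act P (act Q F) = act Q (act P F) := by
  rw [← act_mul, ← act_mul, mul_comm]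

theorem act_add (P Q : R) (F : Fn) : act (P + Q) F = act P F + act Q F := by
  apply LinearMap.ext
  intro S
  rw [LinearMap.add_apply, act_apply, act_apply, act_apply, add_mul, map_add]

theorem act_sub (P Q : R) (F : Fn) : act (P - Q) F = act P F - act Q F := by
  apply LinearMap.ext
  intro S
  rw [LinearMap.sub_apply, act_apply, act_apply, act_apply, sub_mul, map_sub]

theorem act_neg (P : R) (F : Fn) : act (-P) F = - act P F := by
  apply LinearMap.ext
  intro S
  rw [LinearMap.neg_apply, act_apply, act_apply, neg_mul, map_neg]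

theorem act_zero (F : Fn) : act 0 F = 0 := by
  apply LinearMap.ext
  intro S
  rw [act_apply, zero_mul, map_zero, LinearMap.zero_apply]

theorem act_one (F : Fn) : act 1 F = F := by
  apply LinearMap.ext
  intro S
  rw [act_apply, one_mul]

theorem act_sum {ι : Type*} (s : Finset ι) (P : ι → R) (F : Fn) :
    act (∑ i ∈ s, P i) F = ∑ i ∈ s, act (P i) F := by
  classical
  induction s using Finset.induction_on with
  | empty => rw [sum_empty, sum_empty, act_zero]
  | insert a s ha ih => rw [sum_insert ha, sum_insert ha, act_add, ih]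

theorem fn_ext {F G : Fn}
    (h : ∀ w : ℕ →₀ ℕ, F (MvPolynomial.monomial w 1) = G (MvPolynomial.monomial w 1)) : F = G := by
  apply (MvPolynomial.basisMonomials ℕ (ZMod 3)).ext
  intro w
  rw [MvPolynomial.coe_basisMonomials]
  exact h w

/-- `F` has degree at most `a` along the generating polynomial `g` -/
def Dg (g : Polynomial R) (a : ℤ) (F : Fn) : Prop := ∀ k : ℕ, a < k → act (g.coeff k) F = 0

theorem Dg.mul {g g' : Polynomial R} {a b : ℤ} {F : Fn} (h : Dg g a F) (h' : Dg g' b F) :
    Dg (g * g') (a + b) F := by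
  intro k hk
  rw [Polynomial.coeff_mul, act_sum]
  apply sum_eq_zero
  intro x hx
  rw [HasAntidiagonal.mem_antidiagonal] at hx
  rw [act_mul]
  by_cases hb : b < x.2
  · rw [h' _ hb, map_zero]
  · have ha : a < x.1 := by
      have : (x.1 : ℤ) + x.2 = k := by exact_mod_cast hx
      omega
    rw [act_comm, h _ ha, map_zero]

theorem Dg.act {g : Polynomial R} {a : ℤ} {F : Fn} (h : Dg g a F) (P : R) :
    Dg g a (Lazy.act P F) := by
  intro k hk
  rw [act_comm, h k hk, map_zero]

/-- generating polynomial of an edge -/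
noncomputable def te (e : ℕ) : Polynomial R :=
  1 + Polynomial.C (MvPolynomial.X e) * Polynomial.X -
    Polynomial.C (MvPolynomial.X e ^ 2) * Polynomial.X ^ 2

/-- generating polynomial of a reversed edge -/
noncomputable def te' (e : ℕ) : Polynomial R :=
  1 - Polynomial.C (MvPolynomial.X e) * Polynomial.X -
    Polynomial.C (MvPolynomial.X e ^ 2) * Polynomial.X ^ 2

theorem three_eq_zero : (3 : Polynomial R) = 0 := by
  have h : (3 : ZMod 3) = 0 := by decide
  have h2 : (3 : R) = 0 := by
    have := congrArg (MvPolynomial.C (σ := ℕ)) h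
    rwa [map_ofNat, map_zero] at this
  have := congrArg (Polynomial.C) h2
  rwa [map_ofNat, map_zero] at this

theorem te_mul_te' (e : ℕ) : te e * te' e =
    1 + Polynomial.C (MvPolynomial.X e ^ 4) * Polynomial.X ^ 4 := by
  have h := three_eq_zero
  unfold te te'
  simp only [map_pow]
  linear_combination (- Polynomial.C (MvPolynomial.X e) ^ 2 * Polynomial.X ^ 2) * h

/-- Vanishing of cubes makes a pair of opposite edges act trivially. -/
theorem act_coeff_mul {F : Fn} {e : ℕ} (hF : act (MvPolynomial.X e ^ 3) F = 0)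
    (g : Polynomial R) (k : ℕ) : act ((g * (te e * te' e)).coeff k) F = act (g.coeff k) F := by
  rw [te_mul_te', mul_add, mul_one, Polynomial.coeff_add, act_add, ← mul_assoc,
    Polynomial.coeff_mul_X_pow']
  have : act (if 4 ≤ k then (g * Polynomial.C (MvPolynomial.X e ^ 4)).coeff (k - 4) else 0) F = 0 := by
    split_ifs with h
    · rw [Polynomial.coeff_mul_C]
      have h2 : g.coeff (k - 4) * MvPolynomial.X e ^ 4 =
          (g.coeff (k - 4) * MvPolynomial.X e) * MvPolynomial.X e ^ 3 := by ring
      rw [h2, act_mul, hF, map_zero]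
    · exact act_zero F
  rw [this, add_zero]

theorem act_coeff_prod {F : Fn} (hF : ∀ e, act (MvPolynomial.X e ^ 3) F = 0)
    (g : Polynomial R) (A : Finset ℕ) (k : ℕ) :
    act ((g * ((∏ e ∈ A, te e) * ∏ e ∈ A, te' e)).coeff k) F = act (g.coeff k) F := by
  induction A using Finset.induction_on generalizing g with
  | empty => rw [prod_empty, prod_empty, mul_one, mul_one]
  | insert a A ha ih =>
    rw [prod_insert ha, prod_insert ha]
    have h1 : g * ((te a * ∏ e ∈ A, te e) * (te' a * ∏ e ∈ A, te' e)) =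
        (g * (te a * te' a)) * ((∏ e ∈ A, te e) * ∏ e ∈ A, te' e) := by ring
    rw [h1, ih, act_coeff_mul (hF a)]

/-- functionals with bounded support -/
def Supp (n : ℕ) : Submodule (ZMod 3) Fn where
  carrier := {F | (∀ i, i ∉ Icc 1 n → act (MvPolynomial.X i) F = 0) ∧
    ∀ i, act (MvPolynomial.X i ^ 3) F = 0}
  zero_mem' := ⟨fun i _ => map_zero _, fun i => map_zero _⟩
  add_mem' := by
    rintro F G ⟨hF1, hF2⟩ ⟨hG1, hG2⟩
    refine ⟨fun i hi => ?_, fun i => ?_⟩
    · rw [map_add, hF1 i hi, hG1 i hi, add_zero]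
    · rw [map_add, hF2 i, hG2 i, add_zero]
  smul_mem' := by
    rintro c F ⟨hF1, hF2⟩
    refine ⟨fun i hi => ?_, fun i => ?_⟩
    · rw [map_smul, hF1 i hi, smul_zero]
    · rw [map_smul, hF2 i, smul_zero]

/-- points: exponents in `{0, 1, 2}` supported on `J` -/
noncomputable def Pts (J : Finset ℕ) : Finset (ℕ →₀ ℕ) := J.finsupp fun _ => range 3

theorem mem_Pts {J : Finset ℕ} {q : ℕ →₀ ℕ} :
    q ∈ Pts J ↔ (∀ i, i ∉ J → q i = 0) ∧ ∀ i, q i < 3 := by
  unfold Pts
  rw [Finset.mem_finsupp_iff]
  constructor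
  · rintro ⟨h1, h2⟩
    have h3 : ∀ i, i ∉ J → q i = 0 := by
      intro i hi
      by_contra h
      exact hi (h1 (Finsupp.mem_support_iff.2 h))
    refine ⟨h3, fun i => ?_⟩
    by_cases hi : i ∈ J
    · exact mem_range.1 (h2 i hi)
    · rw [h3 i hi]; norm_num
  · rintro ⟨h1, h2⟩
    refine ⟨?_, fun i _ => mem_range.2 (h2 i)⟩
    intro i hi
    by_contra h
    exact (Finsupp.mem_support_iff.1 hi) (h1 i h)

theorem monomial_split {w : ℕ →₀ ℕ} {i j : ℕ} (h : j ≤ w i) :
    (MvPolynomial.monomial w (1 : ZMod 3)) =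
      MvPolynomial.X i ^ j * MvPolynomial.monomial (w - Finsupp.single i j) 1 := by
  have h0 : w = Finsupp.single i j + (w - Finsupp.single i j) := by
    ext a
    rw [Finsupp.add_apply, Finsupp.tsub_apply]
    by_cases ha : i = a
    · subst ha
      rw [Finsupp.single_eq_same]
      omega
    · rw [Finsupp.single_eq_of_ne (Ne.symm ha)]
      omega
  rw [MvPolynomial.X_pow_eq_monomial, MvPolynomial.monomial_mul, mul_one, ← h0]

theorem Supp_monomial {n : ℕ} {F : Fn} (hF : F ∈ Supp n) {w : ℕ →₀ ℕ} (hw : w ∉ Pts (Icc 1 n)) :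
    F (MvPolynomial.monomial w 1) = 0 := by
  rw [mem_Pts] at hw
  by_cases h : ∀ i, i ∉ Icc 1 n → w i = 0
  · have h2 : ¬ ∀ i, w i < 3 := fun h3 => hw ⟨h, h3⟩
    push Not at h2
    obtain ⟨i, hi⟩ := h2
    rw [monomial_split hi, ← act_apply, hF.2 i, LinearMap.zero_apply]
  · push Not at h
    obtain ⟨i, hi, hi2⟩ := h
    have h3 : 1 ≤ w i := by omega
    rw [monomial_split h3, pow_one, ← act_apply, hF.1 i hi, LinearMap.zero_apply]

/-- values at the monomials with exponents in `Pts` -/
noncomputable def suppRes (n : ℕ) : Supp n →ₗ[ZMod 3] (Pts (Icc 1 n) → ZMod 3) where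
  toFun F := fun w => F.1 (MvPolynomial.monomial w.1 1)
  map_add' _ _ := rfl
  map_smul' _ _ := rfl

theorem suppRes_injective (n : ℕ) : Function.Injective (suppRes n) := by
  intro F G h
  apply Subtype.ext
  apply fn_ext
  intro w
  by_cases hw : w ∈ Pts (Icc 1 n)
  · exact congrFun h ⟨w, hw⟩
  · rw [Supp_monomial F.2 hw, Supp_monomial G.2 hw]

instance (n : ℕ) : FiniteDimensional (ZMod 3) (Supp n) :=
  FiniteDimensional.of_injective (suppRes n) (suppRes_injective n)

end Pool.Agent.W113.Lazy
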