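import Pool.Agent.W113.LOps

set_option autoImplicit false

/-!
Heights for steps in `{-1, 0, 1}`, points meeting difference constraints, and the attached spaces.
-/

namespace Pool.Agent.W113.Lazy

open Finset Pool.Agent.W113.Range

variable (T : RTree)

/-- the height of `y` at the point `q` -/
def hL (q : ℕ →₀ ℕ) (y : ℕ) : ℤ := ∑ e ∈ T.A y, ((q e : ℤ) - 1)

theorem hL_zero (q : ℕ →₀ ℕ) : hL T q 0 = 0 := by simp [hL, T.A_zero]

theorem hL_pos (q : ℕ →₀ ℕ) {x : ℕ} (hx : 1 ≤ x) :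
    hL T q x = ((q x : ℤ) - 1) + hL T q (T.p x) := by
  rw [hL, T.A_pos x hx, sum_insert (T.notMem_A_p hx), hL]

theorem hL_congr {q q' : ℕ →₀ ℕ} {y : ℕ} (hq : ∀ e ∈ T.A y, q e = q' e) :
    hL T q y = hL T q' y := by
  apply sum_congr rfl
  intro e he
  rw [hq e he]

theorem abs_hL_le {q : ℕ →₀ ℕ} (hq : ∀ i, q i < 3) (y : ℕ) : |hL T q y| ≤ (T.A y).card := by
  rw [hL, card_eq_sum_ones]
  push_cast
  refine (abs_sum_le_sum_abs _ _).trans (sum_le_sum fun e _ => ?_)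
  have := hq e
  rw [abs_le]
  constructor <;> omega

/-- points meeting all difference constraints -/
noncomputable def SL (n : ℕ) (m : ℕ → ℕ → ℤ) : Finset (ℕ →₀ ℕ) := by
  classical exact (Pts (Icc 1 n)).filter fun q => ∀ y ≤ n, ∀ z ≤ n, |hL T q y - hL T q z| ≤ m y z

theorem mem_SL {n : ℕ} {m : ℕ → ℕ → ℤ} {q : ℕ →₀ ℕ} :
    q ∈ SL T n m ↔ q ∈ Pts (Icc 1 n) ∧ ∀ y ≤ n, ∀ z ≤ n, |hL T q y - hL T q z| ≤ m y z := by
  classical
  simp [SL]

/-- generating polynomial of the root path -/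
noncomputable def tau (y : ℕ) : Polynomial R := ∏ e ∈ T.A y, te e

/-- generating polynomial of the reversed root path -/
noncomputable def tau' (y : ℕ) : Polynomial R := ∏ e ∈ T.A y, te' e

/-- generating polynomial of the path between two vertices -/
noncomputable def tt (y z : ℕ) : Polynomial R := tau T y * tau' T z

theorem tau_pos {x : ℕ} (hx : 1 ≤ x) : tau T x = te x * tau T (T.p x) := by
  rw [tau, T.A_pos x hx, prod_insert (T.notMem_A_p hx), tau]

theorem tau'_pos {x : ℕ} (hx : 1 ≤ x) : tau' T x = te' x * tau' T (T.p x) := by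
  rw [tau', T.A_pos x hx, prod_insert (T.notMem_A_p hx), tau']

theorem act_tt_mul {F : Fn} (hF : ∀ e, act (MvPolynomial.X e ^ 3) F = 0) (y v z k : ℕ) :
    act ((tt T y v * tt T v z).coeff k) F = act ((tt T y z).coeff k) F := by
  have h : tt T y v * tt T v z = tt T y z * ((∏ e ∈ T.A v, te e) * ∏ e ∈ T.A v, te' e) := by
    unfold tt tau tau'
    ring
  rw [h, act_coeff_prod hF]

theorem Dg.triangle {F : Fn} (hF : ∀ e, Lazy.act (MvPolynomial.X e ^ 3) F = 0) {y v z : ℕ} {a b : ℤ}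
    (h : Dg (tt T y v) a F) (h' : Dg (tt T v z) b F) : Dg (tt T y z) (a + b) F := by
  intro k hk
  rw [← act_tt_mul T hF y v z]
  exact (h.mul h') k hk

/-- the space attached to difference constraints -/
def KL (n : ℕ) (m : ℕ → ℕ → ℤ) : Submodule (ZMod 3) Fn where
  carrier := {F | F ∈ Supp n ∧ ∀ y ≤ n, ∀ z ≤ n, Dg (tt T y z) (2 * m y z) F}
  zero_mem' := ⟨Submodule.zero_mem _, fun y _ z _ k _ => map_zero _⟩
  add_mem' := by
    rintro F G ⟨hF1, hF2⟩ ⟨hG1, hG2⟩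
    refine ⟨Submodule.add_mem _ hF1 hG1, fun y hy z hz k hk => ?_⟩
    rw [map_add, hF2 y hy z hz k hk, hG2 y hy z hz k hk, add_zero]
  smul_mem' := by
    rintro c F ⟨hF1, hF2⟩
    refine ⟨Submodule.smul_mem _ _ hF1, fun y hy z hz k hk => ?_⟩
    rw [map_smul, hF2 y hy z hz k hk, smul_zero]

theorem KL_le (n : ℕ) (m : ℕ → ℕ → ℤ) : KL T n m ≤ Supp n := fun _ hF => hF.1

instance (n : ℕ) (m : ℕ → ℕ → ℤ) : FiniteDimensional (ZMod 3) (KL T n m) :=
  Submodule.finiteDimensional_of_le (KL_le T n m)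

theorem KL_inf (n : ℕ) (m m' : ℕ → ℕ → ℤ) :
    KL T n m ⊓ KL T n m' ≤ KL T n (fun y z => min (m y z) (m' y z)) := by
  rintro F ⟨h1, h2⟩
  refine ⟨h1.1, fun y hy z hz k hk => ?_⟩
  change 2 * min (m y z) (m' y z) < (k : ℤ) at hk
  rcases le_total (m y z) (m' y z) with h | h
  · rw [min_eq_left h] at hk
    exact h1.2 y hy z hz k hk
  · rw [min_eq_right h] at hk
    exact h2.2 y hy z hz k hk

theorem Supp_act {n : ℕ} {F : Fn} (hF : F ∈ Supp n) (P : R) : act P F ∈ Supp n := by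
  refine ⟨fun i hi => ?_, fun i => ?_⟩
  · rw [act_comm, hF.1 i hi, map_zero]
  · rw [act_comm, hF.2 i, map_zero]

theorem KL_act {n : ℕ} {m : ℕ → ℕ → ℤ} {F : Fn} (hF : F ∈ KL T n m) (P : R) :
    act P F ∈ KL T n m :=
  ⟨Supp_act hF.1 P, fun y hy z hz => (hF.2 y hy z hz).act P⟩

end Pool.Agent.W113.Lazy
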