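import Pool.Agent.W113.LTree

set_option autoImplicit false

/-!
The dimension of `KL n m` is at most the number of points of `SL n m`.
-/

namespace Pool.Agent.W113.Lazy

open Finset Pool.Agent.W113.Range

/-- substitution of zero for one variable -/
noncomputable def ev (v : ℕ) : R →ₐ[ZMod 3] R :=
  MvPolynomial.aeval fun i => if i = v then 0 else MvPolynomial.X i

theorem ev_X_self (v : ℕ) : ev v (MvPolynomial.X v) = 0 := by
  simp [ev]

theorem ev_X_ne {v i : ℕ} (h : i ≠ v) : ev v (MvPolynomial.X i) = MvPolynomial.X i := by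
  simp [ev, h]

/-- restriction of functionals to polynomials without one variable -/
noncomputable def rho (v : ℕ) : Fn →ₗ[ZMod 3] Fn where
  toFun F := F ∘ₗ (ev v).toLinearMap
  map_add' F G := by ext; rfl
  map_smul' c F := by ext; rfl

theorem rho_apply (v : ℕ) (F : Fn) (Q : R) : rho v F Q = F (ev v Q) := rfl

theorem act_rho {v : ℕ} {P : R} (hP : ev v P = P) (F : Fn) :
    act P (rho v F) = rho v (act P F) := by
  apply LinearMap.ext
  intro Q
  rw [act_apply, rho_apply, rho_apply, act_apply, map_mul, hP]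

theorem act_X_rho (v : ℕ) (F : Fn) : act (MvPolynomial.X v) (rho v F) = 0 := by
  apply LinearMap.ext
  intro Q
  rw [act_apply, rho_apply, map_mul, ev_X_self, zero_mul, map_zero, LinearMap.zero_apply]

/-- the coefficients do not involve the variable `v` -/
def Fx (v : ℕ) (g : Polynomial R) : Prop := g.map (ev v : R →+* R) = g

theorem Fx.coeff {v : ℕ} {g : Polynomial R} (h : Fx v g) (k : ℕ) : ev v (g.coeff k) = g.coeff k := by
  have := congrArg (fun g => Polynomial.coeff g k) h
  simpa [Polynomial.coeff_map] using this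

theorem Fx.mul {v : ℕ} {g g' : Polynomial R} (h : Fx v g) (h' : Fx v g') : Fx v (g * g') := by
  unfold Fx at *
  rw [Polynomial.map_mul, h, h']

theorem Fx_X (v : ℕ) : Fx v Polynomial.X := by
  unfold Fx
  rw [Polynomial.map_X]

theorem Fx_te {v e : ℕ} (h : e ≠ v) : Fx v (te e) := by
  unfold Fx te
  simp [ev_X_ne h]

theorem Fx_te' {v e : ℕ} (h : e ≠ v) : Fx v (te' e) := by
  unfold Fx te'
  simp [ev_X_ne h]

theorem Fx_tt (T : RTree) {n y z : ℕ} (hy : y ≤ n) (hz : z ≤ n) : Fx (n + 1) (tt T y z) := by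
  unfold tt
  apply Fx.mul
  · unfold tau Fx
    rw [Polynomial.map_prod]
    apply prod_congr rfl
    intro e he
    apply Fx_te
    rintro rfl
    exact T.notMem_A_of_lt (by omega) he
  · unfold tau' Fx
    rw [Polynomial.map_prod]
    apply prod_congr rfl
    intro e he
    apply Fx_te'
    rintro rfl
    exact T.notMem_A_of_lt (by omega) he

/-- difference operator on double sequences -/
noncomputable def dl (G : ℕ → ℕ → Fn) (i j : ℕ) : Fn :=
  (match i with
    | 0 => 0
    | i + 1 => G i j) -
  (match j with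
    | 0 => 0
    | j + 1 => G i j)

/-- a double sequence vanishing beyond the given bounds -/
def Bd (G : ℕ → ℕ → Fn) (a b : ℤ) : Prop := ∀ i j : ℕ, (a < i ∨ b < j) → G i j = 0

theorem dl_succ_left (G : ℕ → ℕ → Fn) (i : ℕ) :
    dl G (i + 1) 0 = G i 0 ∧ ∀ j, dl G (i + 1) (j + 1) = G i (j + 1) - G (i + 1) j := by
  constructor
  · change G i 0 - 0 = G i 0
    rw [sub_zero]
  · intro j
    rfl

theorem dl_zero_left (G : ℕ → ℕ → Fn) (j : ℕ) : dl G 0 (j + 1) = - G 0 j := by
  change 0 - G 0 j = - G 0 j
  rw [zero_sub]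

theorem Bd.of_dl {G : ℕ → ℕ → Fn} {a b : ℤ} (h : Bd (dl G) a b) : Bd G (a - 1) (b - 1) := by
  have h1 : ∀ j i : ℕ, a - 1 < i → G i j = 0 := by
    intro j
    induction j with
    | zero =>
      intro i hi
      have h2 := h (i + 1) 0 (Or.inl (by push_cast; omega))
      rwa [(dl_succ_left G i).1] at h2
    | succ j ih =>
      intro i hi
      have h2 := h (i + 1) (j + 1) (Or.inl (by push_cast; omega))
      rw [(dl_succ_left G i).2, ih (i + 1) (by push_cast; omega), sub_zero] at h2
      exact h2
  have h3 : ∀ i j : ℕ, b - 1 < j → G i j = 0 := by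
    intro i
    induction i with
    | zero =>
      intro j hj
      have h2 := h 0 (j + 1) (Or.inr (by push_cast; omega))
      rwa [dl_zero_left, neg_eq_zero] at h2
    | succ i ih =>
      intro j hj
      have h2 := h (i + 1) (j + 1) (Or.inr (by push_cast; omega))
      rw [(dl_succ_left G i).2, ih (j + 1) (by push_cast; omega), zero_sub, neg_eq_zero] at h2
      exact h2
  intro i j hij
  rcases hij with hij | hij
  · exact h1 j i hij
  · exact h3 i j hij

theorem sum_dl (G : ℕ → ℕ → Fn) (k : ℕ) : ∑ x ∈ antidiagonal k, dl G x.1 x.2 = 0 := by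
  unfold dl
  rw [sum_sub_distrib]
  cases k with
  | zero => simp
  | succ k =>
    rw [Finset.Nat.sum_antidiagonal_succ, Finset.Nat.sum_antidiagonal_succ']
    simp

/-- double sequence attached to two generating polynomials -/
noncomputable def Bf (g g' : Polynomial R) (F : Fn) (i j : ℕ) : Fn :=
  act (g.coeff i) (act (g'.coeff j) F)

theorem dl_Bf (g g' : Polynomial R) (F : Fn) (i j : ℕ) : dl (Bf g g' F) i j =
    Bf (Polynomial.X * g) g' F i j - Bf g (Polynomial.X * g') F i j := by
  have h1 : ∀ i, (match i with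
      | 0 => 0
      | i + 1 => Bf g g' F i j) = Bf (Polynomial.X * g) g' F i j := by
    intro i
    cases i with
    | zero =>
      unfold Bf
      rw [Polynomial.coeff_X_mul_zero, act_zero]
    | succ i =>
      unfold Bf
      rw [Polynomial.coeff_X_mul]
  have h2 : ∀ j, (match j with
      | 0 => 0
      | j + 1 => Bf g g' F i j) = Bf g (Polynomial.X * g') F i j := by
    intro j
    cases j with
    | zero =>
      unfold Bf
      rw [Polynomial.coeff_X_mul_zero, act_zero, map_zero]
    | succ i =>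
      unfold Bf
      rw [Polynomial.coeff_X_mul]
  unfold dl
  rw [h1, h2]

theorem dl_sub (G H : ℕ → ℕ → Fn) (i j : ℕ) :
    dl (fun i j => G i j - H i j) i j = dl G i j - dl H i j := by
  unfold dl
  cases i <;> cases j <;> simp <;> abel

theorem sum_Bf (g g' : Polynomial R) (F : Fn) (k : ℕ) :
    ∑ x ∈ antidiagonal k, Bf g g' F x.1 x.2 = act ((g * g').coeff k) F := by
  rw [Polynomial.coeff_mul, act_sum]
  apply sum_congr rfl
  intro x _
  rw [act_mul]
  rfl

theorem rho_Bf {v : ℕ} {g g' : Polynomial R} (hg : Fx v g) (hg' : Fx v g') (F : Fn) (i j : ℕ) :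
    rho v (Bf g g' F i j) = Bf g g' (rho v F) i j := by
  unfold Bf
  rw [act_rho (hg'.coeff j), act_rho (hg.coeff i)]

/-- Restriction of the double sequence of the two paths through the last vertex. -/
theorem rho_double {v : ℕ} {g g' : Polynomial R} (hg : Fx v g) (hg' : Fx v g') {F : Fn}
    (hF : act (MvPolynomial.X v ^ 3) F = 0) (i j : ℕ) :
    rho v (Bf (te v * g) (te' v * g') F i j) =
      Bf g g' (rho v F) i j + dl (Bf g g' (rho v (act (MvPolynomial.X v) F))) i j -
        dl (dl (Bf g g' (rho v (act (MvPolynomial.X v ^ 2) F)))) i j := by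
  have hXg := (Fx_X v).mul hg
  have hXg' := (Fx_X v).mul hg'
  have hXXg := (Fx_X v).mul hXg
  have hXXg' := (Fx_X v).mul hXg'
  -- expansion of the coefficients
  have c1 : ∀ i, (te v * g).coeff i = g.coeff i + MvPolynomial.X v * (Polynomial.X * g).coeff i -
      MvPolynomial.X v ^ 2 * (Polynomial.X * (Polynomial.X * g)).coeff i := by
    intro i
    have : te v * g = g + Polynomial.C (MvPolynomial.X v) * (Polynomial.X * g) -
        Polynomial.C (MvPolynomial.X v ^ 2) * (Polynomial.X * (Polynomial.X * g)) := by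
      unfold te
      ring
    rw [this, Polynomial.coeff_sub, Polynomial.coeff_add, Polynomial.coeff_C_mul,
      Polynomial.coeff_C_mul]
  have c2 : ∀ j, (te' v * g').coeff j =
      g'.coeff j - MvPolynomial.X v * (Polynomial.X * g').coeff j -
      MvPolynomial.X v ^ 2 * (Polynomial.X * (Polynomial.X * g')).coeff j := by
    intro j
    have : te' v * g' = g' - Polynomial.C (MvPolynomial.X v) * (Polynomial.X * g') -
        Polynomial.C (MvPolynomial.X v ^ 2) * (Polynomial.X * (Polynomial.X * g')) := by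
      unfold te'
      ring
    rw [this, Polynomial.coeff_sub, Polynomial.coeff_sub, Polynomial.coeff_C_mul,
      Polynomial.coeff_C_mul]
  have hdd : dl (dl (Bf g g' (rho v (act (MvPolynomial.X v ^ 2) F)))) i j =
      Bf (Polynomial.X * (Polynomial.X * g)) g' (rho v (act (MvPolynomial.X v ^ 2) F)) i j -
      Bf (Polynomial.X * g) (Polynomial.X * g') (rho v (act (MvPolynomial.X v ^ 2) F)) i j -
      (Bf (Polynomial.X * g) (Polynomial.X * g') (rho v (act (MvPolynomial.X v ^ 2) F)) i j -
      Bf g (Polynomial.X * (Polynomial.X * g')) (rho v (act (MvPolynomial.X v ^ 2) F)) i j) := by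
    have : dl (Bf g g' (rho v (act (MvPolynomial.X v ^ 2) F))) = fun i j =>
        Bf (Polynomial.X * g) g' (rho v (act (MvPolynomial.X v ^ 2) F)) i j -
        Bf g (Polynomial.X * g') (rho v (act (MvPolynomial.X v ^ 2) F)) i j := by
      funext i j
      exact dl_Bf _ _ _ _ _
    rw [this, dl_sub, dl_Bf, dl_Bf]
  rw [hdd, dl_Bf, ← rho_Bf hg hg', ← rho_Bf hXg hg', ← rho_Bf hg hXg', ← rho_Bf hXXg hg',
    ← rho_Bf hXg hXg', ← rho_Bf hg hXXg', ← map_sub, ← map_sub, ← map_sub, ← map_sub, ← map_add,
    ← map_sub]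
  congr 1
  unfold Bf
  simp only [← act_mul, ← act_add, ← act_sub]
  rw [c1, c2]
  generalize (Polynomial.X * (Polynomial.X * g)).coeff i = g2
  generalize (Polynomial.X * g).coeff i = g1
  generalize g.coeff i = g0
  generalize (Polynomial.X * (Polynomial.X * g')).coeff j = k2
  generalize (Polynomial.X * g').coeff j = k1
  generalize g'.coeff j = k0
  have h3 : (3 : R) = 0 := by
    have := congrArg (MvPolynomial.C (σ := ℕ)) (show (3 : ZMod 3) = 0 from by decide)
    rwa [map_ofNat, map_zero] at this
  have key : (g0 + MvPolynomial.X v * g1 - MvPolynomial.X v ^ 2 * g2) *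
      (k0 - MvPolynomial.X v * k1 - MvPolynomial.X v ^ 2 * k2) =
      (g0 * k0 + (g1 * (k0 * MvPolynomial.X v) - g0 * (k1 * MvPolynomial.X v)) -
        (g2 * (k0 * MvPolynomial.X v ^ 2) - g1 * (k1 * MvPolynomial.X v ^ 2) -
          (g1 * (k1 * MvPolynomial.X v ^ 2) - g0 * (k2 * MvPolynomial.X v ^ 2)))) +
      (g2 * k1 - g1 * k2 + MvPolynomial.X v * g2 * k2) * MvPolynomial.X v ^ 3 := by
    linear_combination (- MvPolynomial.X v ^ 2 * g1 * k1) * h3
  rw [key, act_add, act_mul _ (MvPolynomial.X v ^ 3), hF, map_zero, add_zero]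

end Pool.Agent.W113.Lazy
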