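import Pool.Agent.W113.LUpper

set_option autoImplicit false

/-!
The dimension of `KL n m` is at most the number of points of `SL n m`: induction step.
-/

namespace Pool.Agent.W113.Lazy

open Finset Pool.Agent.W113.Range

variable (T : RTree)

/-- bound towards the last vertex -/
def mu (n : ℕ) (m : ℕ → ℕ → ℤ) (y : ℕ) : ℤ :=
  if y = T.p (n + 1) then min (m (n + 1) y) 1 else m (n + 1) y

/-- reduced bounds -/
def mj (j : ℤ) (n : ℕ) (m : ℕ → ℕ → ℤ) (y z : ℕ) : ℤ := min (m y z) (mu T n m y + mu T n m z - j)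

theorem mu_le (n : ℕ) (m : ℕ → ℕ → ℤ) (y : ℕ) : mu T n m y ≤ m (n + 1) y := by
  unfold mu
  split_ifs
  · exact min_le_left _ _
  · exact le_rfl

theorem mu_p_le (n : ℕ) (m : ℕ → ℕ → ℤ) : mu T n m (T.p (n + 1)) ≤ 1 := by
  unfold mu
  rw [if_pos rfl]
  exact min_le_right _ _

theorem te_coeff {e k : ℕ} (hk : 2 < k) : (te e).coeff k = 0 := by
  unfold te
  rw [Polynomial.coeff_sub, Polynomial.coeff_add, Polynomial.coeff_C_mul, Polynomial.coeff_C_mul,
    Polynomial.coeff_one, Polynomial.coeff_X, Polynomial.coeff_X_pow, if_neg (by omega),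
    if_neg (by omega), if_neg (by omega)]
  ring

theorem te'_coeff {e k : ℕ} (hk : 2 < k) : (te' e).coeff k = 0 := by
  unfold te'
  rw [Polynomial.coeff_sub, Polynomial.coeff_sub, Polynomial.coeff_C_mul, Polynomial.coeff_C_mul,
    Polynomial.coeff_one, Polynomial.coeff_X, Polynomial.coeff_X_pow, if_neg (by omega),
    if_neg (by omega), if_neg (by omega)]
  ring

theorem Dg_mu {n : ℕ} {m : ℕ → ℕ → ℤ} {F : Fn} (hF : F ∈ KL T (n + 1) m) {y : ℕ} (hy : y ≤ n) :
    Dg (tt T (n + 1) y) (2 * mu T n m y) F := by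
  have h1 := hF.2 (n + 1) le_rfl y (by omega)
  unfold mu
  split_ifs with h
  · intro k hk
    rcases le_total (m (n + 1) y) 1 with h2 | h2
    · rw [min_eq_left h2] at hk
      exact h1 k hk
    · rw [min_eq_right h2] at hk
      have h3 : tt T (n + 1) y = te (n + 1) * ((∏ e ∈ T.A (T.p (n + 1)), te e) *
          ∏ e ∈ T.A (T.p (n + 1)), te' e) := by
        unfold tt
        rw [tau_pos T (by omega), h, mul_assoc]
        rfl
      rw [h3, act_coeff_prod hF.1.2, te_coeff (by omega), act_zero]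
  · exact h1

theorem Dg_mu' {n : ℕ} {m : ℕ → ℕ → ℤ} (hm : ∀ y z, m y z = m z y) {F : Fn}
    (hF : F ∈ KL T (n + 1) m) {y : ℕ} (hy : y ≤ n) :
    Dg (tt T y (n + 1)) (2 * mu T n m y) F := by
  have h1 := hF.2 y (by omega) (n + 1) le_rfl
  rw [hm y (n + 1)] at h1
  unfold mu
  split_ifs with h
  · intro k hk
    rcases le_total (m (n + 1) y) 1 with h2 | h2
    · rw [min_eq_left h2] at hk
      exact h1 k hk
    · rw [min_eq_right h2] at hk
      have h3 : tt T y (n + 1) = te' (n + 1) * ((∏ e ∈ T.A (T.p (n + 1)), te e) *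
          ∏ e ∈ T.A (T.p (n + 1)), te' e) := by
        unfold tt
        rw [tau'_pos T (x := n + 1) (by omega), h, mul_left_comm]
        rfl
      rw [h3, act_coeff_prod hF.1.2, te'_coeff (by omega), act_zero]
  · exact h1

/-- the part of order `j` in the last variable -/
noncomputable def Fj (n j : ℕ) : Fn →ₗ[ZMod 3] Fn :=
  (rho (n + 1)).comp (act (MvPolynomial.X (n + 1) ^ j))

theorem Fj_apply (n j : ℕ) (F : Fn) :
    Fj n j F = rho (n + 1) (act (MvPolynomial.X (n + 1) ^ j) F) := rfl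

theorem Fj_supp {n : ℕ} {F : Fn} (hF : F ∈ Supp (n + 1)) (j : ℕ) : Fj n j F ∈ Supp n := by
  rw [Fj_apply]
  constructor
  · intro i hi
    by_cases h : i = n + 1
    · rw [h, act_X_rho]
    · rw [act_rho (ev_X_ne h), act_comm, hF.1 i, map_zero, map_zero]
      intro h2
      apply hi
      rw [mem_Icc] at h2 ⊢
      omega
  · intro i
    by_cases h : i = n + 1
    · rw [h, pow_succ, act_mul, act_X_rho, map_zero]
    · have h2 : ev (n + 1) (MvPolynomial.X i ^ 3) = MvPolynomial.X i ^ 3 := by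
        rw [map_pow, ev_X_ne h]
      rw [act_rho h2, act_comm, hF.2 i, map_zero, map_zero]

theorem Fj_old {n : ℕ} {m : ℕ → ℕ → ℤ} {F : Fn} (hF : F ∈ KL T (n + 1) m) (j : ℕ) {y z : ℕ}
    (hy : y ≤ n) (hz : z ≤ n) : Dg (tt T y z) (2 * m y z) (Fj n j F) := by
  intro k hk
  rw [Fj_apply, act_rho ((Fx_tt T hy hz).coeff k), act_comm, hF.2 y (by omega) z (by omega) k hk,
    map_zero, map_zero]

/-- vanishing of the double sequence of the two paths through the last vertex -/
theorem Bd_W {n : ℕ} {m : ℕ → ℕ → ℤ} (hm : ∀ y z, m y z = m z y) {F : Fn}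
    (hF : F ∈ KL T (n + 1) m) {y z : ℕ} (hy : y ≤ n) (hz : z ≤ n) :
    Bd (fun i j => Bf (tt T (T.p (n + 1)) y) (tt T z (T.p (n + 1))) (Fj n 0 F) i j +
      dl (Bf (tt T (T.p (n + 1)) y) (tt T z (T.p (n + 1))) (Fj n 1 F)) i j -
      dl (dl (Bf (tt T (T.p (n + 1)) y) (tt T z (T.p (n + 1))) (Fj n 2 F))) i j)
      (2 * mu T n m y) (2 * mu T n m z) := by
  have hpn : T.p (n + 1) ≤ n := by have := T.p_lt (n + 1) (by omega); omega
  intro i j hij
  have h1 := rho_double (Fx_tt T hpn hy) (Fx_tt T hz hpn) (hF.1.2 (n + 1)) i j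
  have e0 : Fj n 0 F = rho (n + 1) F := by rw [Fj_apply, pow_zero, act_one]
  have e1 : Fj n 1 F = rho (n + 1) (act (MvPolynomial.X (n + 1)) F) := by rw [Fj_apply, pow_one]
  have e2 : Fj n 2 F = rho (n + 1) (act (MvPolynomial.X (n + 1) ^ 2) F) := rfl
  rw [← e0, ← e1, ← e2] at h1
  refine h1.symm.trans ?_
  have g1 : te (n + 1) * tt T (T.p (n + 1)) y = tt T (n + 1) y := by
    unfold tt
    rw [tau_pos T (x := n + 1) (by omega), mul_assoc]
  have g2 : te' (n + 1) * tt T z (T.p (n + 1)) = tt T z (n + 1) := by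
    unfold tt
    rw [tau'_pos T (x := n + 1) (by omega), mul_left_comm]
  rw [g1, g2]
  unfold Bf
  rcases hij with h | h
  · rw [act_comm, Dg_mu T hF hy i h, map_zero, map_zero]
  · rw [Dg_mu' T hm hF hz j h, map_zero, map_zero]

/-- from vanishing of a double sequence to a degree bound -/
theorem Dg_of_Bd {F : Fn} (hF : ∀ e, act (MvPolynomial.X e ^ 3) F = 0) {v y z : ℕ} {a b : ℤ}
    {H : ℕ → ℕ → Fn}
    (h : Bd (fun i j => Bf (tt T v y) (tt T z v) F i j + dl H i j) a b) :
    Dg (tt T z y) (a + b) F := by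
  intro k hk
  have h1 : ∑ x ∈ antidiagonal k, (Bf (tt T v y) (tt T z v) F x.1 x.2 + dl H x.1 x.2) = 0 := by
    apply sum_eq_zero
    intro x hx
    rw [HasAntidiagonal.mem_antidiagonal] at hx
    apply h
    have : (x.1 : ℤ) + x.2 = k := by exact_mod_cast hx
    omega
  rw [sum_add_distrib, sum_dl, add_zero, sum_Bf, mul_comm, act_tt_mul T hF] at h1
  exact h1

theorem Bf_zero (g g' : Polynomial R) : Bf g g' 0 = fun _ _ => 0 := by
  funext i j
  unfold Bf
  rw [map_zero, map_zero]

theorem dl_zero_fn : dl (fun _ _ => (0 : Fn)) = fun _ _ => 0 := by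
  funext i j
  unfold dl
  cases i <;> cases j <;> simp

theorem mem0 {n : ℕ} {m : ℕ → ℕ → ℤ} (hm : ∀ y z, m y z = m z y) {F : Fn}
    (hF : F ∈ KL T (n + 1) m) : Fj n 0 F ∈ KL T n (mj T 0 n m) := by
  refine ⟨Fj_supp hF.1 0, fun y hy z hz k hk => ?_⟩
  rcases le_total (m y z) (mu T n m y + mu T n m z - 0) with h | h
  · have h2 : mj T 0 n m y z = m y z := min_eq_left h
    rw [h2] at hk
    exact Fj_old T hF 0 hy hz k hk
  · have h2 : mj T 0 n m y z = mu T n m y + mu T n m z - 0 := min_eq_right h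
    rw [h2] at hk
    have h3 := Bd_W T hm hF hz hy
    have h4 : (fun i j => Bf (tt T (T.p (n + 1)) z) (tt T y (T.p (n + 1))) (Fj n 0 F) i j +
      dl (Bf (tt T (T.p (n + 1)) z) (tt T y (T.p (n + 1))) (Fj n 1 F)) i j -
      dl (dl (Bf (tt T (T.p (n + 1)) z) (tt T y (T.p (n + 1))) (Fj n 2 F))) i j) =
      fun i j => Bf (tt T (T.p (n + 1)) z) (tt T y (T.p (n + 1))) (Fj n 0 F) i j +
        dl (fun i j => Bf (tt T (T.p (n + 1)) z) (tt T y (T.p (n + 1))) (Fj n 1 F) i j -
          dl (Bf (tt T (T.p (n + 1)) z) (tt T y (T.p (n + 1))) (Fj n 2 F)) i j) i j := by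
      funext i j
      rw [dl_sub, add_sub_assoc]
    rw [h4] at h3
    exact Dg_of_Bd T (Fj_supp hF.1 0).2 h3 k (by omega)

theorem mem1 {n : ℕ} {m : ℕ → ℕ → ℤ} (hm : ∀ y z, m y z = m z y) {F : Fn}
    (hF : F ∈ KL T (n + 1) m) (h0 : Fj n 0 F = 0) : Fj n 1 F ∈ KL T n (mj T 1 n m) := by
  refine ⟨Fj_supp hF.1 1, fun y hy z hz k hk => ?_⟩
  rcases le_total (m y z) (mu T n m y + mu T n m z - 1) with h | h
  · have h2 : mj T 1 n m y z = m y z := min_eq_left h
    rw [h2] at hk
    exact Fj_old T hF 1 hy hz k hk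
  · have h2 : mj T 1 n m y z = mu T n m y + mu T n m z - 1 := min_eq_right h
    rw [h2] at hk
    have h3 := Bd_W T hm hF hz hy
    rw [h0, Bf_zero] at h3
    have h4 : (fun i j => (0 : Fn) +
      dl (Bf (tt T (T.p (n + 1)) z) (tt T y (T.p (n + 1))) (Fj n 1 F)) i j -
      dl (dl (Bf (tt T (T.p (n + 1)) z) (tt T y (T.p (n + 1))) (Fj n 2 F))) i j) =
      dl (fun i j => Bf (tt T (T.p (n + 1)) z) (tt T y (T.p (n + 1))) (Fj n 1 F) i j -
          dl (Bf (tt T (T.p (n + 1)) z) (tt T y (T.p (n + 1))) (Fj n 2 F)) i j) := by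
      funext i j
      rw [dl_sub, zero_add]
    rw [h4] at h3
    have h5 := h3.of_dl
    have h6 : (fun i j => Bf (tt T (T.p (n + 1)) z) (tt T y (T.p (n + 1))) (Fj n 1 F) i j -
          dl (Bf (tt T (T.p (n + 1)) z) (tt T y (T.p (n + 1))) (Fj n 2 F)) i j) =
        fun i j => Bf (tt T (T.p (n + 1)) z) (tt T y (T.p (n + 1))) (Fj n 1 F) i j +
          dl (fun i j => - Bf (tt T (T.p (n + 1)) z) (tt T y (T.p (n + 1))) (Fj n 2 F) i j) i j := by
      funext i j
      have h7 := dl_sub (fun _ _ => (0 : Fn))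
        (Bf (tt T (T.p (n + 1)) z) (tt T y (T.p (n + 1))) (Fj n 2 F)) i j
      rw [dl_zero_fn, zero_sub] at h7
      simp only [zero_sub] at h7
      rw [h7, sub_eq_add_neg]
    rw [h6] at h5
    exact Dg_of_Bd T (Fj_supp hF.1 1).2 h5 k (by omega)

theorem mem2 {n : ℕ} {m : ℕ → ℕ → ℤ} (hm : ∀ y z, m y z = m z y) {F : Fn}
    (hF : F ∈ KL T (n + 1) m) (h0 : Fj n 0 F = 0) (h1 : Fj n 1 F = 0) :
    Fj n 2 F ∈ KL T n (mj T 2 n m) := by
  refine ⟨Fj_supp hF.1 2, fun y hy z hz k hk => ?_⟩
  rcases le_total (m y z) (mu T n m y + mu T n m z - 2) with h | h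
  · have h2 : mj T 2 n m y z = m y z := min_eq_left h
    rw [h2] at hk
    exact Fj_old T hF 2 hy hz k hk
  · have h2 : mj T 2 n m y z = mu T n m y + mu T n m z - 2 := min_eq_right h
    rw [h2] at hk
    have h3 := Bd_W T hm hF hz hy
    rw [h0, h1, Bf_zero, dl_zero_fn] at h3
    have h4 : Bd (dl (dl (Bf (tt T (T.p (n + 1)) z) (tt T y (T.p (n + 1))) (Fj n 2 F))))
        (2 * mu T n m z) (2 * mu T n m y) := by
      intro i j hij
      have h5 := h3 i j hij
      simpa using h5
    have h5 := h4.of_dl.of_dl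
    have h6 : Bd (fun i j => Bf (tt T (T.p (n + 1)) z) (tt T y (T.p (n + 1))) (Fj n 2 F) i j +
        dl (fun _ _ => (0 : Fn)) i j) (2 * mu T n m z - 1 - 1) (2 * mu T n m y - 1 - 1) := by
      intro i j hij
      change Bf (tt T (T.p (n + 1)) z) (tt T y (T.p (n + 1))) (Fj n 2 F) i j +
        dl (fun _ _ => (0 : Fn)) i j = 0
      rw [dl_zero_fn, h5 i j hij, add_zero]
    exact Dg_of_Bd T (Fj_supp hF.1 2).2 h6 k (by omega)

theorem Fj_faithful {n : ℕ} {F : Fn} (hF : F ∈ Supp (n + 1)) (h0 : Fj n 0 F = 0)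
    (h1 : Fj n 1 F = 0) (h2 : Fj n 2 F = 0) : F = 0 := by
  apply fn_ext
  intro w
  rw [LinearMap.zero_apply]
  have hsplit := monomial_split (w := w) (i := n + 1) (j := w (n + 1)) le_rfl
  set w' := w - Finsupp.single (n + 1) (w (n + 1)) with hw'
  have hw0 : w' (n + 1) = 0 := by
    rw [hw', Finsupp.tsub_apply, Finsupp.single_eq_same, Nat.sub_self]
  have hev : ev (n + 1) (MvPolynomial.monomial w' 1) = MvPolynomial.monomial w' 1 := by
    rw [MvPolynomial.monomial_eq, MvPolynomial.C_1, one_mul, Finsupp.prod, map_prod]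
    apply prod_congr rfl
    intro i hi
    rw [map_pow, ev_X_ne]
    rintro rfl
    exact (Finsupp.mem_support_iff.1 hi) hw0
  have hval : ∀ j, Fj n j F = 0 → w (n + 1) = j → F (MvPolynomial.monomial w 1) = 0 := by
    intro j hj hwj
    have h3 := LinearMap.congr_fun hj (MvPolynomial.monomial w' 1)
    rw [Fj_apply, rho_apply, hev, act_apply, ← hwj, ← hsplit] at h3
    exact h3
  rcases Nat.lt_or_ge (w (n + 1)) 3 with h3 | h3
  · interval_cases h : w (n + 1)
    · exact hval 0 h0 rfl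
    · exact hval 1 h1 rfl
    · exact hval 2 h2 rfl
  · rw [monomial_split h3, ← act_apply, hF.2, LinearMap.zero_apply]

theorem finrank_KL_succ (n : ℕ) (m : ℕ → ℕ → ℤ) (hm : ∀ y z, m y z = m z y) :
    Module.finrank (ZMod 3) (KL T (n + 1) m) ≤
      Module.finrank (ZMod 3) (KL T n (mj T 0 n m)) + Module.finrank (ZMod 3) (KL T n (mj T 1 n m)) +
        Module.finrank (ZMod 3) (KL T n (mj T 2 n m)) := by
  set K := KL T (n + 1) m with hK
  set f : K →ₗ[ZMod 3] Fn := (Fj n 0).comp K.subtype with hf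
  set K' := LinearMap.ker f with hK'
  set g : K' →ₗ[ZMod 3] Fn := (Fj n 1).comp (K.subtype.comp K'.subtype) with hg
  have r1 := LinearMap.finrank_range_add_finrank_ker f
  rw [← hK'] at r1
  have r2 := LinearMap.finrank_range_add_finrank_ker g
  have b1 : Module.finrank (ZMod 3) (LinearMap.range f) ≤
      Module.finrank (ZMod 3) (KL T n (mj T 0 n m)) := by
    apply Submodule.finrank_mono
    rintro _ ⟨F, rfl⟩
    exact mem0 T hm F.2
  have b2 : Module.finrank (ZMod 3) (LinearMap.range g) ≤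
      Module.finrank (ZMod 3) (KL T n (mj T 1 n m)) := by
    apply Submodule.finrank_mono
    rintro _ ⟨F, rfl⟩
    exact mem1 T hm F.1.2 (LinearMap.mem_ker.1 F.2)
  have b3 : Module.finrank (ZMod 3) (LinearMap.ker g) ≤
      Module.finrank (ZMod 3) (KL T n (mj T 2 n m)) := by
    let u : LinearMap.ker g →ₗ[ZMod 3] KL T n (mj T 2 n m) :=
      LinearMap.codRestrict _ ((Fj n 2).comp (K.subtype.comp (K'.subtype.comp
        (LinearMap.ker g).subtype))) (by
        intro F
        exact mem2 T hm F.1.1.2 (LinearMap.mem_ker.1 F.1.2) (LinearMap.mem_ker.1 F.2))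
    apply LinearMap.finrank_le_finrank_of_injective (f := u)
    rw [← LinearMap.ker_eq_bot, LinearMap.ker_eq_bot']
    intro F hF
    have h2 : Fj n 2 F.1.1.1 = 0 := congrArg Subtype.val hF
    have h1 : Fj n 1 F.1.1.1 = 0 := LinearMap.mem_ker.1 F.2
    have h0 : Fj n 0 F.1.1.1 = 0 := LinearMap.mem_ker.1 F.1.2
    apply Subtype.ext
    apply Subtype.ext
    apply Subtype.ext
    exact Fj_faithful F.1.1.2.1 h0 h1 h2
  omega

/-- Counting points: the induction step. -/
theorem SL_count {n : ℕ} {m : ℕ → ℕ → ℤ} (hm : ∀ y z, m y z = m z y)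
    (h0 : 0 ≤ m (n + 1) (n + 1)) :
    (SL T n (mj T 0 n m)).card + (SL T n (mj T 1 n m)).card + (SL T n (mj T 2 n m)).card ≤
      (SL T (n + 1) m).card := by
  classical
  have hv : 1 ≤ n + 1 := by omega
  have hpn : T.p (n + 1) ≤ n := by have := T.p_lt (n + 1) hv; omega
  -- the largest lower bound for the new height
  have hA : ∀ q : ℕ →₀ ℕ, ∃ a : ℤ, (∃ y ≤ n, a = hL T q y - mu T n m y) ∧
      ∀ y ≤ n, hL T q y - mu T n m y ≤ a := by
    intro q
    obtain ⟨y0, hy0, hmax⟩ := exists_max_image (range (n + 1)) (fun y => hL T q y - mu T n m y)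
      ⟨0, by simp⟩
    rw [mem_range] at hy0
    exact ⟨_, ⟨y0, by omega, rfl⟩, fun y hy => hmax y (mem_range.2 (by omega))⟩
  choose a ha1 ha2 using hA
  -- the new coordinate
  let x : ℕ → (ℕ →₀ ℕ) → ℕ := fun j q => (a q + j - hL T q (T.p (n + 1)) + 1).toNat
  let ext : ℕ → (ℕ →₀ ℕ) → (ℕ →₀ ℕ) := fun j q => q + Finsupp.single (n + 1) (x j q)
  have hnot : ∀ q ∈ Pts (Icc 1 n), q (n + 1) = 0 := by
    intro q hq
    apply (mem_Pts.1 hq).1
    rw [mem_Icc]
    omega
  have hext : ∀ (j : ℕ), ∀ q ∈ SL T n (mj T j n m), j ≤ 2 →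
      (x j q : ℤ) = a q + j - hL T q (T.p (n + 1)) + 1 ∧ ext j q ∈ SL T (n + 1) m := by
    intro j q hq hj
    rw [mem_SL] at hq
    obtain ⟨hqP, hq⟩ := hq
    have hq1 : ∀ y ≤ n, ∀ z ≤ n, |hL T q y - hL T q z| ≤ m y z := fun y hy z hz =>
      (hq y hy z hz).trans (min_le_left _ _)
    have hq2 : ∀ y ≤ n, ∀ z ≤ n, |hL T q y - hL T q z| ≤ mu T n m y + mu T n m z - j :=
      fun y hy z hz => (hq y hy z hz).trans (min_le_right _ _)
    have hlow := ha2 q
    have hupp : ∀ y ≤ n, a q + j ≤ hL T q y + mu T n m y := by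
      intro y hy
      obtain ⟨y0, hy0, hay⟩ := ha1 q
      have := hq2 y0 hy0 y hy
      rw [abs_le] at this
      omega
    have hl := hlow _ hpn
    have hu := hupp _ hpn
    have hp := mu_p_le T n m
    have hx : (x j q : ℤ) = a q + j - hL T q (T.p (n + 1)) + 1 := by
      change ((a q + j - hL T q (T.p (n + 1)) + 1).toNat : ℤ) = _
      omega
    refine ⟨hx, ?_⟩
    have hx2 : x j q < 3 := by omega
    have hP := mem_Pts.1 hqP
    have hval : ∀ y ≤ n, hL T (ext j q) y = hL T q y := by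
      intro y hy
      apply hL_congr
      intro e he
      have : e ≠ n + 1 := by
        rintro rfl
        exact T.notMem_A_of_lt (by omega) he
      change (q + Finsupp.single (n + 1) (x j q)) e = q e
      rw [Finsupp.add_apply, Finsupp.single_eq_of_ne this, add_zero]
    have hlast : hL T (ext j q) (n + 1) = a q + j := by
      rw [hL_pos T _ hv, hval _ hpn]
      change (((q + Finsupp.single (n + 1) (x j q)) (n + 1) : ℕ) : ℤ) - 1 + _ = _
      rw [Finsupp.add_apply, Finsupp.single_eq_same, hnot q hqP, zero_add, hx]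
      ring
    have hclose : ∀ y ≤ n, |a q + j - hL T q y| ≤ m (n + 1) y := by
      intro y hy
      have h1 := hlow y hy
      have h2 := hupp y hy
      have h3 := mu_le T n m y
      rw [abs_le]
      constructor <;> omega
    rw [mem_SL, mem_Pts]
    refine ⟨⟨?_, ?_⟩, ?_⟩
    · intro i hi
      rw [mem_Icc] at hi
      change (q + Finsupp.single (n + 1) (x j q)) i = 0
      rw [Finsupp.add_apply, Finsupp.single_eq_of_ne (by omega), add_zero]
      apply hP.1
      rw [mem_Icc]
      omega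
    · intro i
      change (q + Finsupp.single (n + 1) (x j q)) i < 3
      rw [Finsupp.add_apply]
      by_cases hi : i = n + 1
      · rw [hi, Finsupp.single_eq_same, hnot q hqP, zero_add]
        exact hx2
      · rw [Finsupp.single_eq_of_ne hi, add_zero]
        exact hP.2 i
    · intro y hy z hz
      rcases Nat.lt_or_ge n y with hy' | hy' <;> rcases Nat.lt_or_ge n z with hz' | hz'
      · have : y = n + 1 := by omega
        have : z = n + 1 := by omega
        subst_vars
        simpa using h0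
      · have : y = n + 1 := by omega
        subst this
        rw [hlast, hval z hz']
        exact hclose z hz'
      · have : z = n + 1 := by omega
        subst this
        rw [hlast, hval y hy', abs_sub_comm, hm]
        exact hclose y hy'
      · rw [hval y hy', hval z hz']
        exact hq1 y hy' z hz'
  have hrestr : ∀ (j : ℕ), ∀ q ∈ SL T n (mj T j n m), (ext j q).erase (n + 1) = q := by
    intro j q hq
    have h1 := hnot q (mem_SL T |>.1 hq).1
    ext i
    by_cases hi : i = n + 1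
    · rw [hi, Finsupp.erase_same, h1]
    · rw [Finsupp.erase_ne hi]
      change (q + Finsupp.single (n + 1) (x j q)) i = q i
      rw [Finsupp.add_apply, Finsupp.single_eq_of_ne hi, add_zero]
  have hcoord : ∀ (j : ℕ), ∀ q ∈ SL T n (mj T j n m), (ext j q) (n + 1) = x j q := by
    intro j q hq
    have h1 := hnot q (mem_SL T |>.1 hq).1
    change (q + Finsupp.single (n + 1) (x j q)) (n + 1) = _
    rw [Finsupp.add_apply, Finsupp.single_eq_same, h1, zero_add]
  have himg : ∀ j : ℕ, ((SL T n (mj T j n m)).image (ext j)).card = (SL T n (mj T j n m)).card := by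
    intro j
    apply card_image_of_injOn
    intro q hq q' hq' hEq
    rw [← hrestr j q hq, ← hrestr j q' hq', hEq]
  have hdisj : ∀ i j : ℕ, i ≤ 2 → j ≤ 2 → i ≠ j →
      Disjoint ((SL T n (mj T i n m)).image (ext i)) ((SL T n (mj T j n m)).image (ext j)) := by
    intro i j hi hj hij
    rw [disjoint_left]
    intro r hr hr'
    rw [mem_image] at hr hr'
    obtain ⟨q, hq, rfl⟩ := hr
    obtain ⟨q', hq', hEq⟩ := hr'
    have h1 : q' = q := by
      rw [← hrestr i q hq, ← hrestr j q' hq', hEq]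
    subst h1
    have h2 : x i q' = x j q' := by
      rw [← hcoord i q' hq, ← hcoord j q' hq', hEq]
    have h3 := (hext i q' hq hi).1
    have h4 := (hext j q' hq' hj).1
    apply hij
    have h5 : (x i q' : ℤ) = (x j q' : ℤ) := by rw [h2]
    omega
  have h01 := hdisj 0 1 (by omega) (by omega) (by omega)
  have h02 := hdisj 0 2 (by omega) (by omega) (by omega)
  have h12 := hdisj 1 2 (by omega) (by omega) (by omega)
  have hunion : Disjoint ((SL T n (mj T (0 : ℕ) n m)).image (ext 0) ∪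
      (SL T n (mj T (1 : ℕ) n m)).image (ext 1)) ((SL T n (mj T (2 : ℕ) n m)).image (ext 2)) := by
    rw [disjoint_union_left]
    exact ⟨h02, h12⟩
  have e0 : ((0 : ℕ) : ℤ) = 0 := rfl
  have e1 : ((1 : ℕ) : ℤ) = 1 := rfl
  have e2 : ((2 : ℕ) : ℤ) = 2 := rfl
  have i0 := himg 0
  have i1 := himg 1
  have i2 := himg 2
  have c1 := card_union_of_disjoint hunion
  have c2 := card_union_of_disjoint h01
  rw [i2, c2, i0, i1] at c1
  rw [← e0, ← e1, ← e2, ← c1]
  apply card_le_card
  intro r hr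
  rw [mem_union, mem_union, mem_image, mem_image, mem_image] at hr
  rcases hr with (⟨q, hq, rfl⟩ | ⟨q, hq, rfl⟩) | ⟨q, hq, rfl⟩
  · exact (hext 0 q hq (by omega)).2
  · exact (hext 1 q hq (by omega)).2
  · exact (hext 2 q hq (by omega)).2

theorem mj_symm {n : ℕ} {m : ℕ → ℕ → ℤ} (hm : ∀ y z, m y z = m z y) (j : ℤ) (y z : ℕ) :
    mj T j n m y z = mj T j n m z y := by
  unfold mj
  rw [hm y z, add_comm (mu T n m y)]

theorem KL_bot {n : ℕ} {m : ℕ → ℕ → ℤ} (h0 : m n n < 0) : KL T n m = ⊥ := by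
  rw [eq_bot_iff]
  intro F hF
  rw [Submodule.mem_bot]
  have h1 := hF.2 n le_rfl n le_rfl 0 (by push_cast; omega)
  have h2 : tt T n n = 1 * ((∏ e ∈ T.A n, te e) * ∏ e ∈ T.A n, te' e) := by
    rw [one_mul]
    rfl
  rw [h2, act_coeff_prod hF.1.2, Polynomial.coeff_one_zero, act_one] at h1
  exact h1

theorem finrank_KL_le (n : ℕ) : ∀ m : ℕ → ℕ → ℤ, (∀ y z, m y z = m z y) →
    Module.finrank (ZMod 3) (KL T n m) ≤ (SL T n m).card := by
  induction n with
  | zero =>
    intro m _
    by_cases h0 : 0 ≤ m 0 0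
    · have h1 : 1 ≤ (SL T 0 m).card := by
        rw [Nat.one_le_iff_ne_zero, card_ne_zero]
        refine ⟨0, (mem_SL T).2 ⟨mem_Pts.2 ⟨fun i _ => rfl, fun i => ?_⟩, ?_⟩⟩
        · change 0 < 3
          norm_num
        · intro y hy z hz
          obtain rfl : y = 0 := by omega
          obtain rfl : z = 0 := by omega
          simpa using h0
      refine le_trans ?_ h1
      let g : KL T 0 m →ₗ[ZMod 3] ZMod 3 :=
        { toFun := fun F => F.1 1
          map_add' := fun _ _ => rfl
          map_smul' := fun _ _ => rfl }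
      have h2 := LinearMap.finrank_le_finrank_of_injective (f := g) (by
        rw [← LinearMap.ker_eq_bot, LinearMap.ker_eq_bot']
        intro F hF
        apply Subtype.ext
        apply fn_ext
        intro w
        change F.1 (MvPolynomial.monomial w 1) = 0
        by_cases hw : w = 0
        · rw [hw]
          exact hF
        · apply Supp_monomial F.2.1
          intro h
          apply hw
          rw [mem_Pts] at h
          ext i
          apply h.1
          simp)
      rwa [Module.finrank_self] at h2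
    · rw [KL_bot T (by omega), finrank_bot]
      exact Nat.zero_le _
  | succ n ih =>
    intro m hm
    by_cases h0 : 0 ≤ m (n + 1) (n + 1)
    · calc _ ≤ _ := finrank_KL_succ T n m hm
        _ ≤ _ := add_le_add (add_le_add (ih _ (mj_symm T hm 0)) (ih _ (mj_symm T hm 1)))
          (ih _ (mj_symm T hm 2))
        _ ≤ _ := SL_count T hm h0
    · rw [KL_bot T (by omega), finrank_bot]
      exact Nat.zero_le _

end Pool.Agent.W113.Lazy
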