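import Mathlib

set_option autoImplicit false

/-!
Operators on functions on finite sets of naturals with values in the two-element field, used for the
correlation inequality for tree-indexed walks with difference constraints.
-/

namespace Pool.Agent.W113.Range

open Finset

/-- functions on finite sets of naturals with values in the two-element field -/
abbrev Fn := Finset ℕ → ZMod 2

/-- differentiation along a block `W` -/
def dW (W : Finset ℕ) : Fn →ₗ[ZMod 2] Fn where
  toFun F := fun X => if Disjoint W X then F (X ∪ W) else 0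
  map_add' F G := by
    funext X
    by_cases h : Disjoint W X <;> simp [h]
  map_smul' c F := by
    funext X
    by_cases h : Disjoint W X <;> simp [h]

theorem dW_apply (W : Finset ℕ) (F : Fn) (X : Finset ℕ) :
    dW W F X = if Disjoint W X then F (X ∪ W) else 0 := rfl

/-- differentiation of order `k` along `E` -/
def D (E : Finset ℕ) (k : ℕ) : Fn →ₗ[ZMod 2] Fn := ∑ W ∈ E.powersetCard k, dW W

theorem D_apply (E : Finset ℕ) (k : ℕ) (F : Fn) (X : Finset ℕ) :
    D E k F X = ∑ W ∈ E.powersetCard k, dW W F X := by
  simp [D, LinearMap.sum_apply, Finset.sum_apply]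

theorem dW_empty (F : Fn) : dW ∅ F = F := by
  funext X
  simp [dW_apply]

theorem dW_comm (W W' : Finset ℕ) (F : Fn) : dW W (dW W' F) = dW W' (dW W F) := by
  funext X
  simp only [dW_apply, disjoint_union_right]
  by_cases h1 : Disjoint W X <;> by_cases h2 : Disjoint W' X <;> by_cases h3 : Disjoint W' W
  · have h3' : Disjoint W W' := h3.symm
    simp only [h1, h2, h3, h3', and_self, if_true]
    congr 1
    rw [union_assoc, union_assoc, union_comm W W']
  · have h3' : ¬ Disjoint W W' := fun h => h3 h.symm
    simp [h1, h2, h3, h3']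
  all_goals simp [h1, h2]

theorem dW_insert {e : ℕ} {W : Finset ℕ} (he : e ∉ W) (F : Fn) :
    dW (insert e W) F = dW {e} (dW W F) := by
  funext X
  simp only [dW_apply, disjoint_union_right, disjoint_insert_left, disjoint_singleton_left,
    disjoint_singleton_right]
  by_cases h1 : e ∈ X <;> by_cases h2 : Disjoint W X
  · simp [h1]
  · simp [h1]
  · simp only [h1, h2, he, not_false_eq_true, and_self, if_true]
    congr 1
    ext a
    simp only [mem_union, mem_insert, mem_singleton]
    tauto
  · simp [h1, h2]

theorem dW_sq (e : ℕ) (F : Fn) : dW {e} (dW {e} F) = 0 := by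
  funext X
  simp only [dW_apply, disjoint_singleton_left, mem_union, mem_singleton]
  simp

theorem D_zero (E : Finset ℕ) (F : Fn) : D E 0 F = F := by
  simp [D, dW_empty]

theorem D_empty_succ (k : ℕ) (F : Fn) : D ∅ (k + 1) F = 0 := by
  have h : powersetCard (k + 1) (∅ : Finset ℕ) = ∅ := by
    rw [powersetCard_eq_empty]
    simp
  simp [D, h]

theorem D_insert {e : ℕ} {E : Finset ℕ} (he : e ∉ E) (k : ℕ) (F : Fn) :
    D (insert e E) (k + 1) F = D E (k + 1) F + dW {e} (D E k F) := by
  have hinj : ∀ W ∈ powersetCard k E, e ∉ W := by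
    intro W hW hmem
    exact he ((mem_powersetCard.1 hW).1 hmem)
  have h1 : D (insert e E) (k + 1) = D E (k + 1) + ∑ W ∈ powersetCard k E, dW (insert e W) := by
    rw [D, powersetCard_succ_insert he, sum_union, D]
    · congr 1
      rw [sum_image]
      intro W hW W' hW' hEq
      have := congrArg (fun s => s.erase e) hEq
      simpa [erase_insert (hinj W hW), erase_insert (hinj W' hW')] using this
    · rw [disjoint_left]
      intro W hW hW'
      rw [mem_image] at hW'
      obtain ⟨W', _, rfl⟩ := hW'
      exact he ((mem_powersetCard.1 hW).1 (mem_insert_self _ _))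
  rw [h1, LinearMap.add_apply, LinearMap.sum_apply, D, D, LinearMap.sum_apply, LinearMap.sum_apply,
    map_sum]
  congr 1
  exact sum_congr rfl fun W hW => dW_insert (hinj W hW) F

theorem dW_D_comm (W E : Finset ℕ) (k : ℕ) (F : Fn) : dW W (D E k F) = D E k (dW W F) := by
  rw [D, LinearMap.sum_apply, LinearMap.sum_apply, map_sum]
  exact sum_congr rfl fun W' _ => dW_comm _ _ _

theorem D_comm (E E' : Finset ℕ) (k k' : ℕ) (F : Fn) :
    D E k (D E' k' F) = D E' k' (D E k F) := by
  have h1 : D E k (D E' k' F) = ∑ W ∈ E.powersetCard k, dW W (D E' k' F) := by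
    rw [D, LinearMap.sum_apply]
  have h2 : D E k F = ∑ W ∈ E.powersetCard k, dW W F := by
    rw [D, LinearMap.sum_apply]
  rw [h1, h2, map_sum]
  exact sum_congr rfl fun W' _ => dW_D_comm _ _ _ _

theorem add_self_fn (F : Fn) : F + F = 0 := by
  funext X
  exact CharTwo.add_self_eq_zero (F X)

theorem D_symm_singleton (e : ℕ) (E : Finset ℕ) (k : ℕ) (F : Fn) :
    D (symmDiff E {e}) (k + 1) F = D E (k + 1) F + dW {e} (D E k F) := by
  by_cases he : e ∈ E
  · have h0 : symmDiff E {e} = E.erase e := by
      ext a
      simp only [mem_symmDiff, mem_singleton, mem_erase]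
      constructor
      · rintro (⟨h1, h2⟩ | ⟨h1, h2⟩)
        · exact ⟨h2, h1⟩
        · exact absurd (h1 ▸ he) h2
      · rintro ⟨h1, h2⟩
        exact Or.inl ⟨h2, h1⟩
    have hE : E = insert e (E.erase e) := (insert_erase he).symm
    have hn : e ∉ E.erase e := notMem_erase e E
    rw [h0]
    generalize E.erase e = E0 at hE hn
    subst hE
    rw [D_insert hn]
    cases k with
    | zero =>
      rw [D_zero, D_zero, add_assoc, add_self_fn, add_zero]
    | succ j =>
      rw [D_insert hn j, map_add, dW_sq, add_zero, add_assoc (D E0 (j + 1 + 1) F), add_self_fn,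
        add_zero]
  · have h0 : symmDiff E {e} = insert e E := by
      ext a
      simp only [mem_symmDiff, mem_singleton, mem_insert]
      constructor
      · rintro (⟨h1, h2⟩ | ⟨h1, h2⟩)
        · exact Or.inr h1
        · exact Or.inl h1
      · rintro (h1 | h1)
        · exact Or.inr ⟨h1, h1 ▸ he⟩
        · exact Or.inl ⟨h1, fun h => he (h ▸ h1)⟩
    rw [h0, D_insert he]

theorem D_symmDiff (E' : Finset ℕ) : ∀ (E : Finset ℕ) (k : ℕ) (F : Fn),
    D (symmDiff E E') k F = ∑ ij ∈ antidiagonal k, D E ij.1 (D E' ij.2 F) := by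
  induction E' using Finset.induction_on with
  | empty =>
    intro E k F
    have h0 : symmDiff E (∅ : Finset ℕ) = E := by
      ext a; simp [mem_symmDiff]
    rw [h0]
    cases k with
    | zero => simp [D_zero]
    | succ k =>
      rw [Finset.Nat.sum_antidiagonal_succ']
      simp [D_zero, D_empty_succ]
  | insert e E'' he ih =>
    intro E k F
    have h1 : symmDiff E (insert e E'') = symmDiff (symmDiff E {e}) E'' := by
      have : insert e E'' = symmDiff {e} E'' := by
        ext a
        simp only [mem_symmDiff, mem_singleton, mem_insert]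
        constructor
        · rintro (h1 | h1)
          · exact Or.inl ⟨h1, h1 ▸ he⟩
          · exact Or.inr ⟨h1, fun h => he (h ▸ h1)⟩
        · rintro (⟨h1, _⟩ | ⟨h1, _⟩)
          · exact Or.inl h1
          · exact Or.inr h1
      rw [this, symmDiff_assoc]
    rw [h1, ih]
    cases k with
    | zero => simp [D_zero]
    | succ k =>
      rw [Finset.Nat.sum_antidiagonal_succ, Finset.Nat.sum_antidiagonal_succ']
      simp only [D_zero, D_symm_singleton, D_insert he, map_add, sum_add_distrib]
      have h2 : ∀ G : Fn, ∑ x ∈ antidiagonal k, D E (x.1 + 1) (D E'' x.2 G) + D E'' (k + 1) G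
          = ∑ x ∈ antidiagonal k, D E x.1 (D E'' (x.2 + 1) G) + D E (k + 1) G := by
        intro G
        have e1 := Finset.Nat.sum_antidiagonal_succ (n := k) (f := fun x => D E x.1 (D E'' x.2 G))
        have e2 := Finset.Nat.sum_antidiagonal_succ' (n := k) (f := fun x => D E x.1 (D E'' x.2 G))
        simp only [D_zero] at e1 e2
        rw [e1] at e2
        rw [add_comm, e2, add_comm]
      have h3 : ∑ x ∈ antidiagonal k, dW {e} (D E x.1 (D E'' x.2 F))
          = ∑ x ∈ antidiagonal k, D E x.1 (dW {e} (D E'' x.2 F)) := by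
        exact sum_congr rfl fun x _ => dW_D_comm _ _ _ _
      rw [h3, ← add_assoc, add_comm (D E'' (k + 1) F), h2]
      abel

/-- `F` has degree at most `a` along `E` -/
def Dg (E : Finset ℕ) (a : ℤ) (F : Fn) : Prop := ∀ k : ℕ, a < k → D E k F = 0

theorem Dg.triangle {E E' : Finset ℕ} {a b : ℤ} {F : Fn} (h : Dg E a F) (h' : Dg E' b F) :
    Dg (symmDiff E E') (a + b) F := by
  intro k hk
  rw [D_symmDiff]
  apply sum_eq_zero
  intro x hx
  rw [HasAntidiagonal.mem_antidiagonal] at hx
  by_cases hb : b < x.2
  · rw [h' _ hb, map_zero]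
  · have ha : a < x.1 := by
      have : (x.1 : ℤ) + x.2 = k := by exact_mod_cast hx
      omega
    rw [D_comm, h _ ha, map_zero]

theorem Dg.mono {E : Finset ℕ} {a b : ℤ} {F : Fn} (h : Dg E a F) (hab : a ≤ b) : Dg E b F :=
  fun k hk => h k (lt_of_le_of_lt hab hk)

theorem Dg.dW {E : Finset ℕ} {a : ℤ} {F : Fn} (h : Dg E a F) (W : Finset ℕ) :
    Dg E a (Range.dW W F) := by
  intro k hk
  rw [← dW_D_comm, h k hk, map_zero]

end Pool.Agent.W113.Range
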