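import Pool.Agent.W113.Ops

set_option autoImplicit false

/-!
Rooted trees on initial segments of the naturals, given by the sets of edges on root paths, the heights of
points, the finite sets `S` of points meeting difference constraints, and the spaces `KK`.
-/

namespace Pool.Agent.W113.Range

open Finset

/-- A rooted tree on the naturals with root `0`: `p x < x` is the parent of `x`, and `A x` is the set of
edges on the path from the root to `x`, where the edge from `x` to its parent is called `x`. -/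
structure RTree where
  p : ℕ → ℕ
  A : ℕ → Finset ℕ
  p_lt : ∀ x, 1 ≤ x → p x < x
  A_zero : A 0 = ∅
  A_pos : ∀ x, 1 ≤ x → A x = insert x (A (p x))

namespace RTree

variable (T : RTree)

theorem A_subset (x : ℕ) : T.A x ⊆ Icc 1 x := by
  induction x using Nat.strong_induction_on with
  | _ x ih =>
    rcases Nat.eq_zero_or_pos x with rfl | hx
    · simp [T.A_zero]
    · rw [T.A_pos x hx]
      intro e he
      rw [mem_insert] at he
      rcases he with rfl | he
      · simp; omega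
      · have := ih _ (T.p_lt x hx) he
        have h2 := T.p_lt x hx
        rw [mem_Icc] at this ⊢
        omega

theorem notMem_A_of_lt {x y : ℕ} (h : y < x) : x ∉ T.A y := by
  intro hx
  have := T.A_subset y hx
  rw [mem_Icc] at this
  omega

theorem notMem_A_p {x : ℕ} (hx : 1 ≤ x) : x ∉ T.A (T.p x) := T.notMem_A_of_lt (T.p_lt x hx)

/-- the height of `y` at the point `q` -/
def h (q : Finset ℕ) (y : ℕ) : ℤ := ∑ e ∈ T.A y, if e ∈ q then 1 else -1

theorem h_zero (q : Finset ℕ) : T.h q 0 = 0 := by simp [h, T.A_zero]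

theorem h_pos (q : Finset ℕ) {x : ℕ} (hx : 1 ≤ x) :
    T.h q x = (if x ∈ q then 1 else -1) + T.h q (T.p x) := by
  rw [h, T.A_pos x hx, sum_insert (T.notMem_A_p hx), h]

theorem h_congr {q q' : Finset ℕ} {y : ℕ} (hq : ∀ e ∈ T.A y, (e ∈ q ↔ e ∈ q')) :
    T.h q y = T.h q' y := by
  apply sum_congr rfl
  intro e he
  simp [hq e he]

theorem h_insert {q : Finset ℕ} {x y : ℕ} (h : y < x) : T.h (insert x q) y = T.h q y := by
  apply T.h_congr
  intro e he
  have : e ≠ x := fun hh => T.notMem_A_of_lt h (hh ▸ he)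
  simp [this]

theorem h_parity (q : Finset ℕ) (y : ℕ) : (2 : ℤ) ∣ T.h q y - (T.A y).card := by
  rw [h, card_eq_sum_ones]
  push_cast
  rw [← sum_sub_distrib]
  apply dvd_sum
  intro e _
  by_cases he : e ∈ q <;> simp [he]

theorem abs_h_le (q : Finset ℕ) (y : ℕ) : |T.h q y| ≤ (T.A y).card := by
  rw [h, card_eq_sum_ones]
  push_cast
  refine (abs_sum_le_sum_abs _ _).trans (sum_le_sum fun e _ => ?_)
  by_cases he : e ∈ q <;> simp [he]

/-- Parity condition on difference bounds. -/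
def Good (m : ℕ → ℕ → ℤ) : Prop :=
  (∀ y z, m y z = m z y) ∧ ∀ y z, (2 : ℤ) ∣ m y z - (T.A y).card - (T.A z).card

/-- points of the cube meeting all difference constraints -/
noncomputable def S (n : ℕ) (m : ℕ → ℕ → ℤ) : Finset (Finset ℕ) :=
  by classical exact (Icc 1 n).powerset.filter fun q => ∀ y ≤ n, ∀ z ≤ n, |T.h q y - T.h q z| ≤ m y z

theorem mem_S {n : ℕ} {m : ℕ → ℕ → ℤ} {q : Finset ℕ} :
    q ∈ T.S n m ↔ q ⊆ Icc 1 n ∧ ∀ y ≤ n, ∀ z ≤ n, |T.h q y - T.h q z| ≤ m y z := by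
  classical
  simp [S]

/-- the space attached to difference constraints -/
def KK (n : ℕ) (m : ℕ → ℕ → ℤ) : Submodule (ZMod 2) Fn where
  carrier := {F | (∀ U, ¬ U ⊆ Icc 1 n → F U = 0) ∧
    ∀ y ≤ n, ∀ z ≤ n, Dg (symmDiff (T.A y) (T.A z)) (m y z) F}
  zero_mem' := by
    refine ⟨fun U _ => rfl, fun y _ z _ k _ => ?_⟩
    rw [map_zero]
  add_mem' := by
    rintro F G ⟨hF1, hF2⟩ ⟨hG1, hG2⟩
    refine ⟨fun U hU => ?_, fun y hy z hz k hk => ?_⟩
    · simp [hF1 U hU, hG1 U hU]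
    · rw [map_add, hF2 y hy z hz k hk, hG2 y hy z hz k hk, add_zero]
  smul_mem' := by
    rintro c F ⟨hF1, hF2⟩
    refine ⟨fun U hU => ?_, fun y hy z hz k hk => ?_⟩
    · simp [hF1 U hU]
    · rw [map_smul, hF2 y hy z hz k hk, smul_zero]

theorem mem_KK {n : ℕ} {m : ℕ → ℕ → ℤ} {F : Fn} :
    F ∈ T.KK n m ↔ (∀ U, ¬ U ⊆ Icc 1 n → F U = 0) ∧
      ∀ y ≤ n, ∀ z ≤ n, Dg (symmDiff (T.A y) (T.A z)) (m y z) F := Iff.rfl

end RTree

/-- functions supported on subsets of `N` -/
def Supp (N : Finset ℕ) : Submodule (ZMod 2) Fn where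
  carrier := {F | ∀ U, ¬ U ⊆ N → F U = 0}
  zero_mem' := fun U _ => rfl
  add_mem' := by
    intro F G hF hG U hU
    simp [hF U hU, hG U hU]
  smul_mem' := by
    intro c F hF U hU
    simp [hF U hU]

theorem mem_Supp {N : Finset ℕ} {F : Fn} : F ∈ Supp N ↔ ∀ U, ¬ U ⊆ N → F U = 0 := Iff.rfl

/-- restriction to subsets of `N` -/
def suppRes (N : Finset ℕ) : Supp N →ₗ[ZMod 2] (N.powerset → ZMod 2) where
  toFun F := fun U => F.1 U.1
  map_add' _ _ := rfl
  map_smul' _ _ := rfl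

theorem suppRes_injective (N : Finset ℕ) : Function.Injective (suppRes N) := by
  intro F G h
  apply Subtype.ext
  funext U
  by_cases hU : U ⊆ N
  · exact congrFun h ⟨U, mem_powerset.2 hU⟩
  · rw [F.2 U hU, G.2 U hU]

instance (N : Finset ℕ) : FiniteDimensional (ZMod 2) (Supp N) :=
  FiniteDimensional.of_injective (suppRes N) (suppRes_injective N)

theorem RTree.KK_le (T : RTree) (n : ℕ) (m : ℕ → ℕ → ℤ) : T.KK n m ≤ Supp (Icc 1 n) :=
  fun _ hF => hF.1

instance (T : RTree) (n : ℕ) (m : ℕ → ℕ → ℤ) : FiniteDimensional (ZMod 2) (T.KK n m) :=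
  Submodule.finiteDimensional_of_le (T.KK_le n m)

theorem RTree.KK_inf (T : RTree) (n : ℕ) (m m' : ℕ → ℕ → ℤ) :
    T.KK n m ⊓ T.KK n m' ≤ T.KK n (fun y z => min (m y z) (m' y z)) := by
  rintro F ⟨h1, h2⟩
  refine ⟨h1.1, fun y hy z hz k hk => ?_⟩
  rcases min_lt_iff.1 hk with h | h
  · exact h1.2 y hy z hz k h
  · exact h2.2 y hy z hz k h

theorem RTree.KK_dW (T : RTree) {n : ℕ} {m : ℕ → ℕ → ℤ} {F : Fn} (hF : F ∈ T.KK n m)
    (W : Finset ℕ) : dW W F ∈ T.KK n m := by
  refine ⟨fun U hU => ?_, fun y hy z hz => (hF.2 y hy z hz).dW W⟩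
  rw [dW_apply]
  split_ifs with h
  · exact hF.1 _ fun h' => hU (subset_union_left.trans h')
  · rfl

end Pool.Agent.W113.Range
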