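import Pool.Agent.W113.Tree

set_option autoImplicit false

/-!
The dimension of `KK n m` is at most the number of points of `S n m`.
-/

namespace Pool.Agent.W113.Range

open Finset

namespace RTree

variable (T : RTree)

/-- bound towards the last vertex -/
def mu (n : ℕ) (m : ℕ → ℕ → ℤ) (y : ℕ) : ℤ :=
  if y = T.p (n + 1) then min (m (n + 1) y) 1 else m (n + 1) y

/-- first reduced bound -/
def m1 (n : ℕ) (m : ℕ → ℕ → ℤ) (y z : ℕ) : ℤ := min (m y z) (T.mu n m y + T.mu n m z)

/-- second reduced bound -/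
def m2 (n : ℕ) (m : ℕ → ℕ → ℤ) (y z : ℕ) : ℤ := min (m y z) (T.mu n m y + T.mu n m z - 2)

theorem card_A_succ (n : ℕ) : (T.A (n + 1)).card = (T.A (T.p (n + 1))).card + 1 := by
  rw [T.A_pos (n + 1) (by omega), card_insert_of_notMem (T.notMem_A_p (by omega))]

theorem mu_le (n : ℕ) (m : ℕ → ℕ → ℤ) (y : ℕ) : T.mu n m y ≤ m (n + 1) y := by
  unfold mu
  split_ifs
  · exact min_le_left _ _
  · exact le_rfl

theorem mu_p_le (n : ℕ) (m : ℕ → ℕ → ℤ) : T.mu n m (T.p (n + 1)) ≤ 1 := by
  unfold mu
  rw [if_pos rfl]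
  exact min_le_right _ _

theorem mu_parity {n : ℕ} {m : ℕ → ℕ → ℤ} (hm : T.Good m) (y : ℕ) :
    (2 : ℤ) ∣ T.mu n m y - (T.A (n + 1)).card - (T.A y).card := by
  have h1 := hm.2 (n + 1) y
  unfold mu
  split_ifs with h
  · rcases min_choice (m (n + 1) y) 1 with h2 | h2
    · rw [h2]; exact h1
    · rw [h2, T.card_A_succ, ← h]
      push_cast
      omega
  · exact h1

theorem m1_good {n : ℕ} {m : ℕ → ℕ → ℤ} (hm : T.Good m) : T.Good (T.m1 n m) := by
  constructor
  · intro y z
    rw [m1, m1, hm.1 y z, add_comm]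
  · intro y z
    have h1 := hm.2 y z
    have h2 := T.mu_parity (n := n) hm y
    have h3 := T.mu_parity (n := n) hm z
    unfold m1
    rcases min_choice (m y z) (T.mu n m y + T.mu n m z) with h | h <;> rw [h] <;> omega

theorem m2_good {n : ℕ} {m : ℕ → ℕ → ℤ} (hm : T.Good m) : T.Good (T.m2 n m) := by
  constructor
  · intro y z
    rw [m2, m2, hm.1 y z, add_comm (T.mu n m y)]
  · intro y z
    have h1 := hm.2 y z
    have h2 := T.mu_parity (n := n) hm y
    have h3 := T.mu_parity (n := n) hm z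
    unfold m2
    rcases min_choice (m y z) (T.mu n m y + T.mu n m z - 2) with h | h <;> rw [h] <;> omega

theorem mem_S_succ {n : ℕ} {m : ℕ → ℕ → ℤ} (hm : T.Good m) (h0 : 0 ≤ m (n + 1) (n + 1))
    {q q' : Finset ℕ} (hq' : q' ⊆ Icc 1 (n + 1)) (hqq : ∀ y ≤ n, T.h q' y = T.h q y)
    (h1 : ∀ y ≤ n, ∀ z ≤ n, |T.h q y - T.h q z| ≤ m y z)
    (h2 : ∀ y ≤ n, |T.h q' (n + 1) - T.h q y| ≤ m (n + 1) y) : q' ∈ T.S (n + 1) m := by
  rw [mem_S]
  refine ⟨hq', fun y hy z hz => ?_⟩
  rcases Nat.lt_or_ge n y with hy' | hy' <;> rcases Nat.lt_or_ge n z with hz' | hz'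
  · have : y = n + 1 := by omega
    have : z = n + 1 := by omega
    subst_vars
    simpa using h0
  · have : y = n + 1 := by omega
    subst this
    rw [hqq z hz']
    exact h2 z hz'
  · have : z = n + 1 := by omega
    subst this
    rw [hqq y hy', abs_sub_comm, hm.1]
    exact h2 y hy'
  · rw [hqq y hy', hqq z hz']
    exact h1 y hy' z hz'

theorem S_count {n : ℕ} {m : ℕ → ℕ → ℤ} (hm : T.Good m) (h0 : 0 ≤ m (n + 1) (n + 1)) :
    (T.S n (T.m1 n m)).card + (T.S n (T.m2 n m)).card ≤ (T.S (n + 1) m).card := by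
  classical
  have hv : 1 ≤ n + 1 := by omega
  have hpn : T.p (n + 1) ≤ n := by have := T.p_lt (n + 1) hv; omega
  set Sm := (Icc 1 n).powerset.filter fun q => q ∈ T.S (n + 1) m with hSm
  set Sp := (Icc 1 n).powerset.filter fun q => insert (n + 1) q ∈ T.S (n + 1) m with hSp
  have hnot : ∀ q : Finset ℕ, q ⊆ Icc 1 n → n + 1 ∉ q := by
    intro q hq hmem
    have := hq hmem
    rw [mem_Icc] at this
    omega
  have hsub : ∀ q : Finset ℕ, q ⊆ Icc 1 n → q ⊆ Icc 1 (n + 1) := fun q hq =>
    hq.trans (Icc_subset_Icc le_rfl (by omega))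
  have hsub' : ∀ q : Finset ℕ, q ⊆ Icc 1 n → insert (n + 1) q ⊆ Icc 1 (n + 1) := fun q hq =>
    insert_subset (by simp) (hsub q hq)
  have hval : ∀ q : Finset ℕ, q ⊆ Icc 1 n → T.h q (n + 1) = -1 + T.h q (T.p (n + 1)) := by
    intro q hq
    rw [T.h_pos q hv, if_neg (hnot q hq)]
  have hval' : ∀ q : Finset ℕ, T.h (insert (n + 1) q) (n + 1) = 1 + T.h q (T.p (n + 1)) := by
    intro q
    rw [T.h_pos _ hv, if_pos (mem_insert_self _ _), T.h_insert (by omega)]
  -- first inclusion
  have hA : T.S n (T.m1 n m) ⊆ Sm ∪ Sp := by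
    intro q hq
    rw [mem_S] at hq
    obtain ⟨hqs, hq⟩ := hq
    have hq1 : ∀ y ≤ n, ∀ z ≤ n, |T.h q y - T.h q z| ≤ m y z := fun y hy z hz =>
      (hq y hy z hz).trans (min_le_left _ _)
    have hq2 : ∀ y ≤ n, ∀ z ≤ n, |T.h q y - T.h q z| ≤ T.mu n m y + T.mu n m z := fun y hy z hz =>
      (hq y hy z hz).trans (min_le_right _ _)
    -- the maximum of the lower bounds
    obtain ⟨y0, hy0, hmax⟩ := exists_max_image (range (n + 1)) (fun y => T.h q y - T.mu n m y)
      ⟨0, by simp⟩
    rw [mem_range] at hy0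
    have hy0' : y0 ≤ n := by omega
    set a := T.h q y0 - T.mu n m y0 with ha
    have hlow : ∀ y ≤ n, T.h q y - T.mu n m y ≤ a := fun y hy =>
      hmax y (mem_range.2 (by omega))
    have hupp : ∀ y ≤ n, a ≤ T.h q y + T.mu n m y := by
      intro y hy
      have := hq2 y0 hy0' y hy
      rw [abs_le] at this
      omega
    have hclose : ∀ y ≤ n, |a - T.h q y| ≤ m (n + 1) y := by
      intro y hy
      have h1 := hlow y hy
      have h2 := hupp y hy
      have h3 := T.mu_le n m y
      rw [abs_le]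
      constructor <;> omega
    have hpar : (2 : ℤ) ∣ a - T.h q (T.p (n + 1)) - 1 := by
      have h1 := T.h_parity q y0
      have h2 := T.mu_parity (n := n) hm y0
      have h3 := T.h_parity q (T.p (n + 1))
      have h4 := T.card_A_succ n
      have h5 : ((T.A (n + 1)).card : ℤ) = ((T.A (T.p (n + 1))).card : ℤ) + 1 := by
        exact_mod_cast h4
      omega
    have hb1 := hlow _ hpn
    have hb2 := hupp _ hpn
    have hb3 := T.mu_p_le n m
    have hcase : a = -1 + T.h q (T.p (n + 1)) ∨ a = 1 + T.h q (T.p (n + 1)) := by omega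
    rw [mem_union]
    rcases hcase with hc | hc
    · left
      rw [hSm, mem_filter, mem_powerset]
      refine ⟨hqs, T.mem_S_succ hm h0 (hsub q hqs) (fun _ _ => rfl) hq1 ?_⟩
      intro y hy
      rw [hval q hqs, ← hc]
      exact hclose y hy
    · right
      rw [hSp, mem_filter, mem_powerset]
      refine ⟨hqs, T.mem_S_succ hm h0 (hsub' q hqs) (fun y hy => T.h_insert (by omega)) hq1 ?_⟩
      intro y hy
      rw [hval' q, ← hc]
      exact hclose y hy
  -- second inclusion
  have hB : T.S n (T.m2 n m) ⊆ Sm ∩ Sp := by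
    intro q hq
    rw [mem_S] at hq
    obtain ⟨hqs, hq⟩ := hq
    have hq1 : ∀ y ≤ n, ∀ z ≤ n, |T.h q y - T.h q z| ≤ m y z := fun y hy z hz =>
      (hq y hy z hz).trans (min_le_left _ _)
    have hq2 : ∀ y ≤ n, |T.h q y - T.h q (T.p (n + 1))| ≤ m (n + 1) y - 1 := by
      intro y hy
      have h1 := (hq y hy _ hpn).trans (min_le_right _ _)
      have h2 := T.mu_p_le n m
      have h3 := T.mu_le n m y
      omega
    rw [mem_inter, hSm, hSp, mem_filter, mem_filter, mem_powerset]
    refine ⟨⟨hqs, T.mem_S_succ hm h0 (hsub q hqs) (fun _ _ => rfl) hq1 ?_⟩,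
      ⟨hqs, T.mem_S_succ hm h0 (hsub' q hqs) (fun y hy => T.h_insert (by omega)) hq1 ?_⟩⟩
    · intro y hy
      have := hq2 y hy
      rw [hval q hqs]
      rw [abs_le] at this ⊢
      constructor <;> omega
    · intro y hy
      have := hq2 y hy
      rw [hval' q]
      rw [abs_le] at this ⊢
      constructor <;> omega
  -- counting
  have hC : Sm.card + Sp.card ≤ (T.S (n + 1) m).card := by
    have himg : (Sp.image (insert (n + 1))).card = Sp.card := by
      apply card_image_of_injOn
      intro q hq q' hq' hEq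
      rw [mem_coe, hSp, mem_filter, mem_powerset] at hq hq'
      have := congrArg (fun s => s.erase (n + 1)) hEq
      simpa [erase_insert (hnot q hq.1), erase_insert (hnot q' hq'.1)] using this
    have hdisj : Disjoint Sm (Sp.image (insert (n + 1))) := by
      rw [disjoint_left]
      intro q hq hq'
      rw [mem_image] at hq'
      obtain ⟨q', _, rfl⟩ := hq'
      rw [hSm, mem_filter, mem_powerset] at hq
      exact hnot _ hq.1 (mem_insert_self _ _)
    rw [← himg, ← card_union_of_disjoint hdisj]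
    apply card_le_card
    intro q hq
    rw [mem_union, mem_image] at hq
    rcases hq with hq | ⟨q', hq', rfl⟩
    · exact (mem_filter.1 hq).2
    · exact (mem_filter.1 hq').2
  calc (T.S n (T.m1 n m)).card + (T.S n (T.m2 n m)).card
      ≤ (Sm ∪ Sp).card + (Sm ∩ Sp).card := add_le_add (card_le_card hA) (card_le_card hB)
    _ = Sm.card + Sp.card := card_union_add_card_inter _ _
    _ ≤ _ := hC

end RTree

/-- set the values at sets containing `v` to zero -/
def rho (v : ℕ) : Fn →ₗ[ZMod 2] Fn where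
  toFun F := fun X => if v ∈ X then 0 else F X
  map_add' F G := by
    funext X
    by_cases h : v ∈ X <;> simp [h]
  map_smul' c F := by
    funext X
    by_cases h : v ∈ X <;> simp [h]

theorem rho_apply (v : ℕ) (F : Fn) (X : Finset ℕ) : rho v F X = if v ∈ X then 0 else F X := rfl

theorem D_rho {v : ℕ} {E : Finset ℕ} (hv : v ∉ E) (k : ℕ) (F : Fn) :
    D E k (rho v F) = rho v (D E k F) := by
  funext X
  rw [D_apply, rho_apply, D_apply]
  by_cases hX : v ∈ X
  · rw [if_pos hX]
    apply sum_eq_zero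
    intro W hW
    rw [dW_apply, rho_apply]
    simp [hX]
  · rw [if_neg hX]
    apply sum_congr rfl
    intro W hW
    have : v ∉ W := fun h => hv ((mem_powersetCard.1 hW).1 h)
    rw [dW_apply, dW_apply, rho_apply]
    simp [hX, this]

namespace RTree

variable (T : RTree)

theorem symmDiff_last {n y : ℕ} (hy : y ≤ n) :
    symmDiff (T.A (n + 1)) (T.A y) = insert (n + 1) (symmDiff (T.A (T.p (n + 1))) (T.A y)) := by
  have h1 : n + 1 ∉ T.A y := T.notMem_A_of_lt (by omega)
  have h2 : n + 1 ∉ T.A (T.p (n + 1)) := T.notMem_A_p (by omega)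
  rw [T.A_pos (n + 1) (by omega)]
  ext e
  simp only [mem_symmDiff, mem_insert]
  constructor
  · rintro (⟨h3 | h3, h4⟩ | ⟨h3, h4⟩)
    · exact Or.inl h3
    · exact Or.inr (Or.inl ⟨h3, h4⟩)
    · exact Or.inr (Or.inr ⟨h3, fun h => h4 (Or.inr h)⟩)
  · rintro (h3 | ⟨h3, h4⟩ | ⟨h3, h4⟩)
    · subst h3
      exact Or.inl ⟨Or.inl rfl, h1⟩
    · exact Or.inl ⟨Or.inr h3, h4⟩
    · refine Or.inr ⟨h3, ?_⟩
      rintro (h | h)
      · subst h; exact h1 h3
      · exact h4 h

theorem notMem_symmDiff {n y z : ℕ} (hy : y ≤ n) (hz : z ≤ n) :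
    n + 1 ∉ symmDiff (T.A y) (T.A z) := by
  rw [mem_symmDiff]
  rintro (⟨h, _⟩ | ⟨h, _⟩)
  · exact T.notMem_A_of_lt (by omega) h
  · exact T.notMem_A_of_lt (by omega) h

theorem Dg_mu {n : ℕ} {m : ℕ → ℕ → ℤ} {F : Fn} (hF : F ∈ T.KK (n + 1) m) {y : ℕ} (hy : y ≤ n) :
    Dg (symmDiff (T.A (n + 1)) (T.A y)) (T.mu n m y) F := by
  have h1 := hF.2 (n + 1) le_rfl y (by omega)
  unfold mu
  split_ifs with h
  · intro k hk
    rcases min_lt_iff.1 hk with h2 | h2
    · exact h1 k h2
    · rw [T.symmDiff_last hy, ← h, symmDiff_self]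
      have h3 : powersetCard k (insert (n + 1) (⊥ : Finset ℕ)) = ∅ := by
        rw [powersetCard_eq_empty]
        have : (insert (n + 1) (⊥ : Finset ℕ)).card = 1 := by simp
        rw [this]
        exact_mod_cast h2
      rw [D, h3, sum_empty, LinearMap.zero_apply]
  · exact h1

theorem symmDiff_tri (E F G : Finset ℕ) : symmDiff (symmDiff E F) (symmDiff E G) = symmDiff F G := by
  rw [symmDiff_comm E F, symmDiff_assoc, ← symmDiff_assoc E E G, symmDiff_self, bot_symmDiff]

theorem rho_mem {n : ℕ} {m : ℕ → ℕ → ℤ} {F : Fn} (hF : F ∈ T.KK (n + 1) m) :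
    rho (n + 1) F ∈ T.KK n (T.m1 n m) := by
  refine ⟨fun U hU => ?_, fun y hy z hz k hk => ?_⟩
  · rw [rho_apply]
    split_ifs with h
    · rfl
    · apply hF.1
      intro hU'
      apply hU
      intro e he
      have h1 := hU' he
      have h2 : e ≠ n + 1 := fun h' => h (h' ▸ he)
      rw [mem_Icc] at h1 ⊢
      omega
  · rw [D_rho (T.notMem_symmDiff hy hz)]
    have h0 : D (symmDiff (T.A y) (T.A z)) k F = 0 := by
      rcases min_lt_iff.1 hk with h | h
      · exact hF.2 y (by omega) z (by omega) k h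
      · have h1 := (T.Dg_mu hF hy).triangle (T.Dg_mu hF hz)
        rw [symmDiff_tri] at h1
        exact h1 k h
    rw [h0, map_zero]

theorem dW_mem {n : ℕ} {m : ℕ → ℕ → ℤ} {F : Fn} (hF : F ∈ T.KK (n + 1) m)
    (h0 : rho (n + 1) F = 0) : dW {n + 1} F ∈ T.KK n (T.m2 n m) := by
  have hz0 : ∀ X : Finset ℕ, n + 1 ∉ X → F X = 0 := by
    intro X hX
    have := congrFun h0 X
    rw [rho_apply, if_neg hX] at this
    exact this
  have hsupp : ∀ U, ¬ U ⊆ Icc 1 n → dW {n + 1} F U = 0 := by
    intro U hU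
    rw [dW_apply]
    split_ifs with h
    · apply hF.1
      intro hU'
      apply hU
      intro e he
      have h1 := hU' (mem_union_left _ he)
      have h2 : e ≠ n + 1 := fun h' => by
        subst h'
        exact (disjoint_singleton_left.1 h) he
      rw [mem_Icc] at h1 ⊢
      omega
    · rfl
  -- degree along the edges towards the parent drops by one
  have hdrop : ∀ y ≤ n, Dg (symmDiff (T.A (T.p (n + 1))) (T.A y)) (T.mu n m y - 1)
      (dW {n + 1} F) := by
    intro y hy k hk
    have hpn : T.p (n + 1) ≤ n := by have := T.p_lt (n + 1) (by omega); omega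
    have h1 := T.Dg_mu hF hy (k + 1) (by push_cast; omega)
    rw [T.symmDiff_last hy, D_insert (T.notMem_symmDiff hpn hy)] at h1
    rw [← dW_D_comm]
    funext X
    by_cases hX : n + 1 ∈ X
    · rw [dW_apply, if_neg]
      · rfl
      · rw [disjoint_singleton_left]
        exact fun h => h hX
    · have h2 := congrFun h1 X
      rw [Pi.add_apply] at h2
      have h3 : D (symmDiff (T.A (T.p (n + 1))) (T.A y)) (k + 1) F X = 0 := by
        rw [D_apply]
        apply sum_eq_zero
        intro W hW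
        rw [dW_apply]
        split_ifs
        · apply hz0
          rw [mem_union]
          rintro (h | h)
          · exact hX h
          · exact T.notMem_symmDiff hpn hy ((mem_powersetCard.1 hW).1 h)
        · rfl
      rw [h3, zero_add] at h2
      exact h2
  refine ⟨hsupp, fun y hy z hz k hk => ?_⟩
  rcases min_lt_iff.1 hk with h | h
  · exact ((hF.2 y (by omega) z (by omega)).dW _) k h
  · have h1 := (hdrop y hy).triangle (hdrop z hz)
    rw [symmDiff_tri] at h1
    exact h1 k (by omega)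

theorem finrank_KK_succ (n : ℕ) (m : ℕ → ℕ → ℤ) :
    Module.finrank (ZMod 2) (T.KK (n + 1) m) ≤
      Module.finrank (ZMod 2) (T.KK n (T.m1 n m)) + Module.finrank (ZMod 2) (T.KK n (T.m2 n m)) := by
  set K := T.KK (n + 1) m with hK
  set f : K →ₗ[ZMod 2] Fn := (rho (n + 1)).comp K.subtype with hf
  rw [← LinearMap.finrank_range_add_finrank_ker f]
  apply add_le_add
  · apply Submodule.finrank_mono
    rintro _ ⟨F, rfl⟩
    exact T.rho_mem F.2
  · let g : LinearMap.ker f →ₗ[ZMod 2] T.KK n (T.m2 n m) :=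
      LinearMap.codRestrict _ ((dW {n + 1}).comp (K.subtype.comp (LinearMap.ker f).subtype)) (by
        intro F
        exact T.dW_mem F.1.2 (LinearMap.mem_ker.1 F.2))
    apply LinearMap.finrank_le_finrank_of_injective (f := g)
    rw [← LinearMap.ker_eq_bot, LinearMap.ker_eq_bot']
    intro F hF
    have h1 : dW {n + 1} F.1.1 = 0 := congrArg Subtype.val hF
    have h2 : rho (n + 1) F.1.1 = 0 := LinearMap.mem_ker.1 F.2
    apply Subtype.ext
    apply Subtype.ext
    funext X
    change F.1.1 X = 0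
    by_cases hX : n + 1 ∈ X
    · have := congrFun h1 (X.erase (n + 1))
      rw [dW_apply, if_pos (disjoint_singleton_left.2 (notMem_erase _ _))] at this
      have h3 : X.erase (n + 1) ∪ {n + 1} = X := by
        rw [union_comm, ← insert_eq, insert_erase hX]
      rw [h3] at this
      exact this
    · have := congrFun h2 X
      rw [rho_apply, if_neg hX] at this
      exact this

theorem finrank_KK_le (n : ℕ) : ∀ m : ℕ → ℕ → ℤ, T.Good m →
    Module.finrank (ZMod 2) (T.KK n m) ≤ (T.S n m).card := by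
  induction n with
  | zero =>
    intro m _
    by_cases h0 : 0 ≤ m 0 0
    · have h1 : 1 ≤ (T.S 0 m).card := by
        rw [Nat.one_le_iff_ne_zero, card_ne_zero]
        refine ⟨∅, T.mem_S.2 ⟨empty_subset _, ?_⟩⟩
        intro y hy z hz
        obtain rfl : y = 0 := by omega
        obtain rfl : z = 0 := by omega
        simpa using h0
      refine le_trans ?_ h1
      let g : T.KK 0 m →ₗ[ZMod 2] ZMod 2 :=
        { toFun := fun F => F.1 ∅
          map_add' := fun _ _ => rfl
          map_smul' := fun _ _ => rfl }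
      have h2 := LinearMap.finrank_le_finrank_of_injective (f := g) (by
        rw [← LinearMap.ker_eq_bot, LinearMap.ker_eq_bot']
        intro F hF
        apply Subtype.ext
        funext X
        change F.1 X = 0
        by_cases hX : X = ∅
        · rw [hX]; exact hF
        · apply F.2.1
          intro h
          apply hX
          rw [← subset_empty]
          simpa using h)
      rwa [Module.finrank_self] at h2
    · have : T.KK 0 m = ⊥ := by
        rw [eq_bot_iff]
        intro F hF
        rw [Submodule.mem_bot]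
        have := hF.2 0 le_rfl 0 le_rfl 0 (by push_cast; omega)
        rwa [D_zero] at this
      rw [this, finrank_bot]
      exact Nat.zero_le _
  | succ n ih =>
    intro m hm
    by_cases h0 : 0 ≤ m (n + 1) (n + 1)
    · calc _ ≤ _ := T.finrank_KK_succ n m
        _ ≤ _ := add_le_add (ih _ (T.m1_good hm)) (ih _ (T.m2_good hm))
        _ ≤ _ := T.S_count hm h0
    · have : T.KK (n + 1) m = ⊥ := by
        rw [eq_bot_iff]
        intro F hF
        rw [Submodule.mem_bot]
        have := hF.2 (n + 1) le_rfl (n + 1) le_rfl 0 (by push_cast; omega)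
        rwa [D_zero] at this
      rw [this, finrank_bot]
      exact Nat.zero_le _

end RTree

end Pool.Agent.W113.Range
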